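import Pool.Agent.Lib.H44T.E2

/-!
# Chunk E2 (S/M): the heavy graph on the inner side is closable, with a parameter

Copy the proof of `inner_closable` in `H44T/E2` (its auxiliary lemmas `e2_*` can be cited; `e2_cut` needs `40 ≤ card A`, here `4 t + 40 ≤ card A`) with `30` replaced by `3 t + 3` and `10` by
`t + 2`. The three places where the numbers are used: a vertex `v` that is not weak has `nb v ≥ 3 t + 3`, and `nb a ≥ |G| - 1 ≥ N - t - 3` for `a ∈ G`, so the sum is at least `N + 1`;
two vertices with at least `|G| - 1` neighbours: `2 (N - t - 3) ≥ N + 1` as `N ≥ 4 t + 40`; `G` (and the set of the non-weak vertices) has at least three elements.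
-/

namespace Pool.Agent.H44U

open Finset Pool.Agent.H44O Pool.Agent.H44T
open scoped Classical

variable {A : Type*} [Fintype A]

theorem inner_closableU {t : ℕ} (ht : 1 ≤ t) (hA : Even (Fintype.card A)) (h40 : 4 * t + 40 ≤ Fintype.card A)
    {y : A → A → ℤ} (hy : IsW y) {z : A} {r : ℤ} {k K Λ : ℕ} (hr : ∀ a, a ≠ z → dg y a = r)
    (hz : dg y z = r + 2 * k)
    (hcut : ∀ Z : Finset A, Odd Z.card → z ∉ Z → 3 ≤ Z.card → Z.card + 3 ≤ Fintype.card A →
      r + Λ ≤ cutW y Z)
    (hΛ : 2 * k + 2 * K * Fintype.card A < Λ) {G : Finset A} (hGz : z ∉ G)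
    (hGdeg : ∀ a ∈ G, ∀ b ∈ G, a ≠ b →
      Fintype.card A + 1 ≤ nb (heavy y K) a + nb (heavy y K) b)
    (hGc : Fintype.card A ≤ G.card + (t + 2))
    (hweak : ∀ a b, a ≠ z → b ≠ z → nbi (heavy y K) ({z} : Finset A)ᶜ a < 3 * t + 3 →
      nbi (heavy y K) ({z} : Finset A)ᶜ b < 3 * t + 3 → a = b)
    (hwz : ∀ a, a ≠ z → nbi (heavy y K) ({z} : Finset A)ᶜ a < 3 * t + 3 → (K : ℤ) ≤ y a z) :
    Closable (heavy y K) := by
  have hN0 : 0 ≤ (K : ℤ) * Fintype.card A := by positivity
  have hΛ' : (2 * k + 2 * K * Fintype.card A : ℤ) < Λ := by exact_mod_cast hΛ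
  have hcut' : ∀ a b, a ≠ z → b ≠ z → a ≠ b → r + Λ ≤ 3 * r + 2 * k - 2 * (y z a + y z b + y a b) :=
    fun a b ha hb hab => e2_cut hA (by omega) hy hr hz hcut ha hb hab
  apply closable_of
  intro H' hH hne
  by_contra hcon
  have hcon' : ∀ a b, a ≠ b → ¬ H'.Adj a b → nb H' a + nb H' b ≤ Fintype.card A := by
    intro a b hab hadj
    by_contra hlt
    exact hcon ⟨a, b, hab, hadj, by omega⟩
  -- G is a clique
  have hG1 : ∀ a ∈ G, ∀ b ∈ G, a ≠ b → H'.Adj a b := by
    intro a ha b hb hab
    by_contra hadj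
    have h1 := hcon' a b hab hadj
    have h2 := hGdeg a ha b hb hab
    have h3 := nb_mono hH a
    have h4 := nb_mono hH b
    omega
  have hGnb : ∀ a ∈ G, G.card ≤ nb H' a + 1 := by
    intro a ha
    have h1 := e2_nb (H := H') (a := a) (T := G.erase a) (fun u hu =>
      hG1 a ha u (mem_of_mem_erase hu) (ne_of_mem_erase hu).symm)
    rw [card_erase_of_mem ha] at h1
    omega
  have hstrong : ∀ v, ¬ nbi (heavy y K) ({z} : Finset A)ᶜ v < 3 * t + 3 → 3 * t + 3 ≤ nb H' v := by
    intro v hv
    have h1 : nbi (heavy y K) ({z} : Finset A)ᶜ v ≤ nb H' v := by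
      unfold nbi
      exact e2_nb (fun u hu => hH (mem_filter.mp hu).2)
    omega
  have hG2 : ∀ v, v ≠ z → ¬ nbi (heavy y K) ({z} : Finset A)ᶜ v < 3 * t + 3 → ∀ a ∈ G, v ≠ a → H'.Adj v a := by
    intro v hvz hv a ha hva
    by_contra hadj
    have h1 := hcon' v a hva hadj
    have h2 := hstrong v hv
    have h3 := hGnb a ha
    omega
  have hG3 : ∀ v, v ≠ z → ¬ nbi (heavy y K) ({z} : Finset A)ᶜ v < 3 * t + 3 → Fintype.card A ≤ nb H' v + (t + 3) := by
    intro v hvz hv
    have h1 := e2_nb (H := H') (a := v) (T := G.erase v) (fun u hu =>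
      hG2 v hvz hv u (mem_of_mem_erase hu) (ne_of_mem_erase hu).symm)
    have h2 : G.card ≤ (G.erase v).card + 1 := by
      have := pred_card_le_card_erase (s := G) (a := v)
      omega
    omega
  have hW : ∀ v, v ≠ z → ¬ nbi (heavy y K) ({z} : Finset A)ᶜ v < 3 * t + 3 → ∀ v', v' ≠ z →
      ¬ nbi (heavy y K) ({z} : Finset A)ᶜ v' < 3 * t + 3 → v ≠ v' → H'.Adj v v' := by
    intro v h1 h2 v' h1' h2' hvv
    by_contra hadj
    have h3 := hcon' v v' hvv hadj
    have h4 := hG3 v h1 h2
    have h5 := hG3 v' h1' h2'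
    omega
  have hexist : ∃ a b, a ≠ b ∧ ¬ H'.Adj a b := by
    by_contra hno
    push Not at hno
    apply hne
    ext a b
    rw [SimpleGraph.top_adj]
    exact ⟨fun h => h.ne, fun h => hno a b h⟩
  by_cases hwk : ∃ v, v ≠ z ∧ nbi (heavy y K) ({z} : Finset A)ᶜ v < 3 * t + 3
  · -- one weak vertex
    obtain ⟨v, hvz, hv⟩ := hwk
    have huni : ∀ u, u ≠ z → u ≠ v → ¬ nbi (heavy y K) ({z} : Finset A)ᶜ u < 3 * t + 3 := fun u hu hne' h =>
      hne' (hweak u v hu hvz h hv)
    have hvzadj : (heavy y K).Adj v z := by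
      refine ⟨hvz, hwz v hvz hv, ?_⟩
      rw [hy.symm]
      exact hwz v hvz hv
    obtain ⟨W, hWd⟩ : ∃ W : Finset A, W = (univ.erase z).erase v := ⟨_, rfl⟩
    have hWm : ∀ u, u ∈ W ↔ u ≠ v ∧ u ≠ z := by
      intro u
      rw [hWd, mem_erase, mem_erase]
      exact ⟨fun h => ⟨h.1, h.2.1⟩, fun h => ⟨h.1, h.2, mem_univ _⟩⟩
    have hWc : W.card + 2 = Fintype.card A := by
      rw [hWd, card_erase_of_mem (mem_erase.mpr ⟨hvz, mem_univ _⟩), card_erase_of_mem (mem_univ _), card_univ]
      omega
    have hWadj : ∀ a ∈ W, ∀ b ∈ W, a ≠ b → H'.Adj a b := by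
      intro a ha b hb hab
      rw [hWm] at ha hb
      exact hW a ha.2 (huni a ha.2 ha.1) b hb.2 (huni b hb.2 hb.1) hab
    obtain ⟨P, hP⟩ : ∃ P, P = W.filter (fun u => H'.Adj v u) := ⟨_, rfl⟩
    obtain ⟨Q, hQ⟩ : ∃ Q, Q = W.filter (fun u => H'.Adj z u) := ⟨_, rfl⟩
    have hPm : ∀ u, u ∈ P ↔ u ∈ W ∧ H'.Adj v u := by
      intro u
      rw [hP, mem_filter]
    have hQm : ∀ u, u ∈ Q ↔ u ∈ W ∧ H'.Adj z u := by
      intro u
      rw [hQ, mem_filter]
    have hdv : ∀ T : Finset A, T ⊆ W → P ⊆ T → r ≤ y v z + ∑ u ∈ T, y v u + K * Fintype.card A := by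
      intro T hTW hPT
      have hzT : z ∉ T := fun h => ((hWm z).mp (hTW h)).2 rfl
      have h1 := e2_dg (y := y) (K := K) (a := v) (T := insert z T) (fun u hu => by
        rw [mem_insert, not_or] at hu
        by_cases huv : u = v
        · rw [huv, hy.diag]
          exact Int.natCast_nonneg _
        · apply e2_le hy
          intro hadj
          exact hu.2 (hPT ((hPm u).mpr ⟨(hWm u).mpr ⟨huv, hu.1⟩, hH hadj⟩)))
      rw [sum_insert hzT, hr v hvz] at h1
      exact h1
    have hdz : ∀ T : Finset A, T ⊆ W → Q ⊆ T → r + 2 * k ≤ y z v + ∑ u ∈ T, y z u + K * Fintype.card A := by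
      intro T hTW hQT
      have hvT : v ∉ T := fun h => ((hWm v).mp (hTW h)).1 rfl
      have h1 := e2_dg (y := y) (K := K) (a := z) (T := insert v T) (fun u hu => by
        rw [mem_insert, not_or] at hu
        by_cases huz : u = z
        · rw [huz, hy.diag]
          exact Int.natCast_nonneg _
        · apply e2_le hy
          intro hadj
          exact hu.2 (hQT ((hQm u).mpr ⟨(hWm u).mpr ⟨hu.1, huz⟩, hH hadj⟩)))
      rw [sum_insert hvT, hz] at h1
      exact h1
    have hPW : P ⊆ W := fun u hu => ((hPm u).mp hu).1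
    have hQW : Q ⊆ W := fun u hu => ((hQm u).mp hu).1
    have hyvz : y v z = y z v := hy.symm v z
    have hone : ∀ T : Finset A, T ⊆ W → T.card ≤ 1 → ∃ b ∈ W, T ⊆ {b} := by
      intro T hT hTc
      obtain ⟨T', h1, h2, h3⟩ := exists_subsuperset_card_eq hT hTc (show 1 ≤ W.card by omega)
      obtain ⟨b, hb⟩ := card_eq_one.mp h3
      rw [hb] at h1 h2
      exact ⟨b, h2 (mem_singleton_self _), h1⟩
    have hP2 : 2 ≤ P.card := by
      by_contra hlt
      obtain ⟨b, hb, hPb⟩ := hone P hPW (by omega)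
      have h1 := hdv {b} (singleton_subset_iff.mpr hb) hPb
      rw [sum_singleton] at h1
      have h2 := hcut' v b hvz ((hWm b).mp hb).2 ((hWm b).mp hb).1.symm
      have h3 := hy.nonneg z b
      linarith
    have hQ2 : 2 ≤ Q.card := by
      by_contra hlt
      obtain ⟨b, hb, hQb⟩ := hone Q hQW (by omega)
      have h1 := hdz {b} (singleton_subset_iff.mpr hb) hQb
      rw [sum_singleton] at h1
      have h2 := hcut' v b hvz ((hWm b).mp hb).2 ((hWm b).mp hb).1.symm
      have h3 := hy.nonneg v b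
      have hk0 : (0 : ℤ) ≤ k := Int.natCast_nonneg _
      linarith
    have hPQ : 3 ≤ (P ∪ Q).card := by
      by_contra hlt
      obtain ⟨b1, hb1, b2, hb2, hb12, hPQb⟩ := e2_pair (union_subset hPW hQW) (show (P ∪ Q).card ≤ 2 by omega)
        (show 2 ≤ W.card by omega)
      have hsub : ({b1, b2} : Finset A) ⊆ W := by
        intro u hu
        rcases mem_insert.mp hu with h | h
        · rw [h]
          exact hb1
        · rw [mem_singleton.mp h]
          exact hb2
      have hb12' : b1 ∉ ({b2} : Finset A) := by simp [hb12]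
      have h1 := hdv {b1, b2} hsub (subset_union_left.trans hPQb)
      have h2 := hdz {b1, b2} hsub (subset_union_right.trans hPQb)
      rw [sum_insert hb12', sum_singleton] at h1 h2
      have h3 := hcut' v b1 hvz ((hWm b1).mp hb1).2 ((hWm b1).mp hb1).1.symm
      have h4 := hcut' v b2 hvz ((hWm b2).mp hb2).2 ((hWm b2).mp hb2).1.symm
      have hk0 : (0 : ℤ) ≤ k := Int.natCast_nonneg _
      linarith
    have hnbz : Q.card + 1 ≤ nb H' z := by
      have hvQ : v ∉ Q := fun h => ((hWm v).mp (hQW h)).1 rfl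
      have h1 := e2_nb (H := H') (a := z) (T := insert v Q) (fun u hu => by
        rcases mem_insert.mp hu with h | h
        · rw [h]
          exact (hH hvzadj).symm
        · exact ((hQm u).mp h).2)
      rw [card_insert_of_notMem hvQ] at h1
      exact h1
    have hnbv : P.card + 1 ≤ nb H' v := by
      have hzP : z ∉ P := fun h => ((hWm z).mp (hPW h)).2 rfl
      have h1 := e2_nb (H := H') (a := v) (T := insert z P) (fun u hu => by
        rcases mem_insert.mp hu with h | h
        · rw [h]
          exact hH hvzadj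
        · exact ((hPm u).mp h).2)
      rw [card_insert_of_notMem hzP] at h1
      exact h1
    have hnba : ∀ a ∈ W, Fintype.card A ≤ nb H' a + 3 := by
      intro a ha
      have h1 := e2_nb (H := H') (a := a) (T := W.erase a) (fun u hu =>
        hWadj a ha u (mem_of_mem_erase hu) (ne_of_mem_erase hu).symm)
      rw [card_erase_of_mem ha] at h1
      omega
    have hnba1 : ∀ a ∈ W, ∀ u, u ∉ W → H'.Adj a u → Fintype.card A ≤ nb H' a + 2 := by
      intro a ha u hu hadj
      have hu' : u ∉ W.erase a := fun h => hu (mem_of_mem_erase h)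
      have h1 := e2_nb (H := H') (a := a) (T := insert u (W.erase a)) (fun t ht => by
        rcases mem_insert.mp ht with h | h
        · rw [h]
          exact hadj
        · exact hWadj a ha t (mem_of_mem_erase h) (ne_of_mem_erase h).symm)
      rw [card_insert_of_notMem hu', card_erase_of_mem ha] at h1
      omega
    have hvW : v ∉ W := fun h => ((hWm v).mp h).1 rfl
    have hzW : z ∉ W := fun h => ((hWm z).mp h).2 rfl
    by_cases haz : ∃ a ∈ W, ¬ H'.Adj z a
    · obtain ⟨a, ha, hadj⟩ := haz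
      by_cases hQ3 : 3 ≤ Q.card
      · have h1 := hcon' z a ((hWm a).mp ha).2.symm hadj
        have h2 := hnba a ha
        omega
      · obtain ⟨a', ha', haQ⟩ : ∃ a' ∈ P, a' ∉ Q := by
          by_contra hno
          push Not at hno
          have h1 : P ∪ Q ⊆ Q := union_subset hno (Subset.refl _)
          have h2 := card_le_card h1
          omega
        have ha'W := hPW ha'
        have hadj' : ¬ H'.Adj z a' := fun h => haQ ((hQm a').mpr ⟨ha'W, h⟩)
        have h1 := hcon' z a' ((hWm a').mp ha'W).2.symm hadj'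
        have h2 := hnba1 a' ha'W v hvW ((hPm a').mp ha').2.symm
        omega
    · push Not at haz
      obtain ⟨a, b, hab, hadj⟩ := hexist
      have hkey : ∀ a ∈ W, ¬ H'.Adj v a → False := by
        intro a ha hadj
        have h1 := hcon' v a ((hWm a).mp ha).1.symm hadj
        have h2 := hnba1 a ha z hzW (haz a ha).symm
        omega
      by_cases haz' : a = z
      · by_cases hbv : b = v
        · rw [haz', hbv] at hadj
          exact hadj (hH hvzadj).symm
        · rw [haz'] at hadj
          exact hadj (haz b ((hWm b).mpr ⟨hbv, fun h => hab (haz'.trans h.symm)⟩))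
      · by_cases hbz : b = z
        · by_cases hav : a = v
          · rw [hbz, hav] at hadj
            exact hadj (hH hvzadj)
          · rw [hbz] at hadj
            exact hadj (haz a ((hWm a).mpr ⟨hav, haz'⟩)).symm
        · by_cases hav : a = v
          · rw [hav] at hadj
            exact hkey b ((hWm b).mpr ⟨fun h => hab (hav.trans h.symm), hbz⟩) hadj
          · by_cases hbv : b = v
            · rw [hbv] at hadj
              exact hkey a ((hWm a).mpr ⟨hav, haz'⟩) (fun h => hadj h.symm)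
            · exact hadj (hWadj a ((hWm a).mpr ⟨hav, haz'⟩) b ((hWm b).mpr ⟨hbv, hbz⟩) hab)
  · -- no weak vertex
    push Not at hwk
    have hstr : ∀ u, u ≠ z → ¬ nbi (heavy y K) ({z} : Finset A)ᶜ u < 3 * t + 3 := fun u hu =>
      not_lt.mpr (hwk u hu)
    have hadjW : ∀ a b, a ≠ z → b ≠ z → a ≠ b → H'.Adj a b := fun a b ha hb hab =>
      hW a ha (hstr a ha) b hb (hstr b hb) hab
    obtain ⟨a, haz, hadj⟩ : ∃ a, a ≠ z ∧ ¬ H'.Adj z a := by
      obtain ⟨a, b, hab, hadj⟩ := hexist
      by_cases haz : a = z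
      · exact ⟨b, fun h => hab (haz.trans h.symm), by rw [← haz]; exact hadj⟩
      · by_cases hbz : b = z
        · refine ⟨a, haz, fun h => hadj ?_⟩
          rw [hbz]
          exact h.symm
        · exact absurd (hadjW a b haz hbz hab) hadj
    have h1 := hcon' z a haz.symm hadj
    have h2 : Fintype.card A ≤ nb H' a + 2 := by
      have h3 := e2_nb (H := H') (a := a) (T := (univ.erase z).erase a) (fun u hu =>
        hadjW a u haz (ne_of_mem_erase (mem_of_mem_erase hu)) (ne_of_mem_erase hu).symm)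
      rw [card_erase_of_mem (mem_erase.mpr ⟨haz, mem_univ _⟩), card_erase_of_mem (mem_univ _), card_univ] at h3
      omega
    have h3 : nb H' z ≤ 2 := by omega
    obtain ⟨b1, hb1, b2, hb2, hb12, hQb⟩ := e2_pair (T := (univ.erase z).filter (fun u => (heavy y K).Adj z u))
      (U := univ.erase z) (filter_subset _ _) (by
        refine le_trans ?_ h3
        exact e2_nb (fun u hu => hH (mem_filter.mp hu).2)) (by
        rw [card_erase_of_mem (mem_univ _), card_univ]
        omega)
    have hb1z := ne_of_mem_erase hb1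
    have hb2z := ne_of_mem_erase hb2
    have hb12' : b1 ∉ ({b2} : Finset A) := by simp [hb12]
    have h4 := e2_dg (y := y) (K := K) (a := z) (T := {b1, b2}) (fun u hu => by
      by_cases huz : u = z
      · rw [huz, hy.diag]
        exact Int.natCast_nonneg _
      · apply e2_le hy
        intro h
        exact hu (hQb (mem_filter.mpr ⟨mem_erase.mpr ⟨huz, mem_univ _⟩, h⟩)))
    rw [sum_insert hb12', sum_singleton, hz] at h4
    have h5 := hcut' b1 b2 hb1z hb2z hb12
    have h6 := hy.nonneg b1 b2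
    have hk0 : (0 : ℤ) ≤ k := Int.natCast_nonneg _
    linarith

end Pool.Agent.H44U
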