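import Pool.Agent.Lib.H44T.E3

/-!
# Chunk E3 (S/M): counting heavy neighbours inside `W`, with a parameter

Ports of the proofs in `H44T/E3` (`inside_nb` can be cited). `t ≥ 1`.
* `good_nbU`: `t ends ≤ r`, so `(t - 1) r ≤ t (r - ends) ≤ t (μ h + K n)`; with `hr`:
  `t μ (n + 4 t + 10) ≤ 2 (t - 1) r - 2 t K n ≤ 2 t μ h`, divide by `t μ > 0`.
* `bad_cardU`: `t + 1` bad vertices would give `(t + 1) (r + 1) ≤ t (r + 2 k)`.
* `weak_endsU`: `h < 3 t + 3`.
* `weak_uniqueU`: as `weak_unique`.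
-/

namespace Pool.Agent.H44U

open Finset Pool.Agent.H44O Pool.Agent.H44T
open scoped Classical

variable {V : Type*} [Fintype V]

theorem good_nbU {x : V → V → ℤ} (hx : IsW x) {r : ℤ} {μ K t : ℕ} (h0 : 0 < μ) (ht : 1 ≤ t)
    (hμ : ∀ u v, x u v ≤ μ)
    (hr : (t : ℤ) * μ * (Fintype.card V + 4 * t + 10) + 2 * t * K * Fintype.card V ≤
      2 * (t - 1) * r) {W : Finset V} {w : V} (hg : t * ends x r W w ≤ r) :
    Fintype.card V + 4 * t + 10 ≤ 2 * nbi (heavy x K) W w := by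
  have h1 := inside_nb hx r (K := K) hμ W w
  have ht0 : (1 : ℤ) ≤ t := by exact_mod_cast ht
  have h1' : (2 * t : ℤ) * r ≤ 2 * t * (ends x r W w + μ * nbi (heavy x K) W w +
      K * Fintype.card V) := mul_le_mul_of_nonneg_left h1 (by linarith)
  have h2 : (t : ℤ) * μ * (Fintype.card V + 4 * t + 10) ≤
      (t : ℤ) * μ * (2 * nbi (heavy x K) W w) := by
    have e1 : (2 * t : ℤ) * (ends x r W w + μ * nbi (heavy x K) W w + K * Fintype.card V) =
      2 * (t * ends x r W w) + (t : ℤ) * μ * (2 * nbi (heavy x K) W w) +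
        2 * t * K * Fintype.card V := by ring
    rw [e1] at h1'
    linarith
  have h3 : (0 : ℤ) < (t : ℤ) * (μ : ℤ) := by positivity
  have h4 := le_of_mul_le_mul_left h2 h3
  exact_mod_cast h4

theorem bad_cardU {x : V → V → ℤ} {r : ℤ} {W : Finset V} {k t : ℕ}
    (hs : ∑ w ∈ W, ends x r W w = r + 2 * k) (hn : ∀ w ∈ W, 0 ≤ ends x r W w)
    (hk : 2 * (k : ℤ) * t ≤ r) : (W.filter (fun w => r < t * ends x r W w)).card ≤ t := by
  by_contra hcon
  push Not at hcon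
  have hk0 : (0 : ℤ) ≤ k := Int.natCast_nonneg k
  have ht0 : (0 : ℤ) ≤ t := Int.natCast_nonneg t
  have hkt : 0 ≤ 2 * (k : ℤ) * t := by positivity
  set B := W.filter (fun w => r < t * ends x r W w) with hB
  have h1 : ∑ w ∈ B, ends x r W w ≤ ∑ w ∈ W, ends x r W w :=
    Finset.sum_le_sum_of_subset_of_nonneg (Finset.filter_subset _ _) fun w hw _ => hn w hw
  have h2 : (B.card : ℤ) * (r + 1) ≤ t * ∑ w ∈ B, ends x r W w := by
    rw [Finset.mul_sum, ← nsmul_eq_mul, ← Finset.sum_const]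
    refine Finset.sum_le_sum fun w hw => ?_
    have h3 := (Finset.mem_filter.1 hw).2
    linarith
  have h3 : ((t : ℤ) + 1) * (r + 1) ≤ (B.card : ℤ) * (r + 1) := by
    refine mul_le_mul_of_nonneg_right ?_ ?_
    · exact_mod_cast hcon
    · linarith
  have h4 : (t : ℤ) * ∑ w ∈ B, ends x r W w ≤ t * (r + 2 * k) :=
    mul_le_mul_of_nonneg_left (h1.trans_eq hs) ht0
  nlinarith

theorem weak_endsU {x : V → V → ℤ} (hx : IsW x) {r : ℤ} {μ K t : ℕ} (hμ : ∀ u v, x u v ≤ μ)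
    {W : Finset V} {w : V} (hw : nbi (heavy x K) W w < 3 * t + 3) :
    r ≤ ends x r W w + (3 * t + 3) * μ + K * Fintype.card V := by
  have h1 := inside_nb hx r (K := K) hμ W w
  have h2 : (μ : ℤ) * nbi (heavy x K) W w ≤ (μ : ℤ) * (3 * t + 3) := by
    refine mul_le_mul_of_nonneg_left ?_ (Int.natCast_nonneg μ)
    exact_mod_cast hw.le
  linarith

theorem weak_uniqueU {x : V → V → ℤ} (hx : IsW x) {r : ℤ} {μ K k t : ℕ} (hμ : ∀ u v, x u v ≤ μ)
    {W : Finset V} (hs : ∑ w ∈ W, ends x r W w = r + 2 * k) (hn : ∀ w ∈ W, 0 ≤ ends x r W w)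
    (hr : (6 * (t : ℤ) + 6) * μ + 2 * K * Fintype.card V + 2 * k < r) {w w' : V} (hw : w ∈ W)
    (hw' : w' ∈ W) (h1 : nbi (heavy x K) W w < 3 * t + 3) (h2 : nbi (heavy x K) W w' < 3 * t + 3) :
    w = w' := by
  by_contra hne
  have h3 := weak_endsU hx (r := r) hμ h1
  have h4 := weak_endsU hx (r := r) hμ h2
  have h5 : ∑ v ∈ ({w, w'} : Finset V), ends x r W v ≤ ∑ v ∈ W, ends x r W v := by
    refine Finset.sum_le_sum_of_subset_of_nonneg ?_ fun v hv _ => hn v hv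
    intro v hv
    rw [Finset.mem_insert, Finset.mem_singleton] at hv
    rcases hv with rfl | rfl
    · exact hw
    · exact hw'
  rw [Finset.sum_pair hne] at h5
  linarith

end Pool.Agent.H44U
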