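import Pool.Agent.Lib.H44T.E4
import Pool.Agent.Lib.H44U.E2
import Pool.Agent.Lib.H44U.E3

/-!
# Chunk E4 (S/M): the inner graph of a nearly full set, with a parameter

Copy the proof of `inn_closable` in `H44T/E4` with `inner_closableU`, `good_nbU`, `bad_cardU`, `weak_endsU`, `weak_uniqueU`; `G` = the `some w` with `t * ends ≤ r` (at least `|W| - t = |A| - t - 1` of them);
`hGdeg`: `2 (nb a + nb b) ≥ 2 (n + 4 t + 10)`, and `|A| + 1 ≤ n + 2`.
-/

namespace Pool.Agent.H44U

open Finset Pool.Agent.H44O Pool.Agent.H44T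
open scoped Classical

variable {V : Type*} [Fintype V]

theorem inn_closableU {x : V → V → ℤ} (hx : IsW x) {r : ℤ} {μ k K Λ t : ℕ} (ht : 1 ≤ t)
    (hμ : ∀ u v, x u v ≤ μ) {W : Finset V} (hW : Odd W.card) (hm : 4 * t + 40 ≤ W.card)
    (hk : inW x W = r * ((W.card : ℤ) - 1) - 2 * k) (hn : ∀ w ∈ W, 0 ≤ ends x r W w)
    (hin : ∀ Z : Finset V, Odd Z.card → 3 ≤ Z.card → Z.card < W.card → (Λ : ℤ) ≤ slk x r Z)
    (hΛ : 2 * k + 2 * K * (Fintype.card V + 1) < Λ) (h0 : 0 < μ)
    (hr1 : (t : ℤ) * μ * (Fintype.card V + 4 * t + 10) + 2 * t * K * Fintype.card V ≤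
      2 * (t - 1) * r)
    (hr2 : (6 * (t : ℤ) + 6) * μ + 2 * K * Fintype.card V + 2 * k + K < r)
    (hk16 : 2 * (k : ℤ) * t ≤ r) :
    Closable (heavy (inn x r W) K) := by
  have hcard : Fintype.card (Option {v : V // v ∈ W}) = W.card + 1 := by
    rw [Fintype.card_option, Fintype.card_coe]
  have hWn : W.card ≤ Fintype.card V := card_le_univ W
  have hsum : ∑ w ∈ W, ends x r W w = r + 2 * k := by
    have h1 := inn_dg_none x r W
    unfold ends
    rw [Finset.sum_sub_distrib, Finset.sum_const, nsmul_eq_mul]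
    have h2 : ∑ w ∈ W, din x W w = inW x W := rfl
    rw [h2, hk]
    ring
  refine inner_closableU (t := t) ht (z := none) (r := r) (k := k) (Λ := Λ)
    (G := (univ.filter (fun w : {v : V // v ∈ W} => t * ends x r W w ≤ r)).map
      Function.Embedding.some) ?_ ?_ (inn_isW hx hn) ?_ ?_ ?_ ?_ ?_ ?_ ?_ ?_ ?_
  · rw [hcard]
    exact hW.add_one
  · rw [hcard]
    omega
  · intro a ha
    cases a with
    | none => exact absurd rfl ha
    | some w => exact inn_dg_some x r W w
  · rw [inn_dg_none, hk]
    ring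
  · intro Z hZ hz h3 hc
    rw [hcard] at hc
    obtain ⟨Z', -, h4, h5⟩ := inn_cut hx (r := r) hz
    rw [h5]
    have h6 := hin Z' (by rw [h4]; exact hZ) (by rw [h4]; exact h3) (by rw [h4]; omega)
    linarith
  · rw [hcard]
    have h1 : 2 * K * (W.card + 1) ≤ 2 * K * (Fintype.card V + 1) :=
      Nat.mul_le_mul_left _ (by omega)
    omega
  · intro h
    rw [mem_map] at h
    obtain ⟨a, -, ha⟩ := h
    exact Option.some_ne_none _ ha
  · intro a ha b hb _
    rw [mem_map] at ha hb
    obtain ⟨u, hu, rfl⟩ := ha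
    obtain ⟨v, hv, rfl⟩ := hb
    have h1 := good_nbU hx h0 ht hμ hr1 (mem_filter.1 hu).2
    have h2 := good_nbU hx h0 ht hμ hr1 (mem_filter.1 hv).2
    have h3 := e4t_nb x r W K u
    have h4 := e4t_nb x r W K v
    rw [hcard]
    show W.card + 1 + 1 ≤ nb (heavy (inn x r W) K) (some u) + nb (heavy (inn x r W) K) (some v)
    omega
  · have h9 : (univ.filter (fun w : {v : V // v ∈ W} => t * ends x r W w ≤ r)).card =
        (W.filter (fun w => t * ends x r W w ≤ r)).card :=
      e4t_card W (fun w => t * ends x r W w ≤ r)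
    rw [hcard, card_map, h9]
    have h1 := bad_cardU hsum hn hk16
    have h2 := card_filter_add_card_filter_not (s := W) (fun w => t * ends x r W w ≤ r)
    have h3 : W.filter (fun w => ¬ t * ends x r W w ≤ r) =
        W.filter (fun w => r < t * ends x r W w) := by
      refine filter_congr fun w _ => ?_
      rw [not_le]
    rw [h3] at h2
    omega
  · intro a b ha hb h1 h2
    cases a with
    | none => exact absurd rfl ha
    | some u =>
      cases b with
      | none => exact absurd rfl hb
      | some v =>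
        rw [e4t_nbi x r W K _ fun o => (f5_mem_compl _ _ _).trans (not_congr mem_singleton)] at h1 h2
        have h3 := weak_uniqueU hx hμ hsum hn (by linarith [Int.natCast_nonneg K]) u.2 v.2 h1 h2
        rw [Subtype.ext h3]
  · intro a ha h1
    cases a with
    | none => exact absurd rfl ha
    | some u =>
      rw [e4t_nbi x r W K _ fun o => (f5_mem_compl _ _ _).trans (not_congr mem_singleton)] at h1
      rw [e4t_some_none]
      have h2 := weak_endsU hx (r := r) hμ h1
      have h3 : (0 : ℤ) ≤ k := Int.natCast_nonneg k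
      have h4 : (0 : ℤ) ≤ μ := Int.natCast_nonneg μ
      have h5 : (0 : ℤ) ≤ (K : ℤ) * Fintype.card V := by positivity
      have h6 : (0 : ℤ) ≤ (3 * t + 3) * (μ : ℤ) := by positivity
      linarith

end Pool.Agent.H44U
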