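import Pool.Agent.Lib.H44T.F6

/-!
# Chunk F1 (M): removing one matching with three ends and a matching outside

`σ` is a matching of the outside that avoids the (real) ends. Apply `triple` (`H44T/F5`): `x1`, and from `Peeled.mats` a list of length one, so a matching `τ` with `x = x1 + chi τ`. For `v ∉ W`, `v` no end: `τ v = v`: a pair `(v, u)` with `u ∉ W` is not changed
(`Peeled.out`), and for `u ∈ W`: `Bm x1 (r - 1) W u v = Bm x r W u v`, which is `x1 u v = x u v`. So the supports of `τ` and `σ` are disjoint: `τ' v := σ v` if `σ v ≠ v`, else `τ v`, an involution, `chi τ' = chi τ + chi σ` (off the diagonal, and both are zero on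
it). `x' := x1 - chi σ` (`≥ 0`: `1 ≤ x v (σ v) = x1 v (σ v)` for pairs outside). `inW`, `dg` in `W` and `Bm` of `x'` and `x1` agree.
`PeeledU`: the list `[τ']`; `osum`: `∑ c ∈ Wᶜ, x' v c = ∑ c ∈ Wᶜ, x v c - (1 if σ v ≠ v)`. Degrees outside: an end `v = c i ∉ W` has `x' (w i) v = x (w i) v - 1`; all other `w ∈ W`: no change.
-/

namespace Pool.Agent.H44U

open Finset Pool.Agent.H44O Pool.Agent.H44T
open scoped Classical

variable {V : Type*} [Fintype V]

/-- `x'` is obtained from `x` by removing `l` matchings. -/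
structure PeeledU (x x' : V → V → ℤ) (r : ℤ) (W : Finset V) (l : ℕ) : Prop where
  /-- the matchings -/
  mats : ∃ M : List (Equiv.Perm V), M.length = l ∧ (∀ τ ∈ M, ∀ v, τ (τ v) = v) ∧
    ∀ u v, x u v = x' u v + (M.map (fun τ => chi τ u v)).sum
  /-- the table of the ends -/
  tab : ∀ u c, Bm x' (r - l) W u c ≤ Bm x r W u c ∧ Bm x r W u c ≤ Bm x' (r - l) W u c + l
  /-- degrees outside -/
  osum : ∀ v, v ∉ W → ∑ c ∈ Wᶜ, x v c ≤ ∑ c ∈ Wᶜ, x' v c + l

theorem f1u_chi_comb {σ τ : Equiv.Perm V} (s1 : ∀ v, σ (σ v) = v) (tt : ∀ v, τ (τ v) = v)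
    (hst : ∀ v, σ v ≠ v → τ v = v) :
    ∃ τ' : Equiv.Perm V, (∀ v, τ' (τ' v) = v) ∧ ∀ u v, chi τ' u v = chi τ u v + chi σ u v := by
  let f : V → V := fun v => if σ v = v then τ v else σ v
  have hf1 : ∀ v, σ v = v → f v = τ v := fun v h => if_pos h
  have hf2 : ∀ v, σ v ≠ v → f v = σ v := fun v h => if_neg h
  have hinv : Function.Involutive f := by
    intro v
    by_cases h : σ v = v
    · rw [hf1 v h]
      by_cases h' : τ v = v
      · rw [h', hf1 v h, h']
      · have h3 : σ (τ v) = τ v := by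
          by_contra h4
          have h5 := hst _ h4
          rw [tt] at h5
          exact h' h5.symm
        rw [hf1 _ h3, tt]
    · have h3 : σ (σ v) ≠ σ v := by
        rw [s1]
        exact fun h4 => h h4.symm
      rw [hf2 v h, hf2 _ h3, s1]
  refine ⟨hinv.toPerm f, hinv, fun u v => ?_⟩
  have e : (hinv.toPerm f) u = f u := rfl
  unfold chi
  rw [e]
  by_cases h : σ u = u
  · rw [hf1 u h]
    have h3 : (if σ u = v ∧ u ≠ v then (1 : ℤ) else 0) = 0 := by
      rw [if_neg]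
      rintro ⟨h4, h5⟩
      exact h5 (h.symm.trans h4)
    rw [h3, add_zero]
  · rw [hf2 u h]
    have h3 : (if τ u = v ∧ u ≠ v then (1 : ℤ) else 0) = 0 := by
      rw [if_neg]
      rintro ⟨h4, h5⟩
      exact h5 ((hst u h).symm.trans h4)
    rw [h3, zero_add]

theorem tripleU {x : V → V → ℤ} {r : ℤ} {W : Finset V} {k : ℕ} {H : SimpleGraph V}
    (hs : St x r W (k + 1) H) {w c : Fin 3 → V} (iw : Function.Injective w)
    (ic : Function.Injective c) (hB : ∀ i, 1 ≤ Bm x r W (w i) (c i)) {ρ : Equiv.Perm V}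
    (h1 : ∀ v, ρ (ρ v) = v) (h2 : ∀ v, ρ v ≠ v ↔ v ∈ W ∧ ∀ i, v ≠ w i)
    (h3 : ∀ v ∈ W, (∀ i, v ≠ w i) → H.Adj v (ρ v)) {σ : Equiv.Perm V} (s1 : ∀ v, σ (σ v) = v)
    (s2 : ∀ v, σ v ≠ v → v ∉ W ∧ (∀ i, v ≠ c i) ∧ 1 ≤ x v (σ v)) :
    ∃ x', St x' (r - 1) W k H ∧ PeeledU x x' r W 1 ∧
      (∀ u v, Bm x' (r - 1) W u v = Bm x r W u v - if ∃ i, u = w i ∧ v = c i then 1 else 0) ∧
      (∀ u v, u ∉ W → v ∉ W → x' u v = x u v - chi σ u v) ∧
      ∀ v, v ∉ W → dg x' v = dg x v - if (∃ i, v = c i) ∨ σ v ≠ v then 1 else 0 := by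
  obtain ⟨x1, hs1, hp, hBm⟩ := triple hs iw ic hB h1 h2 h3
  obtain ⟨M, hMl, hMinv, hM⟩ := hp.mats
  obtain ⟨τ, rfl⟩ := List.length_eq_one_iff.1 hMl
  have tt : ∀ v, τ (τ v) = v := hMinv τ (List.mem_singleton_self τ)
  have hx : ∀ u v, x u v = x1 u v + chi τ u v := by
    intro u v
    rw [hM u v]
    simp
  have hwW : ∀ i, w i ∈ W := by
    intro i
    by_contra h
    have := hB i
    rw [Bm, if_neg h] at this
    omega
  have hout0 : ∀ u v, u ∉ W → v ∉ W → x1 u v = x u v := hp.out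
  -- `τ` fixes the vertices outside that are no ends
  have htau0 : ∀ v, v ∉ W → (∀ i, v ≠ c i) → τ v = v := by
    intro v hv hi
    by_contra h
    have hc1 : chi τ v (τ v) = 1 := by
      rw [chi, if_pos ⟨rfl, fun h' => h h'.symm⟩]
    by_cases hW : τ v ∈ W
    · have e := hBm (τ v) v
      rw [Bm, Bm, if_pos hW, if_pos hW, if_neg hv, if_neg hv, if_neg, sub_zero] at e
      · have e2 := hx (τ v) v
        have e3 := chi_symm tt (τ v) v
        omega
      · rintro ⟨i, _, h5⟩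
        exact hi i h5
    · have e2 := hx v (τ v)
      have e3 := hout0 v (τ v) hv hW
      omega
  have htau1 : ∀ i, c i ∉ W → τ (c i) ≠ c i := by
    intro i hi h
    have e := hBm (w i) (c i)
    rw [Bm, Bm, if_pos (hwW i), if_pos (hwW i), if_neg hi, if_neg hi, if_pos ⟨i, rfl, rfl⟩] at e
    have e2 := hx (w i) (c i)
    have e3 := chi_symm tt (w i) (c i)
    have e4 : chi τ (c i) (w i) = 0 := by
      rw [chi, if_neg]
      rintro ⟨h4, h5⟩
      exact h5 (h.symm.trans h4)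
    omega
  have hst : ∀ v, σ v ≠ v → τ v = v := fun v h => htau0 v (s2 v h).1 (s2 v h).2.1
  have hσW : ∀ v ∈ W, σ v = v := by
    intro v hv
    by_contra h
    exact (s2 v h).1 hv
  have hσo : ∀ v, σ v ≠ v → σ v ∉ W := by
    intro v h
    have h4 : σ (σ v) ≠ σ v := by
      rw [s1]
      exact fun h5 => h h5.symm
    exact (s2 _ h4).1
  have hchi0 : ∀ u v, u ∈ W → chi σ u v = 0 := by
    intro u v hu
    rw [chi, if_neg]
    rintro ⟨h4, h5⟩
    exact h5 ((hσW u hu).symm.trans h4)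
  have hchi1 : ∀ u v, chi σ u v = 0 ∨ (chi σ u v = 1 ∧ x1 u v = x u v ∧ 1 ≤ x u v) := by
    intro u v
    by_cases h : σ u = v ∧ u ≠ v
    · right
      obtain ⟨h4, h5⟩ := h
      subst h4
      have h6 : σ u ≠ u := fun h7 => h5 h7.symm
      refine ⟨?_, hout0 _ _ (s2 u h6).1 (hσo u h6), (s2 u h6).2.2⟩
      rw [chi, if_pos ⟨rfl, h5⟩]
    · left
      rw [chi, if_neg h]
  obtain ⟨τ', tt', hτ'⟩ := f1u_chi_comb s1 tt hst
  obtain ⟨x', hx'⟩ : ∃ x' : V → V → ℤ, x' = fun u v => x1 u v - chi σ u v := ⟨_, rfl⟩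
  have hx'v : ∀ u v, x' u v = x1 u v - chi σ u v := fun u v => by rw [hx']
  have hdgσ : ∀ v ∈ W, dg x' v = dg x1 v := by
    intro v hv
    rw [hx', f5_dg_sub, f5_dg, if_pos (hσW v hv), sub_zero]
  have hB1 : ∀ u v, Bm x' (r - 1) W u v = Bm x1 (r - 1) W u v := by
    intro u v
    by_cases hu : u ∈ W
    · rw [Bm, Bm, if_pos hu, if_pos hu, hdgσ u hu, hx'v u v, hchi0 u v hu, sub_zero]
    · rw [Bm, Bm, if_neg hu, if_neg hu]
  have hB2 : ∀ u v, Bm x' (r - 1) W u v =
      Bm x r W u v - if ∃ i, u = w i ∧ v = c i then 1 else 0 := fun u v =>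
    (hB1 u v).trans (hBm u v)
  refine ⟨x', ⟨⟨?_, ?_, ?_⟩, ?_, ?_, ?_⟩, ⟨⟨[τ'], rfl, ?_, ?_⟩, ?_, ?_⟩, hB2, ?_, ?_⟩
  · intro u v
    rw [hx'v, hx'v, hs1.isW.symm u v, chi_symm s1 u v]
  · intro v
    rw [hx'v, hs1.isW.diag, chi_diag, sub_zero]
  · intro u v
    rw [hx'v]
    rcases hchi1 u v with h | ⟨h, h4, h5⟩
    · rw [h, sub_zero]
      exact hs1.isW.nonneg u v
    · omega
  · intro v hv
    rw [hdgσ v hv]
    exact hs1.degW v hv
  · have e : inW (chi σ) W = 0 :=
      Finset.sum_eq_zero fun u hu => Finset.sum_eq_zero fun v _ => hchi0 u v hu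
    rw [hx', f5_inW_sub, e, sub_zero, hs1.ins]
  · intro u v h
    rw [hx'v]
    rcases hchi1 u v with h4 | ⟨h4, h5, _⟩
    · rw [h4, sub_zero]
      exact hs1.hv u v h
    · have h6 := hs.hv u v h
      push_cast at h6
      omega
  · intro ρ' hρ' v
    rw [List.mem_singleton] at hρ'
    rw [hρ']
    exact tt' v
  · intro u v
    rw [hx u v, hx'v u v]
    simp only [List.map_cons, List.map_nil, List.sum_cons, List.sum_nil, add_zero]
    rw [hτ' u v]
    ring
  · intro u v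
    have e := hB2 u v
    have e' : (r - ((1 : ℕ) : ℤ)) = r - 1 := by norm_num
    rw [e', e]
    split_ifs
    · constructor
      · omega
      · push_cast
        omega
    · constructor
      · omega
      · push_cast
        omega
  · intro v hv
    have e1 : ∑ c ∈ Wᶜ, x v c = ∑ c ∈ Wᶜ, x' v c + ∑ c ∈ Wᶜ, chi σ v c := by
      rw [← Finset.sum_add_distrib]
      refine Finset.sum_congr rfl fun u hu => ?_
      rw [hx'v, hout0 v u hv (Finset.mem_compl.1 hu)]
      ring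
    have e2 : ∑ c ∈ Wᶜ, chi σ v c ≤ dg (chi σ) v := by
      unfold dg
      exact Finset.sum_le_sum_of_subset_of_nonneg (Finset.subset_univ _)
        fun u _ _ => chi_nonneg σ v u
    have e3 : dg (chi σ) v ≤ 1 := by
      rw [f5_dg]
      split_ifs <;> norm_num
    rw [e1]
    push_cast
    omega
  · intro u v hu hv
    rw [hx'v, hout0 u v hu hv]
  · intro v hv
    have e1 : dg x v = dg x1 v + dg (chi τ) v := by
      unfold dg
      rw [← Finset.sum_add_distrib]
      exact Finset.sum_congr rfl fun u _ => hx v u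
    have e2 : dg x' v = dg x1 v - dg (chi σ) v := by
      rw [hx', f5_dg_sub]
    rw [e2, e1, f5_dg, f5_dg]
    by_cases hi : ∃ i, v = c i
    · obtain ⟨i, rfl⟩ := hi
      have h4 : σ (c i) = c i := by
        by_contra h5
        exact (s2 _ h5).2.1 i rfl
      rw [if_pos h4, if_neg (htau1 i hv), if_pos (Or.inl ⟨i, rfl⟩)]
      ring
    · have h4 : τ v = v := htau0 v hv fun i h5 => hi ⟨i, h5⟩
      rw [if_pos h4]
      by_cases h5 : σ v = v
      · rw [if_pos h5, if_neg]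
        · ring
        · rintro (h6 | h6)
          · exact hi h6
          · exact h6 h5
      · rw [if_neg h5, if_pos (Or.inr h5)]
        ring

theorem peeledU_refl (x : V → V → ℤ) (r : ℤ) (W : Finset V) : PeeledU x x r W 0 := by
  refine ⟨⟨[], rfl, ?_, ?_⟩, ?_, ?_⟩
  · intro τ hτ
    simp at hτ
  · intro u v
    simp
  · intro u c
    have h : r - ((0 : ℕ) : ℤ) = r := by simp
    rw [h]
    exact ⟨le_rfl, by simp⟩
  · intro v _
    simp

theorem peeledU_trans {x x' x'' : V → V → ℤ} {r : ℤ} {W : Finset V} {l l' : ℕ}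
    (h : PeeledU x x' r W l) (h' : PeeledU x' x'' (r - l) W l') : PeeledU x x'' r W (l + l') := by
  obtain ⟨⟨M, hl, hinv, hM⟩, htab, hsum⟩ := h
  obtain ⟨⟨M', hl', hinv', hM'⟩, htab', hsum'⟩ := h'
  refine ⟨⟨M ++ M', ?_, ?_, ?_⟩, ?_, ?_⟩
  · rw [List.length_append, hl, hl']
  · intro τ hτ
    rcases List.mem_append.1 hτ with h | h
    · exact hinv τ h
    · exact hinv' τ h
  · intro u v
    rw [List.map_append, List.sum_append, hM u v, hM' u v]
    ring
  · intro u c
    have h1 : r - ((l + l' : ℕ) : ℤ) = r - (l : ℤ) - (l' : ℤ) := by push_cast; ring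
    have h2 := htab u c
    have h3 := htab' u c
    rw [h1]
    push_cast
    constructor
    · exact h3.1.trans h2.1
    · linarith [h2.2, h3.2]
  · intro v hv
    have h2 := hsum v hv
    have h3 := hsum' v hv
    push_cast
    linarith

theorem peeledU_le {x x' : V → V → ℤ} {r : ℤ} {W : Finset V} {l : ℕ} (h : PeeledU x x' r W l)
    (u v : V) : x' u v ≤ x u v := by
  obtain ⟨M, -, -, hM⟩ := h.mats
  rw [hM u v]
  have h1 : 0 ≤ (M.map (fun τ => chi τ u v)).sum := by
    apply List.sum_nonneg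
    intro z hz
    obtain ⟨τ, -, rfl⟩ := List.mem_map.mp hz
    exact chi_nonneg τ u v
  linarith

end Pool.Agent.H44U
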