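import Pool.Agent.Lib.H44T.TDefs

/-!
# Chunk F2 (M): a matching outside `W` that covers given vertices

Induction on the set `P` (with a bound `|P| ≤ f`), starting with the identity; statement for the induction: `σ` moves at most `2 |P|` vertices. Step: `v ∈ P` new; if `v ∈ E` or `σ v ≠ v` nothing to do. Otherwise choose `u ∈ Wᶜ`, `u ≠ v`, `u ∉ E`, `σ u = u`, `1 ≤ x v u`: it exists because
`∑ c ∈ Wᶜ, x v c ≥ (2 f + 4) μ + 1`, and the forbidden `c` (at most `3 + 2 (f - 1) + 1`) contribute at most `(2 f + 2) μ` (`x v v = 0`). New `σ`: `σ * swap v u` (disjoint).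
-/

namespace Pool.Agent.H44U

open Finset Pool.Agent.H44O Pool.Agent.H44T
open scoped Classical

variable {V : Type*} [Fintype V]

theorem F2_step {x : V → V → ℤ} (hx : IsW x) {W : Finset V} {μ f k : ℕ} (hμ : ∀ u v, x u v ≤ μ)
    {E : Finset V} (hE : E.card ≤ 3) (hk : k + 1 ≤ f) {v : V} (hvW : v ∉ W)
    (hd : (2 * (f : ℤ) + 4) * μ + 1 ≤ ∑ c ∈ Wᶜ, x v c)
    {σ : Equiv.Perm V} (h1 : ∀ v, σ (σ v) = v)
    (h2 : ∀ v, σ v ≠ v → v ∉ W ∧ v ∉ E ∧ 1 ≤ x v (σ v))
    (hM : (univ.filter (fun w => σ w ≠ w)).card ≤ 2 * k) (hvE : v ∉ E) (hv : σ v = v) :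
    ∃ σ' : Equiv.Perm V, (∀ v, σ' (σ' v) = v) ∧
      (∀ v, σ' v ≠ v → v ∉ W ∧ v ∉ E ∧ 1 ≤ x v (σ' v)) ∧
      (univ.filter (fun w => σ' w ≠ w)).card ≤ 2 * (k + 1) ∧ σ' v ≠ v ∧
      ∀ w, σ w ≠ w → σ' w ≠ w := by
  have hex : ∃ u, u ∉ W ∧ u ≠ v ∧ u ∉ E ∧ σ u = u ∧ 1 ≤ x v u := by
    by_contra hno
    push Not at hno
    have hle : ∑ c ∈ Wᶜ, x v c ≤ ∑ c ∈ Wᶜ, (if c ∈ E ∪ univ.filter (fun w => σ w ≠ w) then
        (μ : ℤ) else 0) := by
      refine sum_le_sum fun c hc => ?_
      have hcW : c ∉ W := by simpa using hc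
      split_ifs with hcE
      · exact hμ v c
      · rw [mem_union, mem_filter] at hcE
        push Not at hcE
        have hcE1 : c ∉ E := hcE.1
        have hcE2 : σ c = c := hcE.2 (mem_univ c)
        by_cases hcv : c = v
        · rw [hcv, hx.diag]
        · have := hno c hcW hcv hcE1 hcE2
          omega
    have hle2 : ∑ c ∈ Wᶜ, (if c ∈ E ∪ univ.filter (fun w => σ w ≠ w) then (μ : ℤ) else 0)
        ≤ (3 + 2 * (k : ℤ)) * μ := by
      rw [← sum_filter, sum_const, nsmul_eq_mul]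
      have hc1 : (Wᶜ.filter (fun c => c ∈ E ∪ univ.filter (fun w => σ w ≠ w))).card
          ≤ 3 + 2 * k := by
        refine (card_le_card (t := E ∪ univ.filter (fun w => σ w ≠ w)) ?_).trans ?_
        · intro c hc
          exact (mem_filter.1 hc).2
        · refine (card_union_le _ _).trans ?_
          omega
      have hc2 : ((Wᶜ.filter (fun c => c ∈ E ∪ univ.filter (fun w => σ w ≠ w))).card : ℤ)
          ≤ 3 + 2 * (k : ℤ) := by exact_mod_cast hc1
      exact mul_le_mul_of_nonneg_right hc2 (by positivity)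
    have hle3 : (3 + 2 * (k : ℤ)) * μ ≤ (2 * (f : ℤ) + 4) * μ := by
      have : (3 + 2 * (k : ℤ)) ≤ 2 * (f : ℤ) + 4 := by
        have : (k : ℤ) + 1 ≤ f := by exact_mod_cast hk
        linarith
      exact mul_le_mul_of_nonneg_right this (by positivity)
    linarith
  obtain ⟨u, huW, huv, huE, hu, hxu⟩ := hex
  have hsv : (σ * Equiv.swap v u) v = u := by
    rw [Equiv.Perm.mul_apply, Equiv.swap_apply_left, hu]
  have hsu : (σ * Equiv.swap v u) u = v := by
    rw [Equiv.Perm.mul_apply, Equiv.swap_apply_right, hv]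
  have hsw : ∀ w, w ≠ v → w ≠ u → (σ * Equiv.swap v u) w = σ w := by
    intro w hwv hwu
    rw [Equiv.Perm.mul_apply, Equiv.swap_apply_of_ne_of_ne hwv hwu]
  refine ⟨σ * Equiv.swap v u, ?_, ?_, ?_, ?_, ?_⟩
  · intro w
    by_cases hwv : w = v
    · rw [hwv, hsv, hsu]
    · by_cases hwu : w = u
      · rw [hwu, hsu, hsv]
      · rw [hsw w hwv hwu]
        have e1 : σ w ≠ v := by
          intro h
          apply hwv
          rw [← h1 w, h, hv]
        have e2 : σ w ≠ u := by
          intro h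
          apply hwu
          rw [← h1 w, h, hu]
        rw [hsw _ e1 e2, h1]
  · intro w hw
    by_cases hwv : w = v
    · subst hwv
      refine ⟨hvW, hvE, ?_⟩
      rw [hsv]
      exact hxu
    · by_cases hwu : w = u
      · subst hwu
        refine ⟨huW, huE, ?_⟩
        rw [hsu, hx.symm]
        exact hxu
      · rw [hsw w hwv hwu] at hw ⊢
        exact h2 w hw
  · have hsub : univ.filter (fun w => (σ * Equiv.swap v u) w ≠ w)
        ⊆ univ.filter (fun w => σ w ≠ w) ∪ {v, u} := by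
      intro w hw
      rw [mem_filter] at hw
      rw [mem_union, mem_filter, mem_insert, mem_singleton]
      by_cases hwv : w = v
      · right; left; exact hwv
      · by_cases hwu : w = u
        · right; right; exact hwu
        · left
          rw [hsw w hwv hwu] at hw
          exact hw
    refine (card_le_card hsub).trans ((card_union_le _ _).trans ?_)
    have : ({v, u} : Finset V).card ≤ 2 := card_le_two
    omega
  · rw [hsv]
    exact huv
  · intro w hw
    have hwv : w ≠ v := by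
      rintro rfl
      exact hw hv
    have hwu : w ≠ u := by
      rintro rfl
      exact hw hu
    rw [hsw w hwv hwu]
    exact hw

theorem cover {x : V → V → ℤ} (hx : IsW x) {W : Finset V} {μ f : ℕ} (hμ : ∀ u v, x u v ≤ μ)
    {P E : Finset V} (hP : ∀ v ∈ P, v ∉ W) (hPc : P.card ≤ f) (hE : E.card ≤ 3)
    (hd : ∀ v ∈ P, (2 * (f : ℤ) + 4) * μ + 1 ≤ ∑ c ∈ Wᶜ, x v c) :
    ∃ σ : Equiv.Perm V, (∀ v, σ (σ v) = v) ∧
      (∀ v, σ v ≠ v → v ∉ W ∧ v ∉ E ∧ 1 ≤ x v (σ v)) ∧ ∀ v ∈ P, v ∉ E → σ v ≠ v := by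
  have key : ∀ Q : Finset V, Q ⊆ P → ∃ σ : Equiv.Perm V, (∀ v, σ (σ v) = v) ∧
      (∀ v, σ v ≠ v → v ∉ W ∧ v ∉ E ∧ 1 ≤ x v (σ v)) ∧
      (univ.filter (fun w => σ w ≠ w)).card ≤ 2 * Q.card ∧ ∀ v ∈ Q, v ∉ E → σ v ≠ v := by
    intro Q
    induction Q using Finset.induction_on with
    | empty =>
      intro _
      refine ⟨1, fun v => rfl, ?_, ?_, ?_⟩
      · intro v hv
        exact absurd rfl hv
      · simp
      · simp
    | insert v Q hvQ ih =>
      intro hQ
      obtain ⟨σ, h1, h2, h3, h4⟩ := ih ((subset_insert _ _).trans hQ)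
      have hvP : v ∈ P := hQ (mem_insert_self _ _)
      have hcard : (insert v Q).card = Q.card + 1 := card_insert_of_notMem hvQ
      have hkf : Q.card + 1 ≤ f := by
        rw [← hcard]
        exact (card_le_card hQ).trans hPc
      by_cases hvE : v ∈ E
      · refine ⟨σ, h1, h2, by omega, ?_⟩
        intro w hw hwE
        rcases mem_insert.1 hw with rfl | hw
        · exact absurd hvE hwE
        · exact h4 w hw hwE
      · by_cases hv : σ v = v
        · obtain ⟨σ', g1, g2, g3, g4, g5⟩ := F2_step hx hμ hE hkf (hP v hvP) (hd v hvP) h1 h2 h3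
            hvE hv
          refine ⟨σ', g1, g2, by omega, ?_⟩
          intro w hw hwE
          rcases mem_insert.1 hw with rfl | hw
          · exact g4
          · exact g5 w (h4 w hw hwE)
        · refine ⟨σ, h1, h2, by omega, ?_⟩
          intro w hw hwE
          rcases mem_insert.1 hw with rfl | hw
          · exact hv
          · exact h4 w hw hwE
  obtain ⟨σ, h1, h2, -, h4⟩ := key P (Subset.refl P)
  exact ⟨σ, h1, h2, h4⟩

end Pool.Agent.H44U
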