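import Pool.Agent.Lib.H44U.F1
import Pool.Agent.Lib.H44U.F2

/-!
# Chunk F3 (M): one step

`Inv x r W k f μ X`: the outer degrees are at most `r`, there are at most `f` outer vertices with degree at least `r - k`, and those not in `X` have large degree inside the outside.
`inv_step`: `P = {v ∉ W | dg x v = r, v ∉ X}` (contained in the set of `full` for `k + 1`), `E = {c i}`. `cover` gives `σ` (`hd` from `out`: `(2 f + 4) μ + (k + 1)`), `tripleU` gives `x'`. New invariant for `r - 1`, `k`: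
* `deg`: `v ∉ W`. `dg x v ≤ r - 1`: fine (`dg x' ≤ dg x`). `dg x v = r`: `v ∈ X`: `v` is some `c i` (`hX`); `v ∉ X`: `v` is some `c i` or `σ v ≠ v`. In both cases `dg x' v = r - 1`.
* `full`: `r - 1 ≤ dg x' v + k` gives `r ≤ dg x v + (k + 1)`. * `out`: `∑ c ∈ Wᶜ, x' v c ≥ ∑ c ∈ Wᶜ, x v c - 1` (`osum`). * `le`: `x' ≤ x`.
The last statement: `v ∈ X`, `v ∉ W` is an end, so not moved by `σ` (`E`), and `chi σ v u = 0 = chi σ u v`.
-/

namespace Pool.Agent.H44U

open Finset Pool.Agent.H44O Pool.Agent.H44T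
open scoped Classical

variable {V : Type*} [Fintype V]

/-- The invariants for the outer vertices. -/
structure Inv (x : V → V → ℤ) (r : ℤ) (W : Finset V) (k f μ : ℕ) (X : Finset V) : Prop where
  /-- multiplicity -/
  le : ∀ u v, x u v ≤ μ
  /-- degrees -/
  deg : ∀ v, v ∉ W → dg x v ≤ r
  /-- few almost full vertices -/
  full : (univ.filter (fun v => v ∉ W ∧ r ≤ dg x v + k)).card ≤ f
  /-- they have many outer neighbours -/
  out : ∀ v, v ∉ W → v ∉ X → r ≤ dg x v + k → (2 * (f : ℤ) + 4) * μ + k ≤ ∑ c ∈ Wᶜ, x v c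

theorem inv_step {x : V → V → ℤ} {r : ℤ} {W : Finset V} {k f μ : ℕ} {H : SimpleGraph V}
    {X : Finset V} (hs : St x r W (k + 1) H) (hi : Inv x r W (k + 1) f μ X) {w c : Fin 3 → V}
    (iw : Function.Injective w) (ic : Function.Injective c)
    (hB : ∀ i, 1 ≤ Bm x r W (w i) (c i)) (hX : ∀ v ∈ X, ∃ i, v = c i) {ρ : Equiv.Perm V}
    (h1 : ∀ v, ρ (ρ v) = v) (h2 : ∀ v, ρ v ≠ v ↔ v ∈ W ∧ ∀ i, v ≠ w i)
    (h3 : ∀ v ∈ W, (∀ i, v ≠ w i) → H.Adj v (ρ v)) :
    ∃ x', St x' (r - 1) W k H ∧ Inv x' (r - 1) W k f μ X ∧ PeeledU x x' r W 1 ∧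
      (∀ u v, Bm x' (r - 1) W u v = Bm x r W u v - if ∃ i, u = w i ∧ v = c i then 1 else 0) ∧
      ∀ u v, u ∉ W → v ∉ W → u ∈ X → x' u v = x u v := by
  have hPc : (univ.filter (fun v => v ∉ W ∧ dg x v = r ∧ v ∉ X)).card ≤ f := by
    refine (card_le_card ?_).trans hi.full
    intro v hv
    rw [mem_filter] at hv ⊢
    refine ⟨mem_univ _, hv.2.1, ?_⟩
    rw [hv.2.2.1]
    have : (0 : ℤ) ≤ ((k + 1 : ℕ) : ℤ) := by positivity
    linarith
  have hE : (univ.image c).card ≤ 3 := card_image_le.trans (by simp)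
  have hd : ∀ v ∈ univ.filter (fun v => v ∉ W ∧ dg x v = r ∧ v ∉ X),
      (2 * (f : ℤ) + 4) * μ + 1 ≤ ∑ c ∈ Wᶜ, x v c := by
    intro v hv
    rw [mem_filter] at hv
    have h0 : (0 : ℤ) ≤ (k : ℤ) := by positivity
    have h4 := hi.out v hv.2.1 hv.2.2.2 (by
      rw [hv.2.2.1]
      push_cast
      linarith)
    push_cast at h4
    linarith
  obtain ⟨σ, s1, s2, s3⟩ := cover hs.isW hi.le (P := univ.filter (fun v => v ∉ W ∧ dg x v = r ∧ v ∉ X))
    (E := univ.image c) (fun v hv => (mem_filter.1 hv).2.1) hPc hE hd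
  have hnE : ∀ v, v ∉ univ.image c ↔ ∀ i, v ≠ c i := by
    intro v
    rw [mem_image]
    constructor
    · intro h i hi'
      exact h ⟨i, mem_univ _, hi'.symm⟩
    · rintro h ⟨i, -, hi'⟩
      exact h i hi'.symm
  obtain ⟨x', hs', hp, hBm, hout, hdg⟩ := tripleU hs iw ic hB h1 h2 h3 s1 fun v hv =>
    ⟨(s2 v hv).1, (hnE v).1 (s2 v hv).2.1, (s2 v hv).2.2⟩
  have hle : ∀ v, v ∉ W → dg x' v ≤ dg x v := by
    intro v hv
    rw [hdg v hv]
    split_ifs <;> omega
  refine ⟨x', hs', ⟨?_, ?_, ?_, ?_⟩, hp, hBm, ?_⟩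
  · intro u v
    exact (peeledU_le hp u v).trans (hi.le u v)
  · intro v hv
    rw [hdg v hv]
    have h4 := hi.deg v hv
    by_cases h5 : (∃ i, v = c i) ∨ σ v ≠ v
    · rw [if_pos h5]
      linarith
    · rw [if_neg h5, sub_zero]
      rw [not_or] at h5
      have h6 : dg x v ≠ r := by
        intro h7
        by_cases h8 : v ∈ X
        · exact h5.1 (hX v h8)
        · refine h5.2 (s3 v (mem_filter.2 ⟨mem_univ _, hv, h7, h8⟩) ((hnE v).2 fun i h9 => h5.1 ⟨i, h9⟩))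
      omega
  · refine (card_le_card ?_).trans hi.full
    intro v hv
    rw [mem_filter] at hv ⊢
    refine ⟨mem_univ _, hv.2.1, ?_⟩
    have h4 := hle v hv.2.1
    have h5 := hv.2.2
    push_cast
    linarith
  · intro v hv hvX h4
    have h5 := hle v hv
    have h6 := hi.out v hv hvX (by
      push_cast
      linarith)
    have h7 := hp.osum v hv
    push_cast at h6 h7
    linarith
  · intro u v hu hv huX
    obtain ⟨i, rfl⟩ := hX u huX
    rw [hout _ _ hu hv]
    have h4 : σ (c i) = c i := by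
      by_contra h5
      exact (s2 _ h5).2.1 (mem_image.2 ⟨i, mem_univ _, rfl⟩)
    have h5 : chi σ (c i) v = 0 := by
      rw [chi, if_neg]
      rintro ⟨h6, h7⟩
      exact h7 (h4.symm.trans h6)
    rw [h5, sub_zero]

end Pool.Agent.H44U
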