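import Pool.Agent.Lib.H44T.F7
import Pool.Agent.Lib.H44U.F3

/-!
# Chunk F7 (S/M): peeling without dominant lines

Copy the proof of `peel_none` in `H44T/F7` with `inv_step` (`X = ∅`) instead of `triple`, and `peeledU_refl`, `peeledU_trans`. (Auxiliary lemmas of `H44T/F7` can be cited.) The last conclusion is `Inv.deg` at the end.
-/

namespace Pool.Agent.H44U

open Finset Pool.Agent.H44O Pool.Agent.H44T
open scoped Classical

variable {V : Type*} [Fintype V]

theorem f7_mainU {W : Finset V} {H : SimpleGraph V}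
    (hM : ∀ F : Finset V, F ⊆ W → F.card = 3 →
      ∃ ρ : Equiv.Perm V, (∀ v, ρ (ρ v) = v) ∧ (∀ v, ρ v ≠ v ↔ v ∈ W \ F) ∧
        ∀ v ∈ W \ F, H.Adj v (ρ v)) {f μ : ℕ} {q : ℤ} (hq0 : 0 ≤ q) (k : ℕ) :
    ∀ {x : V → V → ℤ} {r : ℤ} (_ : St x r W k H) (_ : Inv x r W k f μ ∅) (_ : q + k ≤ r)
    (_ : ∀ w ∈ W, ∀ w' ∈ W, w ≠ w' → ends x r W w + ends x r W w' ≤ q)
    (_ : ∀ w ∈ W, ends x r W w ≤ q)
    (_ : ∀ c, c ∉ W → ∀ c', c' ∉ W → din x W c + din x W c' ≤ q)
    (_ : ∀ w ∈ W, ∀ c, c ∉ W → ends x r W w + din x W c ≤ q),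
    ∃ x', St x' (r - k) W 0 H ∧ PeeledU x x' r W k ∧ ∀ v, v ∉ W → dg x' v ≤ r - k := by
  induction k with
  | zero =>
    intro x r hs hi hq hrr hr1 hcc hrc
    refine ⟨x, ?_, peeledU_refl x r W, fun v hv => ?_⟩
    · simpa using hs
    · simpa using hi.deg v hv
  | succ k ih =>
    intro x r hs hi hq hrr hr1 hcc hrc
    have htot : ∑ w, ∑ c, Bm x r W w c = r + 2 * ((k + 1 : ℕ) : ℤ) := Bm_total hs.ins
    obtain ⟨a1, a2, a3, b1, b2, b3, n1, n2, n3, m1, m2, m3, t1, t2, t3⟩ :=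
      f7_konig (t := r + 2 * ((k + 1 : ℕ) : ℤ)) hs.isW hs.degW hq0 (by push_cast at hq ⊢; omega)
        htot hrr hr1 hcc hrc
    have hmem : ∀ u c, 1 ≤ Bm x r W u c → u ∈ W := by
      intro u c h
      by_contra hu
      unfold Bm at h
      rw [if_neg hu] at h
      omega
    have e1 := hmem _ _ t1
    have e2 := hmem _ _ t2
    have e3 := hmem _ _ t3
    have hF : ({a1, a2, a3} : Finset V) ⊆ W := by
      intro v hv
      simp only [Finset.mem_insert, Finset.mem_singleton] at hv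
      rcases hv with rfl | rfl | rfl
      · exact e1
      · exact e2
      · exact e3
    have hF3 : ({a1, a2, a3} : Finset V).card = 3 := Finset.card_eq_three.2
      ⟨a1, a2, a3, n1, n2, n3, rfl⟩
    obtain ⟨ρ, g1, g2, g3⟩ := hM _ hF hF3
    have hiff : ∀ v, v ∈ W \ ({a1, a2, a3} : Finset V) ↔
        v ∈ W ∧ ∀ i : Fin 3, v ≠ (![a1, a2, a3] : Fin 3 → V) i := by
      intro v
      rw [Finset.mem_sdiff, Fin.forall_fin_succ, Fin.forall_fin_succ, Fin.forall_fin_succ]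
      simp [not_or]
    have inj3 : ∀ {a b c : V}, a ≠ b → a ≠ c → b ≠ c →
        Function.Injective (![a, b, c] : Fin 3 → V) := by
      intro a b c h1 h2 h3 i j hij
      fin_cases i <;> fin_cases j <;> simp at hij ⊢ <;> first
        | exact absurd hij h1
        | exact absurd hij h2
        | exact absurd hij h3
        | exact absurd hij.symm h1
        | exact absurd hij.symm h2
        | exact absurd hij.symm h3
    obtain ⟨x', s1, s4, s2, s3, -⟩ := inv_step (W := W) (H := H) (k := k) hs hi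
      (w := ![a1, a2, a3]) (c := ![b1, b2, b3]) (inj3 n1 n2 n3) (inj3 m1 m2 m3)
      (by intro i; fin_cases i <;> simpa) (fun v hv => absurd hv (Finset.notMem_empty v)) g1
      (fun v => (g2 v).trans (hiff v)) (fun v hv hi => g3 v ((hiff v).2 ⟨hv, hi⟩))
    have hle : ∀ u c, Bm x' (r - 1) W u c ≤ Bm x r W u c := by
      intro u c
      rw [s3]
      split_ifs <;> omega
    have hends : ∀ w ∈ W, ends x' (r - 1) W w ≤ ends x r W w := by
      intro w hw
      rw [← Bm_row x' (r - 1) hw, ← Bm_row x r hw]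
      exact Finset.sum_le_sum fun c _ => hle w c
    have hdin : ∀ c, c ∉ W → din x' W c ≤ din x W c := by
      intro c hc
      rw [← Bm_col s1.isW (r - 1) hc, ← Bm_col hs.isW r hc]
      exact Finset.sum_le_sum fun u _ => hle u c
    obtain ⟨x'', u1, u2, u3⟩ := ih (x := x') (r := r - 1) s1 s4 (by push_cast at hq; omega)
      (fun w hw w' hw' hne => by
        have := hrr w hw w' hw' hne; have := hends w hw; have := hends w' hw'; omega)
      (fun w hw => (hends w hw).trans (hr1 w hw))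
      (fun c hc c' hc' => by
        have := hcc c hc c' hc'; have := hdin c hc; have := hdin c' hc'; omega)
      (fun w hw c hc => by
        have := hrc w hw c hc; have := hends w hw; have := hdin c hc; omega)
    have hr' : r - ((1 : ℕ) : ℤ) = r - 1 := by norm_num
    have h7 := peeledU_trans s2 (by rw [hr']; exact u2)
    have h8 : r - ((k + 1 : ℕ) : ℤ) = r - 1 - (k : ℤ) := by push_cast; ring
    refine ⟨x'', ?_, ?_, ?_⟩
    · rw [h8]; exact u1
    · rw [Nat.add_comm] at h7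
      exact h7
    · rw [h8]; exact u3

theorem peel_noneU {W : Finset V} {H : SimpleGraph V}
    (hM : ∀ F : Finset V, F ⊆ W → F.card = 3 →
      ∃ ρ : Equiv.Perm V, (∀ v, ρ (ρ v) = v) ∧ (∀ v, ρ v ≠ v ↔ v ∈ W \ F) ∧
        ∀ v ∈ W \ F, H.Adj v (ρ v)) (hne : W.Nonempty) {f μ : ℕ} {q : ℤ} (k : ℕ)
    {x : V → V → ℤ} {r : ℤ} (hs : St x r W k H) (hi : Inv x r W k f μ ∅) (hq : q + k ≤ r)
    (hrr : ∀ w ∈ W, ∀ w' ∈ W, w ≠ w' → ends x r W w + ends x r W w' ≤ q)
    (hr1 : ∀ w ∈ W, ends x r W w ≤ q)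
    (hcc : ∀ c, c ∉ W → ∀ c', c' ∉ W → din x W c + din x W c' ≤ q)
    (hrc : ∀ w ∈ W, ∀ c, c ∉ W → ends x r W w + din x W c ≤ q) :
    ∃ x', St x' (r - k) W 0 H ∧ PeeledU x x' r W k ∧ ∀ v, v ∉ W → dg x' v ≤ r - k := by
  obtain ⟨w, hw⟩ := hne
  have hq0 : 0 ≤ q := by
    refine le_trans ?_ (hr1 w hw)
    rw [← Bm_row x r hw]
    exact Finset.sum_nonneg fun c _ => Bm_nonneg hs.isW hs.degW w c
  exact f7_mainU hM hq0 k hs hi hq hrr hr1 hcc hrc

end Pool.Agent.H44U
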