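import Pool.Agent.Lib.H44T.F8
import Pool.Agent.Lib.H44U.F3

/-!
# Chunk F8 (S/M): peeling with a dominant column

Copy the proof of `peel_col` in `H44T/F8` with `inv_step` for `X = {o}` instead of `triple` (the third end is `(w3, o)`, so `o` is an end in every step; auxiliary lemmas of `H44T/F8` can be cited). `x' o c = x o c` for `c ∉ W` is the last conclusion of `inv_step`.
`h_deg` is not needed as a hypothesis: `∑ c ∈ Wᶜ, x o c + din x W o = dg x o ≤ r` (`Inv.deg`).
-/

namespace Pool.Agent.H44U

open Finset Pool.Agent.H44O Pool.Agent.H44T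
open scoped Classical

variable {V : Type*} [Fintype V]


theorem f8u_inj {U : Type*} {a b c : U} (h1 : a ≠ b) (h2 : a ≠ c) (h3 : b ≠ c) :
    Function.Injective (![a, b, c] : Fin 3 → U) := by
  intro i j hij
  fin_cases i <;> fin_cases j
  · rfl
  · exact absurd hij h1
  · exact absurd hij h2
  · exact absurd hij.symm h1
  · rfl
  · exact absurd hij h3
  · exact absurd hij.symm h2
  · exact absurd hij.symm h3
  · rfl

theorem peel_colU {W : Finset V} {H : SimpleGraph V}
    (hM : ∀ F : Finset V, F ⊆ W → F.card = 3 →
      ∃ ρ : Equiv.Perm V, (∀ v, ρ (ρ v) = v) ∧ (∀ v, ρ v ≠ v ↔ v ∈ W \ F) ∧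
        ∀ v ∈ W \ F, H.Adj v (ρ v)) {o : V} (ho : o ∉ W) {f μ : ℕ} (k : ℕ)
    {x : V → V → ℤ} {r : ℤ} (hs : St x r W k H) (hi : Inv x r W k f μ {o})
    (h_big : 2 * (μ : ℤ) + k ≤ din x W o)
    (h_row : ∀ w ∈ W, ends x r W w + din x W o - x w o ≤ r + k)
    (h_col : ∀ c, c ∉ W → c ≠ o → din x W c + x o c + din x W o ≤ r + k) :
    ∃ x', St x' (r - k) W 0 H ∧ PeeledU x x' r W k ∧ (∀ v, v ∉ W → dg x' v ≤ r - k) ∧
      ∀ c, c ∉ W → c ≠ o → din x' W c + x' o c + din x' W o ≤ r - k := by
  classical
  induction k generalizing x r with
  | zero =>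
    refine ⟨x, ?_, peeledU_refl x r W, ?_, ?_⟩
    · simpa using hs
    · intro v hv
      simpa using hi.deg v hv
    · intro c hc hco
      simpa using h_col c hc hco
  | succ k ih =>
    have hx := hs.isW
    have hμ : ∀ u v, x u v ≤ (μ : ℤ) := hi.le
    have h_deg : ∑ c ∈ Wᶜ, x o c + din x W o ≤ r := by
      have h1 := hi.deg o ho
      have h2 : dg x o = ∑ c ∈ W, x o c + ∑ c ∈ Wᶜ, x o c :=
        (Finset.sum_add_sum_compl W (fun c => x o c)).symm
      have h3 : din x W o = ∑ c ∈ W, x o c := rfl
      linarith
    have hBnn : ∀ u c, 0 ≤ Bm x r W u c := fun u c => Bm_nonneg hx hs.degW u c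
    set D : ℤ := r - din x W o with hD
    have hsum0 : 0 ≤ ∑ c ∈ Wᶜ, x o c := Finset.sum_nonneg fun c _ => hx.nonneg o c
    have hD0 : 0 ≤ D := by rw [hD]; linarith
    have hk' : ((k + 1 : ℕ) : ℤ) = (k : ℤ) + 1 := by push_cast; ring
    rw [hk'] at h_big h_row h_col
    have hins := hs.ins
    have hBo : ∑ w, Bm x r W w o = din x W o := Bm_col hx r ho
    -- row and column sums of the table
    have hrow : ∀ u ∈ W, ∑ c, (if c = o then 0 else Bm x r W u c) =
        ends x r W u - x u o := by
      intro u hu
      have h1 : ∀ c, (if c = o then 0 else Bm x r W u c) =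
          Bm x r W u c - (if c = o then Bm x r W u c else 0) := by
        intro c; split_ifs <;> ring
      rw [Finset.sum_congr rfl fun c _ => h1 c, Finset.sum_sub_distrib, Bm_row x r hu,
        Finset.sum_ite_eq' Finset.univ o, if_pos (Finset.mem_univ _)]
      congr 1
      simp [Bm, hu, ho]
    have hrow0 : ∀ u, u ∉ W → ∑ c, (if c = o then 0 else Bm x r W u c) = 0 := by
      intro u hu
      refine Finset.sum_eq_zero fun c _ => ?_
      simp [Bm, hu]
    have hcol : ∀ c, c ∉ W → c ≠ o → ∑ u, (if c = o then 0 else Bm x r W u c) =
        din x W c := by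
      intro c hc hco
      simp only [if_neg hco]
      exact Bm_col hx r hc
    have htab : Tab (fun u c => if c = o then 0 else Bm x r W u c)
        (fun c => if c ∈ W then 0 else x o c) D ((k : ℤ) + 1) := by
      have hrowle : ∀ u, ∑ c, (if c = o then 0 else Bm x r W u c) ≤ D + ((k : ℤ) + 1) := by
        intro u
        by_cases hu : u ∈ W
        · rw [hrow u hu]
          have := h_row u hu
          rw [hD]; linarith
        · rw [hrow0 u hu]; positivity
      refine ⟨?_, ?_, ?_, ?_, hrowle, ?_, ?_⟩
      · intro u c
        show 0 ≤ (if c = o then 0 else Bm x r W u c)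
        split_ifs
        · exact le_rfl
        · exact hBnn u c
      · intro c
        show 0 ≤ (if c ∈ W then 0 else x o c)
        split_ifs
        · exact le_rfl
        · exact hx.nonneg o c
      · have e : ∑ c, (if c ∈ W then (0 : ℤ) else x o c) = ∑ c ∈ Wᶜ, x o c := by
          rw [← Finset.sum_filter_add_sum_filter_not Finset.univ (fun c => c ∈ W)
            (fun c => if c ∈ W then (0 : ℤ) else x o c)]
          have e1 : ∑ c ∈ Finset.univ.filter (fun c => c ∈ W),
              (if c ∈ W then (0 : ℤ) else x o c) = 0 := by
            refine Finset.sum_eq_zero fun c hc => ?_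
            rw [if_pos (Finset.mem_filter.1 hc).2]
          rw [e1, zero_add]
          have e2 : Finset.univ.filter (fun c => c ∉ W) = Wᶜ := by
            ext c; simp
          rw [e2]
          refine Finset.sum_congr rfl fun c hc => ?_
          rw [if_neg (Finset.mem_compl.1 hc)]
        show ∑ c, (if c ∈ W then (0 : ℤ) else x o c) ≤ D
        rw [e, hD]
        linarith
      · show ∑ u, ∑ c, (if c = o then 0 else Bm x r W u c) = D + 2 * ((k : ℤ) + 1)
        have h1 : ∀ u c, (if c = o then 0 else Bm x r W u c) =
            Bm x r W u c - (if c = o then Bm x r W u c else 0) := by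
          intro u c; split_ifs <;> ring
        have h2 : ∀ u, ∑ c, (if c = o then 0 else Bm x r W u c) =
            ∑ c, Bm x r W u c - Bm x r W u o := by
          intro u
          rw [Finset.sum_congr rfl fun c _ => h1 u c, Finset.sum_sub_distrib,
            Finset.sum_ite_eq' Finset.univ o, if_pos (Finset.mem_univ _)]
        rw [Finset.sum_congr rfl fun u _ => h2 u, Finset.sum_sub_distrib, hBo,
          Bm_total (x := x) (r := r) (k := (k : ℤ) + 1) (by rw [hins]; push_cast; ring), hD]
        ring
      · intro c
        show ∑ u, (if c = o then 0 else Bm x r W u c) + (if c ∈ W then 0 else x o c) ≤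
          D + ((k : ℤ) + 1)
        by_cases hco : c = o
        · subst hco
          simp only [if_true, Finset.sum_const_zero, if_neg ho, hx.diag]
          positivity
        · by_cases hc : c ∈ W
          · simp only [if_neg hco, if_pos hc, add_zero]
            rw [Bm_col_in x r hc]
            have h3 := hrowle c
            have h4 : (if c = o then 0 else Bm x r W c c) ≤
                ∑ c', (if c' = o then 0 else Bm x r W c c') :=
              Finset.single_le_sum (f := fun c' => if c' = o then 0 else Bm x r W c c')
                (fun c' _ => by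
                  show 0 ≤ (if c' = o then 0 else Bm x r W c c')
                  split_ifs
                  · exact le_rfl
                  · exact hBnn c c') (Finset.mem_univ c)
            have h5 : (if c = o then 0 else Bm x r W c c) = r - dg x c := by
              rw [if_neg hco]; simp [Bm, hc]
            linarith
          · rw [hcol c hc hco, if_neg hc]
            have := h_col c hc hco
            rw [hD]; linarith
      · have : (0 : ℤ) ≤ (k : ℤ) := Int.natCast_nonneg k
        linarith
    obtain ⟨a, a', c, c', haa, hcc, h1, h1', htr, htc⟩ := two_entries htab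
    have hco : c ≠ o := by
      rintro rfl
      simp at h1
    have hco' : c' ≠ o := by
      rintro rfl
      simp at h1'
    simp only [if_neg hco] at h1
    simp only [if_neg hco'] at h1'
    have haW : a ∈ W := by
      by_contra h
      simp [Bm, h] at h1
    have haW' : a' ∈ W := by
      by_contra h
      simp [Bm, h] at h1'
    obtain ⟨w3, hw3W, hw3a, hw3a', hw3⟩ : ∃ w3 ∈ W, w3 ≠ a ∧ w3 ≠ a' ∧ 1 ≤ x w3 o := by
      by_contra hcon
      push Not at hcon
      have h2 : din x W o ≤ x o a + x o a' := by
        have h3 : din x W o = ∑ w ∈ W, x o w := rfl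
        rw [h3, ← Finset.sum_subset (s₁ := {a, a'}) (by
          intro v hv
          simp only [Finset.mem_insert, Finset.mem_singleton] at hv
          rcases hv with rfl | rfl
          · exact haW
          · exact haW') (by
          intro w hw hw'
          simp only [Finset.mem_insert, Finset.mem_singleton, not_or] at hw'
          have h4 := hcon w hw hw'.1 hw'.2
          have h5 := hx.nonneg w o
          rw [hx.symm o w]
          omega), Finset.sum_pair haa]
      have h3 := hμ o a
      have h4 := hμ o a'
      have : (0 : ℤ) ≤ (k : ℤ) := Int.natCast_nonneg k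
      linarith
    -- the matching
    obtain ⟨ρ, hρ1, hρ2, hρ3⟩ := hM {a, a', w3} (by
      intro v hv
      simp only [Finset.mem_insert, Finset.mem_singleton] at hv
      rcases hv with rfl | rfl | rfl
      · exact haW
      · exact haW'
      · exact hw3W) (by
      rw [Finset.card_insert_of_notMem, Finset.card_insert_of_notMem, Finset.card_singleton]
      · simp [hw3a'.symm]
      · simp [haa, hw3a.symm])
    have hFmem : ∀ v, (∀ i, v ≠ (![a, a', w3] : Fin 3 → V) i) ↔ v ∉ ({a, a', w3} : Finset V) := by
      intro v
      simp [Fin.forall_fin_succ]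
    obtain ⟨x', hst, hi', hpl, hBx, hox⟩ := inv_step hs hi (w := ![a, a', w3]) (c := ![c, c', o])
      (f8u_inj haa hw3a.symm hw3a'.symm) (f8u_inj hcc hco hco') (by
      intro i
      fin_cases i
      · exact h1
      · exact h1'
      · show 1 ≤ Bm x r W w3 o
        simpa [Bm, hw3W, ho] using hw3) (by
      intro v hv
      rw [Finset.mem_singleton] at hv
      exact ⟨2, hv⟩) hρ1 (by
      intro v
      rw [hρ2 v, Finset.mem_sdiff, hFmem]) (by
      intro v hv hv'
      exact hρ3 v (Finset.mem_sdiff.2 ⟨hv, (hFmem v).1 hv'⟩))
    -- entries of the new table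
    have hx' := hst.isW
    have hle : ∀ u v, x' u v ≤ x u v := peeledU_le hpl
    have hex : ∀ u v, (∃ i : Fin 3, u = (![a, a', w3] : Fin 3 → V) i ∧
        v = (![c, c', o] : Fin 3 → V) i) ↔
        (u = a ∧ v = c) ∨ (u = a' ∧ v = c') ∨ (u = w3 ∧ v = o) := by
      intro u v
      simp [Fin.exists_fin_succ]
    have hrowsum : ∀ u, ∑ v, (if ∃ i : Fin 3, u = (![a, a', w3] : Fin 3 → V) i ∧
        v = (![c, c', o] : Fin 3 → V) i then (1 : ℤ) else 0) =
        if u = a ∨ u = a' ∨ u = w3 then 1 else 0 := by
      intro u
      simp only [hex]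
      by_cases hu1 : u = a
      · subst hu1
        simp [haa, hw3a.symm]
      · by_cases hu2 : u = a'
        · subst hu2
          simp [hu1, hw3a'.symm]
        · by_cases hu3 : u = w3
          · subst hu3
            simp [hu1, hu2]
          · simp [hu1, hu2, hu3]
    have hcolsum : ∀ v, ∑ u, (if ∃ i : Fin 3, u = (![a, a', w3] : Fin 3 → V) i ∧
        v = (![c, c', o] : Fin 3 → V) i then (1 : ℤ) else 0) =
        if v = c ∨ v = c' ∨ v = o then 1 else 0 := by
      intro v
      simp only [hex]
      by_cases hv1 : v = c
      · subst hv1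
        simp [hcc, hco]
      · by_cases hv2 : v = c'
        · subst hv2
          simp [hv1, hco']
        · by_cases hv3 : v = o
          · subst hv3
            simp [hv1, hv2]
          · simp [hv1, hv2, hv3]
    have hdin : ∀ v, v ∉ W → din x' W v = din x W v - if v = c ∨ v = c' ∨ v = o then 1 else 0 := by
      intro v hv
      rw [← Bm_col hx' (r - 1) hv, ← Bm_col hx r hv, ← hcolsum v, ← Finset.sum_sub_distrib]
      exact Finset.sum_congr rfl fun u _ => hBx u v
    have hdino : din x' W o = din x W o - 1 := by
      rw [hdin o ho]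
      simp
    have hends : ∀ u ∈ W, ends x' (r - 1) W u = ends x r W u -
        if u = a ∨ u = a' ∨ u = w3 then 1 else 0 := by
      intro u hu
      rw [← Bm_row x' (r - 1) hu, ← Bm_row x r hu, ← hrowsum u, ← Finset.sum_sub_distrib]
      exact Finset.sum_congr rfl fun v _ => hBx u v
    have hxo : ∀ u ∈ W, x' u o = x u o - if u = w3 then 1 else 0 := by
      intro u hu
      have h2 := hBx u o
      have h3 : Bm x' (r - 1) W u o = x' u o := by simp [Bm, hu, ho]
      have h4 : Bm x r W u o = x u o := by simp [Bm, hu, ho]
      rw [h3, h4] at h2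
      rw [h2]
      congr 1
      have h5 : (∃ i : Fin 3, u = (![a, a', w3] : Fin 3 → V) i ∧
          o = (![c, c', o] : Fin 3 → V) i) ↔ u = w3 := by
        rw [hex]
        constructor
        · rintro (⟨_, h⟩ | ⟨_, h⟩ | ⟨h, _⟩)
          · exact absurd h.symm hco
          · exact absurd h.symm hco'
          · exact h
        · intro h
          exact Or.inr (Or.inr ⟨h, rfl⟩)
      by_cases h6 : u = w3
      · rw [if_pos h6, if_pos (h5.2 h6)]
      · rw [if_neg h6, if_neg (fun h => h6 (h5.1 h))]
    have hout : ∀ v, v ∉ W → x' o v = x o v := fun v hv =>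
      hox o v ho hv (Finset.mem_singleton_self o)
    have hr1 : (r - ((1 : ℕ) : ℤ)) = r - 1 := by norm_num
    obtain ⟨x'', hst'', hpl'', hdeg'', hcol''⟩ := ih hst hi'
      (by rw [hdino]; linarith)
      (by
        intro w hw
        rw [hends w hw, hdino, hxo w hw]
        have h2 := h_row w hw
        by_cases hwa : w = a
        · have h3 : w ≠ w3 := by rw [hwa]; exact hw3a.symm
          rw [if_pos (Or.inl hwa), if_neg h3]
          linarith
        · by_cases hwa' : w = a'
          · have h3 : w ≠ w3 := by rw [hwa']; exact hw3a'.symm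
            rw [if_pos (Or.inr (Or.inl hwa')), if_neg h3]
            linarith
          · have h3 : ends x r W w + din x W o - x w o ≠ r + ((k : ℤ) + 1) := by
              intro h4
              have h5 := htr w (by
                show ∑ f, (if f = o then 0 else Bm x r W w f) = D + ((k : ℤ) + 1)
                rw [hrow w hw, hD]; linarith)
              rcases h5 with h5 | h5
              · exact hwa h5
              · exact hwa' h5
            have h4 : ends x r W w + din x W o - x w o ≤ r + (k : ℤ) := by omega
            by_cases hw3' : w = w3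
            · rw [if_pos (Or.inr (Or.inr hw3')), if_pos hw3']
              linarith
            · have h5 : ¬ (w = a ∨ w = a' ∨ w = w3) := by tauto
              rw [if_neg h5, if_neg hw3']
              linarith)
      (by
        intro v hv hvo
        rw [hdin v hv, hdino, hout v hv]
        have h2 := h_col v hv hvo
        by_cases hvc : v = c ∨ v = c'
        · have h3 : v = c ∨ v = c' ∨ v = o := by tauto
          rw [if_pos h3]
          linarith
        · have h3 : ¬ (v = c ∨ v = c' ∨ v = o) := by tauto
          rw [if_neg h3]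
          have h4 : din x W v + x o v + din x W o ≠ r + ((k : ℤ) + 1) := by
            intro h5
            apply hvc
            apply htc v
            show ∑ e, (if v = o then 0 else Bm x r W e v) + (if v ∈ W then 0 else x o v) =
              D + ((k : ℤ) + 1)
            rw [hcol v hv hvo, if_neg hv, hD]; linarith
          have h5 : din x W v + x o v + din x W o ≤ r + (k : ℤ) := by omega
          linarith)
    have hrk : r - 1 - (k : ℤ) = r - ((k + 1 : ℕ) : ℤ) := by push_cast; ring
    rw [hrk] at hst'' hcol''
    have hdeg3 : ∀ v, v ∉ W → dg x'' v ≤ r - ((k + 1 : ℕ) : ℤ) := by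
      intro v hv
      rw [← hrk]
      exact hdeg'' v hv
    refine ⟨x'', hst'', ?_, hdeg3, hcol''⟩
    have h2 := peeledU_trans (l := 1) (l' := k) hpl (by rw [hr1]; exact hpl'')
    rwa [Nat.add_comm 1 k] at h2

end Pool.Agent.H44U
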