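import Pool.Agent.Lib.H44T.F9
import Pool.Agent.Lib.H44U.F3

/-!
# Chunk F9 (M): peeling with a dominant row

Copy the proof of `peel_row` in `H44T/F9` with `inv_step` (`X = ∅`) instead of `triple`, and another third entry: instead of `(w0, w0)` take `(w0, c3)` with `c3 ≠ c, c'` and `Bm x r W w0 c3 ≥ 1`. It exists: `∑ c, Bm x r W w0 c = ends x r W w0 ≥ 2 μ + (k + 1)`
(`Bm_row`, `h_big`), and the entries at `c`, `c'` are at most `μ` each: `c, c' ≠ w0` (in the table of `two_entries` the column `w0` is zero), so they are `x w0 c ≤ μ` or `0`. The invariants: `ends w0` decreases by one, `r` by one; `din x W c - x w0 c` decreases by one exactly at the columns `c`, `c'`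
(at `c3` both terms decrease by one); rows as before. `h_big`: `ends w0` decreases by one and `k` by one. `x' ≤ x ≤ μ`.
-/

namespace Pool.Agent.H44U

open Finset Pool.Agent.H44O Pool.Agent.H44T
open scoped Classical

variable {V : Type*} [Fintype V]

theorem f9u_inj {A : Type*} {a b c : A} (h1 : a ≠ b) (h2 : a ≠ c) (h3 : b ≠ c) :
    Function.Injective (![a, b, c] : Fin 3 → A) := by
  intro i j hij
  fin_cases i <;> fin_cases j
  · rfl
  · exact absurd hij h1
  · exact absurd hij h2
  · exact absurd hij.symm h1
  · rfl
  · exact absurd hij h3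
  · exact absurd hij.symm h2
  · exact absurd hij.symm h3
  · rfl

theorem peel_rowU {W : Finset V} {H : SimpleGraph V} {w0 : V} (hw0 : w0 ∈ W)
    (hM : ∀ F : Finset V, F ⊆ W → F.card = 3 → w0 ∈ F →
      ∃ ρ : Equiv.Perm V, (∀ v, ρ (ρ v) = v) ∧ (∀ v, ρ v ≠ v ↔ v ∈ W \ F) ∧
        ∀ v ∈ W \ F, H.Adj v (ρ v)) {f μ : ℕ} (k : ℕ) {x : V → V → ℤ} {r : ℤ}
    (hs : St x r W k H) (hi : Inv x r W k f μ ∅) (h_big : 2 * (μ : ℤ) + k ≤ ends x r W w0)
    (h_row : ∀ w ∈ W, w ≠ w0 → ends x r W w + ends x r W w0 ≤ r + k)
    (h_col : ∀ c, c ∉ W → din x W c - x w0 c + ends x r W w0 ≤ r + k) :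
    ∃ x', St x' (r - k) W 0 H ∧ PeeledU x x' r W k ∧ ∀ v, v ∉ W → dg x' v ≤ r - k := by
  induction k generalizing x r with
  | zero =>
    refine ⟨x, ?_, peeledU_refl x r W, fun v hv => ?_⟩
    · simpa using hs
    · simpa using hi.deg v hv
  | succ k ih =>
    have hD0 : 0 ≤ din x W w0 := Finset.sum_nonneg fun w _ => hs.isW.nonneg _ _
    have hE0 : ends x r W w0 = r - din x W w0 := rfl
    have hBn : ∀ u c, 0 ≤ Bm x r W u c := fun u c => Bm_nonneg hs.isW hs.degW u c
    have hBo : ∀ u c, u ∉ W → Bm x r W u c = 0 := fun u c hu => by simp [Bm, hu]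
    set B : V → V → ℤ := fun u c => if u = w0 then 0 else Bm x r W u c with hB
    have hcols : ∀ c, ∑ u, B u c = (∑ u, Bm x r W u c) - Bm x r W w0 c := by
      intro c
      rw [eq_sub_iff_add_eq]
      have h1 : Bm x r W w0 c = ∑ u, if u = w0 then Bm x r W u c else 0 := by simp
      rw [h1, ← Finset.sum_add_distrib]
      refine Finset.sum_congr rfl fun u _ => ?_
      by_cases hu : u = w0 <;> simp [hB, hu]
    have hrow' : ∀ u, u ≠ w0 → ∑ c, B u c = ∑ c, Bm x r W u c := by
      intro u hu
      exact Finset.sum_congr rfl fun c _ => by simp [hB, hu]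
    have hrow0 : ∑ c, B w0 c = 0 := Finset.sum_eq_zero fun c _ => by simp [hB]
    have hins : inW x W = r * ((W.card : ℤ) - 1) - 2 * ((k : ℤ) + 1) := by
      have := hs.ins
      push_cast at this
      exact this
    have hTab : Tab B (fun _ => 0) (din x W w0) ((k : ℤ) + 1) := by
      refine ⟨?_, fun _ => le_rfl, by simpa using hD0, ?_, ?_, ?_, by omega⟩
      · intro u c
        by_cases hu : u = w0
        · simp [hB, hu]
        · simpa [hB, hu] using hBn u c
      · have h1 := Bm_total (x := x) (r := r) (k := (k : ℤ) + 1) (W := W) hins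
        rw [Finset.sum_comm] at h1 ⊢
        simp only [hcols]
        rw [Finset.sum_sub_distrib, h1, Bm_row x r hw0, hE0]
        ring
      · intro u
        by_cases hu : u = w0
        · rw [hu, hrow0]
          positivity
        · rw [hrow' u hu]
          by_cases huW : u ∈ W
          · rw [Bm_row x r huW]
            have := h_row u huW hu
            push_cast at this
            rw [hE0] at this
            linarith
          · rw [Finset.sum_eq_zero fun c _ => hBo u c huW]
            positivity
      · intro c
        rw [hcols c]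
        by_cases hc : c ∈ W
        · rw [Bm_col_in x r hc]
          by_cases hc0 : c = w0
          · have : Bm x r W w0 c = r - dg x w0 := by simp [Bm, hw0, hc0]
            rw [this, hc0]
            have : (0 : ℤ) ≤ k := Int.natCast_nonneg k
            linarith
          · have h1 : Bm x r W w0 c = 0 := by simp [Bm, hw0, hc, hc0]
            rw [h1]
            have h2 := h_row c hc hc0
            push_cast at h2
            rw [hE0] at h2
            have h3 : din x W c ≤ dg x c :=
              Finset.sum_le_sum_of_subset_of_nonneg (Finset.subset_univ _)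
                (fun v _ _ => hs.isW.nonneg _ _)
            have h4 : ends x r W c = r - din x W c := rfl
            linarith
        · rw [Bm_col hs.isW r hc]
          have h1 : Bm x r W w0 c = x w0 c := by simp [Bm, hw0, hc]
          rw [h1]
          have h2 := h_col c hc
          push_cast at h2
          rw [hE0] at h2
          linarith
    obtain ⟨a, a', c, c', haa, hcc, h1, h1', htr, htc⟩ := two_entries hTab
    have ha0 : a ≠ w0 := by
      rintro rfl
      simp [hB] at h1
    have ha0' : a' ≠ w0 := by
      rintro rfl
      simp [hB] at h1'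
    have hBa : 1 ≤ Bm x r W a c := by simpa [hB, ha0] using h1
    have hBa' : 1 ≤ Bm x r W a' c' := by simpa [hB, ha0'] using h1'
    have haW : a ∈ W := by
      by_contra hh
      rw [hBo a c hh] at hBa
      omega
    have haW' : a' ∈ W := by
      by_contra hh
      rw [hBo a' c' hh] at hBa'
      omega
    have hc0 : c ≠ w0 := by
      rintro rfl
      simp [Bm, haW, hw0, ha0.symm] at hBa
    have hc0' : c' ≠ w0 := by
      rintro rfl
      simp [Bm, haW', hw0, ha0'.symm] at hBa'
    have hle0 : ∀ v, v ≠ w0 → Bm x r W w0 v ≤ μ := by
      intro v hv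
      have hμ0 : (0 : ℤ) ≤ (μ : ℤ) := Int.natCast_nonneg μ
      rw [Bm, if_pos hw0]
      by_cases hvW : v ∈ W
      · rw [if_pos hvW, if_neg hv]
        exact hμ0
      · rw [if_neg hvW]
        exact hi.le w0 v
    have hc3 : ∃ c3, c3 ≠ c ∧ c3 ≠ c' ∧ 1 ≤ Bm x r W w0 c3 := by
      by_contra hno
      push Not at hno
      have e1 : ∑ v, Bm x r W w0 v ≤ ∑ v, ((if v = c then (μ : ℤ) else 0) +
          if v = c' then (μ : ℤ) else 0) := by
        refine Finset.sum_le_sum fun v _ => ?_
        by_cases hv : v = c
        · have hv' : v ≠ c' := fun h => hcc (hv.symm.trans h)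
          rw [if_pos hv, if_neg hv', add_zero]
          exact hle0 v (by rw [hv]; exact hc0)
        · by_cases hv' : v = c'
          · rw [if_neg hv, if_pos hv', zero_add]
            exact hle0 v (by rw [hv']; exact hc0')
          · rw [if_neg hv, if_neg hv', add_zero]
            have := hno v hv hv'
            omega
      have e2 : ∑ v, ((if v = c then (μ : ℤ) else 0) + if v = c' then (μ : ℤ) else 0) =
          2 * μ := by
        rw [Finset.sum_add_distrib]
        simp only [Finset.sum_ite_eq', Finset.mem_univ, if_true]
        ring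
      rw [Bm_row x r hw0, e2] at e1
      push_cast at h_big
      have : (0 : ℤ) ≤ k := Int.natCast_nonneg k
      linarith
    obtain ⟨c3, hc3c, hc3c', hB3⟩ := hc3
    have hF := hM {a, a', w0} (by
        intro v hv
        simp only [Finset.mem_insert, Finset.mem_singleton] at hv
        rcases hv with rfl | rfl | rfl
        · exact haW
        · exact haW'
        · exact hw0) (by
        rw [Finset.card_insert_of_notMem, Finset.card_insert_of_notMem, Finset.card_singleton]
        · simpa using ha0'
        · simp [haa, ha0]) (by simp)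
    obtain ⟨ρ, hρ1, hρ2, hρ3⟩ := hF
    set w : Fin 3 → V := ![a, a', w0] with hw
    set cc : Fin 3 → V := ![c, c', c3] with hcd
    have iw : Function.Injective w := f9u_inj haa ha0 ha0'
    have ic : Function.Injective cc := f9u_inj hcc hc3c.symm hc3c'.symm
    have hmem : ∀ v, v ∈ W \ ({a, a', w0} : Finset V) ↔ v ∈ W ∧ ∀ i, v ≠ w i := by
      intro v
      simp only [Finset.mem_sdiff, Finset.mem_insert, Finset.mem_singleton, hw]
      constructor
      · rintro ⟨h1, h2⟩
        push Not at h2
        refine ⟨h1, fun i => ?_⟩
        fin_cases i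
        · exact h2.1
        · exact h2.2.1
        · exact h2.2.2
      · rintro ⟨h1, h2⟩
        refine ⟨h1, ?_⟩
        push Not
        exact ⟨h2 0, h2 1, h2 2⟩
    have hex : ∀ v, (∃ i, v = w i) ↔ v = a ∨ v = a' ∨ v = w0 := by
      intro v
      constructor
      · rintro ⟨i, hi⟩
        fin_cases i
        · exact Or.inl hi
        · exact Or.inr (Or.inl hi)
        · exact Or.inr (Or.inr hi)
      · rintro (h | h | h)
        · exact ⟨0, h⟩
        · exact ⟨1, h⟩
        · exact ⟨2, h⟩
    have hexc : ∀ v, (∃ i, v = cc i) ↔ v = c ∨ v = c' ∨ v = c3 := by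
      intro v
      constructor
      · rintro ⟨i, hi⟩
        fin_cases i
        · exact Or.inl hi
        · exact Or.inr (Or.inl hi)
        · exact Or.inr (Or.inr hi)
      · rintro (h | h | h)
        · exact ⟨0, h⟩
        · exact ⟨1, h⟩
        · exact ⟨2, h⟩
    obtain ⟨x', hs', hi', hp', htab, -⟩ := inv_step hs hi iw ic (by
        intro i
        fin_cases i
        · exact hBa
        · exact hBa'
        · exact hB3) (by
        intro v hv
        exact absurd hv (Finset.notMem_empty v)) hρ1 (fun v => (hρ2 v).trans (hmem v))
        (fun v hv hv' => hρ3 v ((hmem v).2 ⟨hv, hv'⟩))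
    have hends : ∀ u ∈ W, ends x' (r - 1) W u =
        ends x r W u - if ∃ i, u = w i then 1 else 0 := by
      intro u hu
      rw [← Bm_row x' (r - 1) hu, ← Bm_row x r hu, ← f9_row (c := cc) iw u,
        ← Finset.sum_sub_distrib]
      exact Finset.sum_congr rfl fun v _ => htab u v
    have hdin : ∀ v, v ∉ W → din x' W v = din x W v - if ∃ i, v = cc i then 1 else 0 := by
      intro v hv
      rw [← Bm_col hs'.isW (r - 1) hv, ← Bm_col hs.isW r hv, ← f9_col (w := w) ic v,
        ← Finset.sum_sub_distrib]
      exact Finset.sum_congr rfl fun u _ => htab u v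
    have hE0' : ends x' (r - 1) W w0 = ends x r W w0 - 1 := by
      rw [hends w0 hw0, if_pos ((hex w0).2 (Or.inr (Or.inr rfl)))]
    have ih' := ih (x := x') (r := r - 1) hs' hi' (by
        rw [hE0']
        push_cast at h_big
        linarith) (by
        intro u hu hu0
        rw [hends u hu, hE0']
        have h2 := h_row u hu hu0
        push_cast at h2
        by_cases hua : u = a ∨ u = a'
        · rw [if_pos ((hex u).2 (hua.elim Or.inl (fun h => Or.inr (Or.inl h))))]
          linarith
        · have hnex : ¬ ∃ i, u = w i := by
            rw [hex u]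
            push Not at hua ⊢
            exact ⟨hua.1, hua.2, hu0⟩
          rw [if_neg hnex]
          have hnt : ∑ f, B u f ≠ din x W w0 + ((k : ℤ) + 1) := fun h => hua (htr u h)
          rw [hrow' u hu0, Bm_row x r hu] at hnt
          have h3 : ends x r W u ≤ din x W w0 + ((k : ℤ) + 1) := by
            rw [hE0] at h2
            linarith
          have h4 : ends x r W u < din x W w0 + ((k : ℤ) + 1) := lt_of_le_of_ne h3 hnt
          rw [hE0]
          omega) (by
        intro v hv
        have h2 := h_col v hv
        push_cast at h2
        have h3 : din x W v - x w0 v ≤ din x W w0 + ((k : ℤ) + 1) := by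
          rw [hE0] at h2
          linarith
        by_cases hva : v = c ∨ v = c'
        · have hn : ¬ ∃ i, w0 = w i ∧ v = cc i := by
            rintro ⟨i, hi, hi'⟩
            have h5 : i = 2 := iw (by rw [← hi]; rfl)
            rw [h5] at hi'
            have h6 : v = c3 := hi'
            rcases hva with h7 | h7
            · exact hc3c (h6.symm.trans h7)
            · exact hc3c' (h6.symm.trans h7)
          have hx' : x' w0 v = x w0 v := by
            have h := htab w0 v
            rw [if_neg hn] at h
            simpa [Bm, hw0, hv] using h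
          rw [hdin v hv, hx', hE0']
          rw [if_pos ((hexc v).2 (hva.elim Or.inl (fun h => Or.inr (Or.inl h))))]
          linarith
        · have hnt : (∑ e, B e v) + 0 ≠ din x W w0 + ((k : ℤ) + 1) := fun h => hva (htc v h)
          rw [add_zero, hcols v, Bm_col hs.isW r hv] at hnt
          have h1 : Bm x r W w0 v = x w0 v := by simp [Bm, hw0, hv]
          rw [h1] at hnt
          have h4 := lt_of_le_of_ne h3 hnt
          have hd : din x' W v - x' w0 v = din x W v - x w0 v := by
            rw [hdin v hv]
            by_cases hv3 : v = c3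
            · have hx' : x' w0 v = x w0 v - 1 := by
                have h := htab w0 v
                rw [if_pos ⟨2, rfl, hv3⟩] at h
                simpa [Bm, hw0, hv] using h
              rw [if_pos ((hexc v).2 (Or.inr (Or.inr hv3))), hx']
              ring
            · have hn : ¬ ∃ i, w0 = w i ∧ v = cc i := by
                rintro ⟨i, hi, hi'⟩
                have h5 : i = 2 := iw (by rw [← hi]; rfl)
                rw [h5] at hi'
                exact hv3 hi'
              have hx' : x' w0 v = x w0 v := by
                have h := htab w0 v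
                rw [if_neg hn] at h
                simpa [Bm, hw0, hv] using h
              have hnex : ¬ ∃ i, v = cc i := by
                rw [hexc v]
                push Not at hva ⊢
                exact ⟨hva.1, hva.2, hv3⟩
              rw [if_neg hnex, hx']
              ring
          rw [hd, hE0', hE0]
          omega)
    obtain ⟨x'', hs'', hp'', hd''⟩ := ih'
    have hrk : r - ((k + 1 : ℕ) : ℤ) = r - 1 - k := by push_cast; ring
    refine ⟨x'', ?_, ?_, fun v hv => ?_⟩
    · rw [hrk]
      exact hs''
    · have hr1 : r - ((1 : ℕ) : ℤ) = r - 1 := by norm_num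
      have := peeledU_trans hp' (by rw [hr1]; exact hp'')
      rw [add_comm] at this
      exact this
    · rw [hrk]
      exact hd'' v hv

end Pool.Agent.H44U
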