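import Pool.Agent.Lib.H44T.G2

/-!
# Chunk G1 (M): colouring the stars of the largest vertices

* `used_few`: a colour `i` is in `C v` for at most one `v`, and for every `u ∈ J` in `S v u = S u v` for at most one `v` (`prop`); so it is used at `v` for at most `|J| + 1` vertices `v ∉ J`.
* `used_card`: `|used v| ≤ |C v| + ∑ u ∈ J, |S v u| ≤ |C v| + |J| μ`.
* `order_sum`: the sets `C u`, `u ∈ insert o J`, are disjoint, and all have at least `|C o|` elements, except that `|C o1| ≥ |C o| - κ`: `(|J| + 1) |C o| - κ ≤ |ι|`.
-/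

namespace Pool.Agent.H44U

open Finset Pool.Agent.H44O Pool.Agent.H44T
open scoped Classical

variable {V ι : Type*} [Fintype V] [Fintype ι]

theorem used_few {h : V → V → ℕ} {C : V → Finset ι} (hC : ∀ u v, u ≠ v → Disjoint (C u) (C v))
    {J : Finset V} {S : V → V → Finset ι} (hS : PartCol h C J S) (i : ι) :
    (univ.filter (fun v => v ∉ J ∧ i ∈ used C J S v)).card ≤ J.card + 1 := by
  have hsub : univ.filter (fun v => v ∉ J ∧ i ∈ used C J S v) ⊆
      univ.filter (fun v => i ∈ C v) ∪ J.biUnion (fun u => univ.filter (fun v => i ∈ S u v)) := by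
    intro v hv
    have hv2 := (Finset.mem_filter.mp hv).2.2
    unfold used at hv2
    rcases Finset.mem_union.mp hv2 with h1 | h1
    · exact Finset.mem_union_left _ (Finset.mem_filter.mpr ⟨Finset.mem_univ v, h1⟩)
    · obtain ⟨u, hu, hiu⟩ := Finset.mem_biUnion.mp h1
      refine Finset.mem_union_right _ (Finset.mem_biUnion.mpr ⟨u, hu, Finset.mem_filter.mpr ⟨Finset.mem_univ v, ?_⟩⟩)
      have := hS.symm u v
      simp only [this]
      exact hiu
  have h1 : (univ.filter (fun v => i ∈ C v)).card ≤ 1 := by
    refine Finset.card_le_one.mpr ?_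
    intro a ha b hb
    by_contra hab
    exact Finset.disjoint_left.mp (hC a b hab) (Finset.mem_filter.mp ha).2 (Finset.mem_filter.mp hb).2
  have h2 : ∀ u ∈ J, (univ.filter (fun v => i ∈ S u v)).card ≤ 1 := by
    intro u _
    refine Finset.card_le_one.mpr ?_
    intro a ha b hb
    by_contra hab
    exact Finset.disjoint_left.mp (hS.prop u a b hab) (Finset.mem_filter.mp ha).2 (Finset.mem_filter.mp hb).2
  have h3 : (J.biUnion (fun u => univ.filter (fun v => i ∈ S u v))).card ≤ J.card * 1 :=
    Finset.card_biUnion_le_card_mul _ _ _ h2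
  have h4 := (Finset.card_le_card hsub).trans (Finset.card_union_le _ _)
  omega

theorem used_card {h : V → V → ℕ} {C : V → Finset ι} {J : Finset V} {S : V → V → Finset ι}
    (hS : PartCol h C J S) {μ : ℕ} (hμ : ∀ u v, h u v ≤ μ) (v : V) :
    (used C J S v).card ≤ (C v).card + J.card * μ := by
  have h1 : (used C J S v).card ≤ (C v).card + (J.biUnion (fun u => S v u)).card := by
    unfold used
    exact Finset.card_union_le _ _
  have h2 : (J.biUnion (fun u => S v u)).card ≤ J.card * μ := by
    refine Finset.card_biUnion_le_card_mul _ _ _ ?_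
    intro u hu
    rw [hS.card v u, if_pos (Or.inr hu)]
    exact hμ v u
  omega

theorem order_sum {C : V → Finset ι} (hC : ∀ u v, u ≠ v → Disjoint (C u) (C v)) {κ : ℕ} {o1 : V}
    (hmax : ∀ v, (C v).card ≤ (C o1).card + κ) {J : Finset V} (h1 : o1 ∈ J) {o : V} (ho : o ∉ J)
    (hord : ∀ u ∈ J, u ≠ o1 → (C o).card ≤ (C u).card) :
    (J.card + 1) * (C o).card ≤ Fintype.card ι + κ := by
  have hb : ((insert o J).biUnion C).card = ∑ u ∈ insert o J, (C u).card := by
    refine Finset.card_biUnion ?_
    intro a _ b _ hab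
    exact hC a b hab
  have hle : ((insert o J).biUnion C).card ≤ Fintype.card ι := by
    have := Finset.card_le_univ ((insert o J).biUnion C)
    exact this
  rw [hb, Finset.sum_insert ho, ← Finset.add_sum_erase J (fun u => (C u).card) h1] at hle
  have h2 : (J.erase o1).card * (C o).card ≤ ∑ u ∈ J.erase o1, (C u).card := by
    have := Finset.card_nsmul_le_sum (J.erase o1) (fun u => (C u).card) (C o).card (fun u hu =>
      hord u (Finset.mem_of_mem_erase hu) (Finset.ne_of_mem_erase hu))
    simpa using this
  have h3 := Finset.card_erase_add_one h1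
  have h4 := hmax o
  have h5 : (J.card + 1) * (C o).card = (J.erase o1).card * (C o).card + (C o).card + (C o).card := by
    rw [← h3]
    ring
  omega

end Pool.Agent.H44U
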