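import Pool.Agent.Lib.H44T.G3
import Pool.Agent.Lib.H44U.G1

/-!
# Chunk G2 (M/L): the stars of the `s + 1` largest vertices

Induction on `j`. `j = 0`: `J = ∅`, all `S u v = ∅`. `j = 1`: `J = {o1}` from `add_vertex` for `J = ∅`, `o = o1` (`used = C`): `|P| = 1`: `h1`; `|P| ≥ 2`: the intersection of the `C v`, `v ∈ P`, is empty, and `∑ v ∈ P, h o1 v ≤ |ι| - |C o1|` (`hdeg`).
(See the first step of `outside` in `H44T/G3`.) Step from `j ≥ 1` to `j + 1 ≤ s + 1`: `o ∉ J` with `|C o|` largest. `P` nonempty, `P ⊆ univ \ insert o J`: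
* `|P| ≥ j + 2`: no colour is used at all `v ∈ P` (`used_few`), and `∑ v ∈ P, h o v + |used o| ≤ ∑ v, h o v + |C o| ≤ |ι|` (`|used o| ≤ |C o| + ∑ u ∈ J, h o u`, the sums over `P` and `J` are disjoint), `|univ \ used o| = |ι| - |used o|`.
* `|P| ≤ j + 1`: `∑ v ∈ P, h o v ≤ (j + 1) μ`, the common colours are at most `|used v| ≤ |C v| + j μ` for one `v ∈ P`, `|used o| ≤ |C o| + j μ` (`used_card`). `order_sum`: `(j + 1) |C o| ≤ |ι| + κ`, `(j + 2) |C v| ≤ |ι| + κ` (apply it to `insert o J` and `v`), so
  `|C o| + |C v| ≤ 5 (|ι| + κ) / 6`, and `(3 j + 1) μ + 5 κ / 6 ≤ |ι| / 6` (`num`, `j ≤ s`).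
-/

namespace Pool.Agent.H44U

open Finset Pool.Agent.H44O Pool.Agent.H44T
open scoped Classical

variable {V ι : Type*} [Fintype V] [Fintype ι]

/-- the Hall condition in one step -/
theorem g2u_step {h : V → V → ℕ}
    {C : V → Finset ι} (hC : ∀ u v, u ≠ v → Disjoint (C u) (C v)) {μ κ s : ℕ}
    (hμ : ∀ u v, h u v ≤ μ) {o1 : V} (hmax : ∀ v, (C v).card ≤ (C o1).card + κ)
    (hdeg : ∀ v, ∑ u, h v u + (C v).card ≤ Fintype.card ι)
    (num : 6 * ((3 * s + 1) * μ + κ) ≤ Fintype.card ι)
    {J : Finset V} {S : V → V → Finset ι} (hS : PartCol h C J S) (ho1 : o1 ∈ J)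
    (hJs : J.card ≤ s)
    (hord : ∀ v, v ∉ J → ∀ u ∈ J, u ≠ o1 → (C v).card ≤ (C u).card) {o : V} (ho : o ∉ J)
    (homax : ∀ v, v ∉ J → (C v).card ≤ (C o).card) {P : Finset V} (hP : P ⊆ univ \ insert o J)
    (hPne : P.Nonempty) :
    ∑ v ∈ P, h o v + ((univ \ used C J S o).filter (fun i => ∀ v ∈ P, i ∈ used C J S v)).card
        ≤ (univ \ used C J S o).card := by
  obtain ⟨v, hv⟩ := hPne
  have hPmem : ∀ v ∈ P, v ∉ J ∧ v ≠ o := by
    intro v hv
    have h1 := (mem_sdiff.mp (hP hv)).2
    rw [mem_insert, not_or] at h1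
    exact ⟨h1.2, h1.1⟩
  have hj : 1 ≤ J.card := card_pos.mpr ⟨o1, ho1⟩
  have hcomp := g3_compl (used C J S o)
  by_cases hP2 : J.card + 2 ≤ P.card
  · have hempty : (univ \ used C J S o).filter (fun i => ∀ v ∈ P, i ∈ used C J S v) = ∅ := by
      rw [eq_empty_iff_forall_notMem]
      intro i hi
      have hi2 := (mem_filter.mp hi).2
      have h1 := used_few hC hS i
      have h2 : P ⊆ univ.filter (fun v => v ∉ J ∧ i ∈ used C J S v) := by
        intro w hw
        exact mem_filter.mpr ⟨mem_univ w, (hPmem w hw).1, hi2 w hw⟩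
      have h3 := card_le_card h2
      omega
    have h4 : (used C J S o).card ≤ (C o).card + ∑ u ∈ J, h o u := by
      unfold used
      refine (card_union_le _ _).trans (Nat.add_le_add_left ?_ _)
      refine card_biUnion_le.trans (le_of_eq ?_)
      refine sum_congr rfl fun u hu => ?_
      rw [hS.card, if_pos (Or.inr hu)]
    have h5 : ∑ v ∈ P, h o v + ∑ u ∈ J, h o u ≤ ∑ v, h o v := by
      have hd : Disjoint P J := by
        rw [disjoint_left]
        intro w hw hwJ
        exact (hPmem w hw).1 hwJ
      rw [← sum_union hd]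
      exact sum_le_univ_sum_of_nonneg (fun _ => Nat.zero_le _)
    have h6 := hdeg o
    rw [hempty, card_empty]
    omega
  · have huo := used_card hS hμ o
    have huv := used_card hS hμ v
    have hfv : ((univ \ used C J S o).filter (fun i => ∀ v ∈ P, i ∈ used C J S v)).card ≤
        (used C J S v).card := by
      apply card_le_card
      intro i hi
      exact (mem_filter.mp hi).2 v hv
    have hsum : ∑ v ∈ P, h o v ≤ (J.card + 1) * μ := by
      have h1 := sum_le_card_nsmul P (fun v => h o v) μ (fun v _ => hμ o v)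
      rw [smul_eq_mul] at h1
      exact h1.trans (Nat.mul_le_mul_right μ (by omega))
    have hco := order_sum hC hmax ho1 ho (fun u hu hne => hord o ho u hu hne)
    have hvJ := (hPmem v hv).1
    have hvo := (hPmem v hv).2
    have hcv := order_sum hC hmax (J := insert o J) (mem_insert_of_mem ho1) (o := v) (by
        rw [mem_insert, not_or]
        exact ⟨hvo, hvJ⟩) (fun u hu hne => by
          rcases mem_insert.mp hu with h3 | h3
          · rw [h3]
            exact homax v hvJ
          · exact hord v hvJ u h3 hne)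
    rw [card_insert_of_notMem ho] at hcv
    have hco2 : 2 * (C o).card ≤ (J.card + 1) * (C o).card :=
      Nat.mul_le_mul_right _ (by omega)
    have hcv3 : 3 * (C v).card ≤ (J.card + 1 + 1) * (C v).card :=
      Nat.mul_le_mul_right _ (by omega)
    have e1 : (J.card + 1) * μ + J.card * μ + J.card * μ ≤ (3 * s + 1) * μ := by
      rw [← add_mul, ← add_mul]
      exact Nat.mul_le_mul_right μ (by omega)
    omega

theorem stars {h : V → V → ℕ} (hsym : ∀ u v, h u v = h v u) (hdiag : ∀ v, h v v = 0)
    {C : V → Finset ι} (hC : ∀ u v, u ≠ v → Disjoint (C u) (C v)) {μ κ s : ℕ}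
    (hμ : ∀ u v, h u v ≤ μ) {o1 : V} (hmax : ∀ v, (C v).card ≤ (C o1).card + κ)
    (h1 : ∀ v, v ≠ o1 → h o1 v + (C o1).card + (C v).card ≤ Fintype.card ι)
    (hdeg : ∀ v, ∑ u, h v u + (C v).card ≤ Fintype.card ι)
    (num : 6 * ((3 * s + 1) * μ + κ) ≤ Fintype.card ι) :
    ∀ j : ℕ, j ≤ s + 1 → j ≤ Fintype.card V → ∃ (J : Finset V) (S : V → V → Finset ι),
      J.card = j ∧ PartCol h C J S ∧ (1 ≤ j → o1 ∈ J) ∧
      ∀ v, v ∉ J → ∀ u ∈ J, u ≠ o1 → (C v).card ≤ (C u).card := by
  intro j
  induction j with
  | zero =>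
    intro _ _
    refine ⟨∅, fun _ _ => ∅, card_empty, ?_, fun h => absurd h (by norm_num), ?_⟩
    · exact ⟨fun _ _ => rfl, fun u v => by simp, fun _ _ => disjoint_empty_left _,
        fun _ _ _ _ => disjoint_empty_left _⟩
    · intro v _ u hu
      exact absurd hu (notMem_empty u)
  | succ j ih =>
    intro hjs hj
    obtain ⟨J, S, hJc, hS, hJo, hord⟩ := ih (by omega) (by omega)
    rcases Nat.eq_zero_or_pos j with rfl | hj0
    · have hJ : J = ∅ := card_eq_zero.mp hJc
      subst hJ
      have hused : ∀ v, used C ∅ S v = C v := by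
        intro v
        unfold used
        rw [biUnion_empty, union_empty]
      obtain ⟨S', hS'⟩ := add_vertex hsym hdiag hS (notMem_empty o1) (fun P hP hPne => by
        obtain ⟨v, hv⟩ := hPne
        have hvo : v ≠ o1 := by
          intro h3
          have h4 := (mem_sdiff.mp (hP hv)).2
          rw [h3] at h4
          exact h4 (mem_insert_self _ _)
        simp only [hused]
        have hcomp := g3_compl (C o1)
        by_cases hP2 : P.card = 1
        · obtain ⟨w, hw⟩ := card_eq_one.mp hP2
          have hvw : v = w := by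
            rw [hw] at hv
            exact mem_singleton.mp hv
          have h3 : ((univ \ C o1).filter (fun i => ∀ v ∈ P, i ∈ C v)).card ≤ (C v).card := by
            apply card_le_card
            intro i hi
            exact (mem_filter.mp hi).2 v hv
          have h4 := h1 v hvo
          rw [hw, sum_singleton, ← hvw]
          rw [hw, ← hvw] at h3
          omega
        · have hP1 : 1 ≤ P.card := card_pos.mpr ⟨v, hv⟩
          obtain ⟨v', hv', hne⟩ := exists_mem_ne (show 1 < P.card by omega) v
          have h3 : (univ \ C o1).filter (fun i => ∀ v ∈ P, i ∈ C v) = ∅ := by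
            rw [eq_empty_iff_forall_notMem]
            intro i hi
            have h4 := (mem_filter.mp hi).2 v hv
            have h5 := (mem_filter.mp hi).2 v' hv'
            exact disjoint_left.mp (hC v' v hne) h5 h4
          have h4 : ∑ v ∈ P, h o1 v ≤ ∑ v, h o1 v :=
            sum_le_univ_sum_of_nonneg (fun _ => Nat.zero_le _)
          have h5 := hdeg o1
          rw [h3, card_empty]
          omega)
      refine ⟨insert o1 ∅, S', ?_, hS', fun _ => mem_insert_self _ _, ?_⟩
      · rw [card_insert_of_notMem (notMem_empty _), card_empty]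
      · intro v _ u hu hne
        rw [insert_empty_eq, mem_singleton] at hu
        exact absurd hu hne
    · have ho1 := hJo hj0
      obtain ⟨o, ho, homax⟩ := exists_max_image (univ \ J) (fun v => (C v).card) (card_pos.mp (by
        have h3 : (univ \ J).card + J.card = Fintype.card V := by
          rw [card_sdiff_add_card_eq_card (subset_univ _), card_univ]
        omega))
      have ho' : o ∉ J := (mem_sdiff.mp ho).2
      have homax' : ∀ v, v ∉ J → (C v).card ≤ (C o).card := fun v hv =>
        homax v (mem_sdiff.mpr ⟨mem_univ v, hv⟩)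
      obtain ⟨S', hS'⟩ := add_vertex hsym hdiag hS ho' (fun P hP hPne =>
        g2u_step hC hμ hmax hdeg num hS ho1 (by omega) hord ho' homax' hP hPne)
      refine ⟨insert o J, S', by rw [card_insert_of_notMem ho', hJc], hS',
        fun _ => mem_insert_of_mem ho1, ?_⟩
      intro v hv u hu hne
      rw [mem_insert, not_or] at hv
      rcases mem_insert.mp hu with h3 | h3
      · rw [h3]
        exact homax' v hv.2
      · exact hord v hv.2 u h3 hne

end Pool.Agent.H44U
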