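import Pool.Agent.Lib.H44U.G1

/-!
# Chunk G3 (M): colouring the rest with sums modulo `q`

* `equi`: for every `κ` number the indices `i` with `b i = κ` by `0, 1, ..., a - 1` (`Finset.equivFin` or `Fintype.equivFin` of the subtype) and let `c i` = number modulo `q`. For every `t < q` the numbers `t, t + q, ...` below `a` are at least `⌊a / q⌋` many.
* `rest`: `q = card V`; if `q = 0` there is nothing (`V` is empty). `b i := {v | v ∉ J ∧ i ∈ used C J S v}` (a `Finset V`), `c` from `equi`, `φ : V ≃ Fin q` (`Fintype.equivFin`), `S' u v := S u v` if `u ∈ J` or `v ∈ J`; `∅` if `u = v`; otherwise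
  the `i` with `i ∉ used u`, `i ∉ used v`, `c i = φ u + φ v` (addition in `Fin q`, which is a commutative group as `q > 0`; cancellation: `φ u + φ v = φ u + φ v'` gives `v = v'`).
  Count for `u ≠ v` not in `J`: the colours not used at `u` and `v` are at least `|ι| - 2 U`; they are the union over the sets `κ` (at most `2 ^ q`) with `u, v ∉ κ` of the classes `b i = κ`, so `|ι| - 2 U ≤ q (|S' u v| + 2 ^ q)`; with `num`: `μ ≤ |S' u v|`.
  Disjointness of `S' u v`, `S' u v'` for `v ≠ v'`: if `u ∈ J`: `prop`; if `v ∈ J`, `u, v' ∉ J`: `S u v ⊆ used u`; if none is in `J`: cancellation.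
-/

namespace Pool.Agent.H44U

open Finset Pool.Agent.H44O Pool.Agent.H44T
open scoped Classical

variable {V ι : Type*} [Fintype V] [Fintype ι]

theorem equi {K : Type*} (b : ι → K) {q : ℕ} (hq : 0 < q) :
    ∃ c : ι → Fin q, ∀ (κ : K) (t : Fin q), (univ.filter (fun i => b i = κ)).card ≤
      q * ((univ.filter (fun i => b i = κ ∧ c i = t)).card + 1) := by
  let e : ∀ κ, {i // b i = κ} ≃ Fin (Fintype.card {i // b i = κ}) := fun κ => Fintype.equivFin _
  have he : ∀ i κ (h : b i = κ), (e (b i) ⟨i, rfl⟩ : ℕ) = e κ ⟨i, h⟩ := by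
    intro i κ h
    subst h
    rfl
  refine ⟨fun i => ⟨(e (b i) ⟨i, rfl⟩ : ℕ) % q, Nat.mod_lt _ hq⟩, fun κ t => ?_⟩
  have ha' : (univ.filter (fun i => b i = κ)).card = Fintype.card {i // b i = κ} :=
    (Fintype.card_subtype _).symm
  rw [ha']
  set a := Fintype.card {i // b i = κ} with ha
  have h1 : a / q ≤ (univ.filter (fun i => b i = κ ∧
      (⟨(e (b i) ⟨i, rfl⟩ : ℕ) % q, Nat.mod_lt _ hq⟩ : Fin q) = t)).card := by
    have hlt : ∀ m : Fin (a / q), (t : ℕ) + m * q < a := by
      intro m
      have h2 : ((m : ℕ) + 1) * q ≤ a :=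
        (Nat.mul_le_mul_right _ m.2).trans (Nat.div_mul_le_self a q)
      have := t.2
      nlinarith
    let g : Fin (a / q) → ι := fun m => ((e κ).symm ⟨t + m * q, hlt m⟩ : {i // b i = κ})
    have hg : Function.Injective g := by
      intro m m' h
      have h3 := (e κ).symm.injective (Subtype.ext h)
      have h4 : (t : ℕ) + m * q = t + m' * q := congrArg Fin.val h3
      exact Fin.ext (Nat.eq_of_mul_eq_mul_right hq (by omega))
    have h5 : (univ : Finset (Fin (a / q))).card = a / q := by simp
    rw [← h5]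
    refine card_le_card_of_injOn g (fun m _ => ?_) hg.injOn
    rw [mem_coe, mem_filter]
    refine ⟨mem_univ _, ((e κ).symm _).2, Fin.ext ?_⟩
    show (e (b (g m)) ⟨g m, rfl⟩ : ℕ) % q = t
    rw [he (g m) κ ((e κ).symm ⟨t + m * q, hlt m⟩).2]
    have h6 : e κ ⟨g m, ((e κ).symm ⟨t + m * q, hlt m⟩).2⟩ = ⟨t + m * q, hlt m⟩ :=
      (e κ).apply_symm_apply _
    rw [h6]
    show ((t : ℕ) + m * q) % q = t
    rw [Nat.add_mul_mod_self_right, Nat.mod_eq_of_lt t.2]
  have h2 : a < q * (a / q + 1) := Nat.lt_mul_div_succ a hq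
  exact h2.le.trans (Nat.mul_le_mul_left _ (Nat.add_le_add_right h1 1))

theorem g3_count {C : V → Finset ι} {J : Finset V} {S : V → V → Finset ι} {μ U q : ℕ}
    (hU : ∀ v, v ∉ J → (used C J S v).card ≤ U)
    (num : q * (μ + 2 ^ q) + 2 * U ≤ Fintype.card ι) (hq : 0 < q)
    {K : Type*} [Fintype K] (hK : Fintype.card K = 2 ^ q) (M : V → K → Prop) (b : ι → K)
    (hb : ∀ i v, M v (b i) ↔ v ∉ J ∧ i ∈ used C J S v) (c : ι → Fin q)
    (hc : ∀ (κ : K) (t : Fin q), (univ.filter (fun i => b i = κ)).card ≤
      q * ((univ.filter (fun i => b i = κ ∧ c i = t)).card + 1))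
    {u v : V} (hu : u ∉ J) (hv : v ∉ J) (t : Fin q) :
    μ ≤ (univ.filter (fun i => i ∉ used C J S u ∧ i ∉ used C J S v ∧ c i = t)).card := by
  set F : Finset ι := univ.filter (fun i => i ∉ used C J S u ∧ i ∉ used C J S v) with hF
  set T : Finset ι := univ.filter (fun i => i ∉ used C J S u ∧ i ∉ used C J S v ∧ c i = t) with hT
  have h1 : Fintype.card ι ≤ F.card + 2 * U := by
    have h2 : (univ : Finset ι) ⊆ F ∪ (used C J S u ∪ used C J S v) := by
      intro i _
      simp only [mem_union, hF, mem_filter, mem_univ, true_and]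
      tauto
    have h3 := (card_le_card h2).trans ((card_union_le _ _).trans
      (Nat.add_le_add_left (card_union_le _ _) _))
    rw [card_univ] at h3
    have h4 := hU u hu
    have h5 := hU v hv
    omega
  have h2 : F.card = ∑ κ : K, (F.filter (fun i => b i = κ)).card :=
    card_eq_sum_card_fiberwise (fun i _ => by simp)
  have h3 : T.card = ∑ κ : K, (T.filter (fun i => b i = κ)).card :=
    card_eq_sum_card_fiberwise (fun i _ => by simp)
  have h4 : ∀ κ : K, (F.filter (fun i => b i = κ)).card ≤
      q * ((T.filter (fun i => b i = κ)).card + 1) := by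
    intro κ
    rcases (F.filter (fun i => b i = κ)).eq_empty_or_nonempty with he | ⟨i0, hi0⟩
    · rw [he, card_empty]
      exact Nat.zero_le _
    · rw [mem_filter, hF, mem_filter] at hi0
      obtain ⟨⟨-, hi1, hi2⟩, hi3⟩ := hi0
      have huκ : ¬ M u κ := by
        rw [← hi3, hb]
        exact fun h => hi1 h.2
      have hvκ : ¬ M v κ := by
        rw [← hi3, hb]
        exact fun h => hi2 h.2
      have h5 : (F.filter (fun i => b i = κ)).card ≤ (univ.filter (fun i => b i = κ)).card :=
        card_le_card (filter_subset_filter _ (subset_univ _))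
      have h6 : (univ.filter (fun i => b i = κ ∧ c i = t)).card ≤
          (T.filter (fun i => b i = κ)).card := by
        apply card_le_card
        intro i hi
        rw [mem_filter] at hi
        obtain ⟨-, hi4, hi5⟩ := hi
        rw [mem_filter, hT, mem_filter]
        refine ⟨⟨mem_univ _, ?_, ?_, hi5⟩, hi4⟩
        · intro h
          apply huκ
          rw [← hi4, hb]
          exact ⟨hu, h⟩
        · intro h
          apply hvκ
          rw [← hi4, hb]
          exact ⟨hv, h⟩
      exact h5.trans ((hc κ t).trans (Nat.mul_le_mul_left _ (Nat.add_le_add_right h6 1)))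
  have h5 : F.card ≤ q * (T.card + 2 ^ q) := by
    calc F.card = ∑ κ : K, (F.filter (fun i => b i = κ)).card := h2
      _ ≤ ∑ κ : K, q * ((T.filter (fun i => b i = κ)).card + 1) :=
        sum_le_sum (fun κ _ => h4 κ)
      _ = q * (T.card + 2 ^ q) := by
        rw [← mul_sum, sum_add_distrib, ← h3, sum_const, card_univ, hK, smul_eq_mul, mul_one]
  have h6 : q * (μ + 2 ^ q) ≤ q * (T.card + 2 ^ q) := by omega
  have h7 := Nat.le_of_mul_le_mul_left h6 hq
  omega

theorem rest {h : V → V → ℕ} (hsym : ∀ u v, h u v = h v u) (hdiag : ∀ v, h v v = 0)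
    {C : V → Finset ι} {J : Finset V} {S : V → V → Finset ι} (hS : PartCol h C J S) {μ U : ℕ}
    (hμ : ∀ u v, h u v ≤ μ) (hU : ∀ v, v ∉ J → (used C J S v).card ≤ U)
    (num : Fintype.card V * (μ + 2 ^ Fintype.card V) + 2 * U ≤ Fintype.card ι) :
    ∃ S' : V → V → Finset ι, (∀ u v, S' u v = S' v u) ∧ (∀ u v, h u v ≤ (S' u v).card) ∧
      (∀ u v, Disjoint (S' u v) (C u)) ∧ (∀ u, S' u u = ∅) ∧
      ∀ u v v', v ≠ v' → Disjoint (S' u v) (S' u v') := by
  rcases Nat.eq_zero_or_pos (Fintype.card V) with h0 | hq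
  · have : IsEmpty V := Fintype.card_eq_zero_iff.mp h0
    exact ⟨fun _ _ => ∅, fun u => isEmptyElim u, fun u => isEmptyElim u, fun u => isEmptyElim u,
      fun u => isEmptyElim u, fun u => isEmptyElim u⟩
  have : NeZero (Fintype.card V) := ⟨hq.ne'⟩
  obtain ⟨c, hc⟩ := equi (fun i => univ.filter (fun v => v ∉ J ∧ i ∈ used C J S v)) hq
  let φ : V ≃ Fin (Fintype.card V) := Fintype.equivFin V
  have hsub : ∀ u v, v ∈ J → S u v ⊆ used C J S u := by
    intro u v hv
    unfold used
    exact (subset_biUnion_of_mem (fun w => S u w) hv).trans subset_union_right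
  have hCu : ∀ u, C u ⊆ used C J S u := fun u => subset_union_left
  refine ⟨fun u v => if u ∈ J ∨ v ∈ J then S u v else if u = v then ∅ else
    univ.filter (fun i => i ∉ used C J S u ∧ i ∉ used C J S v ∧ c i = φ u + φ v), ?_, ?_, ?_, ?_, ?_⟩
  · intro u v
    by_cases h1 : u ∈ J ∨ v ∈ J
    · simp only [if_pos h1, if_pos h1.symm]
      exact hS.symm u v
    · simp only [if_neg h1, if_neg (fun h => h1 (Or.symm h))]
      by_cases h2 : u = v
      · rw [if_pos h2, if_pos h2.symm]
      · rw [if_neg h2, if_neg (Ne.symm h2)]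
        apply filter_congr
        intro i _
        rw [add_comm (φ u)]
        tauto
  · intro u v
    by_cases h1 : u ∈ J ∨ v ∈ J
    · simp only [if_pos h1]
      rw [hS.card, if_pos h1]
    · simp only [if_neg h1]
      by_cases h2 : u = v
      · rw [h2, hdiag]
        exact Nat.zero_le _
      · rw [if_neg h2]
        push Not at h1
        exact (hμ u v).trans (g3_count hU num hq (K := Finset V) Fintype.card_finset
          (fun v κ => v ∈ κ) _ (fun i v => by rw [mem_filter]; simp) c hc h1.1 h1.2 (φ u + φ v))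
  · intro u v
    by_cases h1 : u ∈ J ∨ v ∈ J
    · simp only [if_pos h1]
      exact hS.forb u v
    · simp only [if_neg h1]
      by_cases h2 : u = v
      · rw [if_pos h2]
        exact disjoint_empty_left _
      · rw [if_neg h2, disjoint_left]
        intro i hi hi'
        rw [mem_filter] at hi
        exact hi.2.1 (hCu u hi')
  · intro u
    by_cases h1 : u ∈ J
    · have h2 : u ∈ J ∨ u ∈ J := Or.inl h1
      simp only [if_pos h2]
      have h3 := hS.card u u
      rw [if_pos h2, hdiag] at h3
      exact card_eq_zero.mp h3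
    · have h2 : ¬ (u ∈ J ∨ u ∈ J) := by tauto
      simp only [if_neg h2, if_true]
  · intro u v v' hvv
    by_cases h1 : u ∈ J
    · simp only [if_pos (Or.inl h1 : u ∈ J ∨ v ∈ J), if_pos (Or.inl h1 : u ∈ J ∨ v' ∈ J)]
      exact hS.prop u v v' hvv
    · -- the second set consists of colours unused at u
      have key : ∀ w w', w ∈ J → w' ∉ J → Disjoint (S u w) (if u = w' then (∅ : Finset ι) else
          univ.filter (fun i => i ∉ used C J S u ∧ i ∉ used C J S w' ∧ c i = φ u + φ w')) := by
        intro w w' hw hw'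
        split_ifs with h2
        · exact disjoint_empty_right _
        · rw [disjoint_left]
          intro i hi hi'
          rw [mem_filter] at hi'
          exact hi'.2.1 (hsub u w hw hi)
      by_cases h2 : v ∈ J
      · by_cases h3 : v' ∈ J
        · simp only [if_pos (Or.inr h2 : u ∈ J ∨ v ∈ J), if_pos (Or.inr h3 : u ∈ J ∨ v' ∈ J)]
          exact hS.prop u v v' hvv
        · have h4 : ¬ (u ∈ J ∨ v' ∈ J) := by tauto
          simp only [if_pos (Or.inr h2 : u ∈ J ∨ v ∈ J), if_neg h4]
          exact key v v' h2 h3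
      · have h5 : ¬ (u ∈ J ∨ v ∈ J) := by tauto
        by_cases h3 : v' ∈ J
        · simp only [if_neg h5, if_pos (Or.inr h3 : u ∈ J ∨ v' ∈ J)]
          exact (key v' v h3 h2).symm
        · have h4 : ¬ (u ∈ J ∨ v' ∈ J) := by tauto
          simp only [if_neg h5, if_neg h4]
          by_cases h6 : u = v
          · rw [if_pos h6]
            exact disjoint_empty_left _
          · by_cases h7 : u = v'
            · rw [if_pos h7]
              exact disjoint_empty_right _
            · rw [if_neg h6, if_neg h7, disjoint_left]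
              intro i hi hi'
              rw [mem_filter] at hi hi'
              have h8 := hi.2.2.2.symm.trans hi'.2.2.2
              exact hvv (φ.injective (add_left_cancel h8))

end Pool.Agent.H44U
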