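import Pool.Agent.Lib.H44U.G2
import Pool.Agent.Lib.H44U.G3

/-!
# Chunk G4 (S/M): colouring the outside

Let `q = card V`. `q ≤ s + 1`: `stars` with `j = q`: `J = univ`, take `S' = S` (`card` gives `|S u v| = h u v`, `S u u = ∅`). Otherwise `stars` with `j = s + 1`; for `v ∉ J`: `(s + 2) |C v| ≤ |ι| + κ` (`order_sum`), so
`|used v| ≤ (|ι| + κ) / (s + 2) + (s + 1) μ =: U` (`used_card`, natural division) and `rest` (`num2` divided by `s + 2`).
-/

namespace Pool.Agent.H44U

open Finset Pool.Agent.H44O Pool.Agent.H44T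
open scoped Classical

variable {V ι : Type*} [Fintype V] [Fintype ι]

theorem outsideU {h : V → V → ℕ} (hsym : ∀ u v, h u v = h v u) (hdiag : ∀ v, h v v = 0)
    {C : V → Finset ι} (hC : ∀ u v, u ≠ v → Disjoint (C u) (C v)) {μ κ s : ℕ}
    (hμ : ∀ u v, h u v ≤ μ) {o1 : V} (hmax : ∀ v, (C v).card ≤ (C o1).card + κ)
    (h1 : ∀ v, v ≠ o1 → h o1 v + (C o1).card + (C v).card ≤ Fintype.card ι)
    (hdeg : ∀ v, ∑ u, h v u + (C v).card ≤ Fintype.card ι)
    (num1 : 6 * ((3 * s + 1) * μ + κ) ≤ Fintype.card ι)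
    (num2 : (s + 2) * (Fintype.card V * (μ + 2 ^ Fintype.card V)) + 2 * (Fintype.card ι + κ) +
      2 * (s + 1) * (s + 2) * μ ≤ (s + 2) * Fintype.card ι) :
    ∃ S' : V → V → Finset ι, (∀ u v, S' u v = S' v u) ∧ (∀ u v, h u v ≤ (S' u v).card) ∧
      (∀ u v, Disjoint (S' u v) (C u)) ∧ (∀ u, S' u u = ∅) ∧
      ∀ u v v', v ≠ v' → Disjoint (S' u v) (S' u v') := by
  rcases Nat.lt_or_ge (Fintype.card V) (s + 1) with hq | hq
  · obtain ⟨J, S, hJ, hS, -, -⟩ := stars hsym hdiag hC hμ hmax h1 hdeg num1 (Fintype.card V)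
      hq.le le_rfl
    have hJu : ∀ v, v ∈ J := by
      intro v
      rw [(Finset.card_eq_iff_eq_univ J).1 hJ]
      exact mem_univ v
    have hcard : ∀ u v, (S u v).card = h u v := by
      intro u v
      rw [hS.card, if_pos (Or.inl (hJu u))]
    refine ⟨S, hS.symm, fun u v => (hcard u v).ge, hS.forb, ?_, hS.prop⟩
    intro u
    rw [← Finset.card_eq_zero, hcard, hdiag]
  · obtain ⟨J, S, hJ, hS, hJ1, hord⟩ := stars hsym hdiag hC hμ hmax h1 hdeg num1 (s + 1)
      le_rfl hq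
    have ho1 : o1 ∈ J := hJ1 (by omega)
    have hs : 0 < s + 2 := by omega
    refine rest (U := (Fintype.card ι + κ) / (s + 2) + (s + 1) * μ) hsym hdiag hS hμ ?_ ?_
    · intro v hv
      have e1 := used_card hS hμ v
      have e2 := order_sum hC hmax ho1 hv (hord v hv)
      rw [hJ] at e1 e2
      have e3 : (C v).card ≤ (Fintype.card ι + κ) / (s + 2) := by
        rw [Nat.le_div_iff_mul_le hs]
        calc (C v).card * (s + 2) = (s + 1 + 1) * (C v).card := by ring
          _ ≤ _ := e2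
      omega
    · refine Nat.le_of_mul_le_mul_left ?_ hs
      have e4 : (s + 2) * ((Fintype.card ι + κ) / (s + 2)) ≤ Fintype.card ι + κ :=
        Nat.mul_div_le _ _
      have e5 : (s + 2) * (Fintype.card V * (μ + 2 ^ Fintype.card V) +
          2 * ((Fintype.card ι + κ) / (s + 2) + (s + 1) * μ)) =
          (s + 2) * (Fintype.card V * (μ + 2 ^ Fintype.card V)) +
          2 * ((s + 2) * ((Fintype.card ι + κ) / (s + 2))) + 2 * (s + 1) * (s + 2) * μ := by
        ring
      rw [e5]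
      omega

end Pool.Agent.H44U
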