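import Mathlib

/-!
# Chunk H1 (M): the numerical facts (pure integer arithmetic)

`n = m + q`, `n ≥ 100 (t + 1) ^ 2`, `t ≥ 3`, `(t + 1) (n + 1) (100 (k + L + 1) + 2 ^ n) ≤ μ`, `t μ n + 4 r ≤ 2 t r`, `r ≤ μ m + k`. Put `P = μ n`, `Q = q μ` (so `μ m = P - Q`).
* `r ≥ 0` (`(2 t - 4) r ≥ 0`), `P ≤ 2 r`, so `50 (t + 1) ^ 2 μ ≤ r`.
* small quantities: `100 (t + 1) (n + 1) (k + L + 1) ≤ μ`, so `t K n`, `t K`, `K n`, `K` for `K = k, L` are at most `μ / 100`; `(t + 1) (n + 1) 2 ^ n ≤ μ`.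
* `key`: `t Q = t P - t μ m ≤ (2 t - 4) r - t r + t k = (t - 4) r + t k`, so `t (r - Q) ≥ 4 r - t k` and `r - Q ≥ -k`.
* `num_m`: `P ≤ 2 r ≤ 2 μ m + 2 k < 2 μ m + μ`, so `n ≤ 2 m`.
* `num_1`: `t μ n ≤ (2 t - 4) r` and `t μ (4 t + 10) + 2 t K n + 2 (t - 1) k ≤ 2 r`.
* `num_2`, `num_4`, `num_b`: from `50 (t + 1) ^ 2 μ ≤ r`.
* `num_3`: `(t + 1) (r - k - Q) = t (r - Q) + (r - Q) - (t + 1) k ≥ 4 r - (2 t + 2) k > r + 2 k`.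
* `num_a`: `(t + 2) Q = t Q + 2 Q ≤ (t - 4) r + t k + 2 (r + k)`; it remains
  `2 (t + 2) k + (t + 2) q 2 ^ q + 2 k n + 2 (t + 1) (t + 2) μ ≤ 2 r` (`q ≤ n`, `(t + 2) q 2 ^ q ≤ 2 (t + 1) n 2 ^ n ≤ 2 μ`).
-/

namespace Pool.Agent.H44U

/-- the numerical situation -/
structure NumU (n m q μ k L t : ℕ) (r : ℤ) : Prop where
  /-- order -/
  nbig : 100 * (t + 1) ^ 2 ≤ n
  /-- epsilon -/
  tpos : 3 ≤ t
  /-- outside -/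
  nmq : n = m + q
  /-- multiplicity -/
  mubig : (t + 1) * (n + 1) * (100 * (k + L + 1) + 2 ^ n) ≤ μ
  /-- degree -/
  rbig : (t : ℤ) * (μ * n) + 4 * r ≤ 2 * t * r
  /-- inside -/
  rm : r ≤ μ * m + k

theorem h1u_P {n m q μ k L t : ℕ} {r : ℤ} (h : NumU n m q μ k L t r) :
    0 ≤ r ∧ (μ : ℤ) * n ≤ 2 * r ∧
      50 * ((t : ℤ) * t * μ) + 100 * ((t : ℤ) * μ) + 50 * (μ : ℤ) ≤ r := by
  have ht : (3 : ℤ) ≤ t := by exact_mod_cast h.tpos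
  have hmu : (0 : ℤ) ≤ μ := Int.natCast_nonneg μ
  have hP : (0 : ℤ) ≤ (μ : ℤ) * n := by positivity
  have hn : 100 * ((t : ℤ) + 1) ^ 2 ≤ n := by exact_mod_cast h.nbig
  have h1 := h.rbig
  have htP : 0 ≤ (t : ℤ) * (μ * n) := by positivity
  have h0 : 0 ≤ r := by
    by_contra hneg
    push Not at hneg
    nlinarith
  have h2 : (μ : ℤ) * n ≤ 2 * r := by
    have h3 : (t : ℤ) * ((μ : ℤ) * n) ≤ t * (2 * r) := by linarith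
    exact le_of_mul_le_mul_left h3 (by linarith)
  refine ⟨h0, h2, ?_⟩
  have h3 := mul_le_mul_of_nonneg_left hn hmu
  nlinarith

theorem h1u_small {n m q μ k L t : ℕ} {r : ℤ} (h : NumU n m q μ k L t r) :
    100 * ((t : ℤ) * k * n) + 100 * ((t : ℤ) * L * n) + 100 * ((t : ℤ) * k) +
      100 * ((t : ℤ) * L) + 100 * ((k : ℤ) * n) + 100 * ((L : ℤ) * n) + 100 * (k : ℤ) +
      100 * (L : ℤ) + 100 + ((t : ℤ) + 1) * ((n : ℤ) + 1) * 2 ^ n ≤ μ := by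
  have h1 : ((t : ℤ) + 1) * ((n : ℤ) + 1) * (100 * ((k : ℤ) + L + 1) + 2 ^ n) ≤ μ := by
    exact_mod_cast h.mubig
  have hn : (0 : ℤ) ≤ n := Int.natCast_nonneg n
  have ht : (0 : ℤ) ≤ t := Int.natCast_nonneg t
  have htn : (0 : ℤ) ≤ (t : ℤ) * n := by positivity
  nlinarith

theorem h1u_key {n m q μ k L t : ℕ} {r : ℤ} (h : NumU n m q μ k L t r) :
    (t : ℤ) * ((q : ℤ) * μ) ≤ (t - 4) * r + t * k ∧ (q : ℤ) * μ ≤ r + k := by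
  have h1 : (n : ℤ) = m + q := by exact_mod_cast h.nmq
  have h2 := h.rm
  have h3 := h.rbig
  have ht : (3 : ℤ) ≤ t := by exact_mod_cast h.tpos
  obtain ⟨h0, -, -⟩ := h1u_P h
  have h4 : (q : ℤ) * μ ≤ μ * n - r + k := by
    rw [h1]
    linarith
  have h5 := mul_le_mul_of_nonneg_left h4 (by linarith : (0 : ℤ) ≤ t)
  have h6 : (t : ℤ) * ((q : ℤ) * μ) ≤ (t - 4) * r + t * k := by linarith
  refine ⟨h6, ?_⟩
  have h7 : (t : ℤ) * ((q : ℤ) * μ) ≤ t * (r + k) := by linarith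
  exact le_of_mul_le_mul_left h7 (by linarith)

/-- all nonnegativity facts -/
theorem h1u_nn (n k L t μ : ℕ) :
    (0 : ℤ) ≤ (t : ℤ) * k * n ∧ (0 : ℤ) ≤ (t : ℤ) * L * n ∧ (0 : ℤ) ≤ (t : ℤ) * k ∧
    (0 : ℤ) ≤ (t : ℤ) * L ∧ (0 : ℤ) ≤ (k : ℤ) * n ∧ (0 : ℤ) ≤ (L : ℤ) * n ∧ (0 : ℤ) ≤ (k : ℤ) ∧
    (0 : ℤ) ≤ (L : ℤ) ∧ (0 : ℤ) ≤ ((t : ℤ) + 1) * ((n : ℤ) + 1) * 2 ^ n ∧
    (0 : ℤ) ≤ (t : ℤ) * t * μ ∧ (0 : ℤ) ≤ (t : ℤ) * μ ∧ (0 : ℤ) ≤ (μ : ℤ) := by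
  refine ⟨?_, ?_, ?_, ?_, ?_, ?_, ?_, ?_, ?_, ?_, ?_, ?_⟩ <;> positivity

theorem numU_m {n m q μ k L t : ℕ} {r : ℤ} (h : NumU n m q μ k L t r) : 4 * t + 40 ≤ m := by
  obtain ⟨a0, a1, a2⟩ := h1u_P h
  have b1 := h1u_small h
  obtain ⟨c1, c2, c3, c4, c5, c6, c7, c8, c9, c10, c11, c12⟩ := h1u_nn n k L t μ
  have h2 := h.rm
  have hmu : (0 : ℤ) < μ := by linarith
  have h5 : (μ : ℤ) * n < μ * (2 * m + 1) := by linarith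
  have h6 : (n : ℤ) < 2 * m + 1 := lt_of_mul_lt_mul_left h5 hmu.le
  have h7 := h.nbig
  have h8 := h.tpos
  have h9 : 100 * (t + 1) ^ 2 = 100 * (t * t) + 200 * t + 100 := by ring
  rw [h9] at h7
  have h10 : 3 * 3 ≤ t * t := Nat.mul_le_mul h8 h8
  omega

theorem numU_mu {n m q μ k L t : ℕ} {r : ℤ} (h : NumU n m q μ k L t r) :
    2 * k + 1 ≤ μ ∧ 0 ≤ r - k := by
  obtain ⟨a0, a1, a2⟩ := h1u_P h
  have b1 := h1u_small h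
  obtain ⟨c1, c2, c3, c4, c5, c6, c7, c8, c9, c10, c11, c12⟩ := h1u_nn n k L t μ
  constructor
  · have : 2 * (k : ℤ) + 1 ≤ μ := by linarith
    exact_mod_cast this
  · linarith

theorem numU_1 {n m q μ k L t : ℕ} {r : ℤ} (h : NumU n m q μ k L t r) :
    (t : ℤ) * μ * (n + 4 * t + 10) + 2 * t * k * n ≤ 2 * (t - 1) * r ∧
    (t : ℤ) * μ * (n + 4 * t + 10) + 2 * t * L * n ≤ 2 * (t - 1) * (r - k) := by
  obtain ⟨a0, a1, a2⟩ := h1u_P h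
  have b1 := h1u_small h
  obtain ⟨c1, c2, c3, c4, c5, c6, c7, c8, c9, c10, c11, c12⟩ := h1u_nn n k L t μ
  have h1 := h.rbig
  constructor <;> linarith

theorem numU_2 {n m q μ k L t : ℕ} {r : ℤ} (h : NumU n m q μ k L t r) :
    (6 * (t : ℤ) + 10) * μ + 2 * k * (n + t + 8) < r ∧
    (6 * (t : ℤ) + 6) * μ + 2 * L * n + L < r - k := by
  obtain ⟨a0, a1, a2⟩ := h1u_P h
  have b1 := h1u_small h
  obtain ⟨c1, c2, c3, c4, c5, c6, c7, c8, c9, c10, c11, c12⟩ := h1u_nn n k L t μ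
  constructor <;> linarith

theorem numU_3 {n m q μ k L t : ℕ} {r : ℤ} (h : NumU n m q μ k L t r) :
    r + 2 * k < ((t : ℤ) + 1) * (r - k - q * μ) := by
  obtain ⟨a0, a1, a2⟩ := h1u_P h
  have b1 := h1u_small h
  obtain ⟨c1, c2, c3, c4, c5, c6, c7, c8, c9, c10, c11, c12⟩ := h1u_nn n k L t μ
  obtain ⟨d1, d2⟩ := h1u_key h
  have e : ((t : ℤ) + 1) * (r - k - q * μ) =
      t * r - t * k - (t : ℤ) * ((q : ℤ) * μ) + (r - k - q * μ) := by ring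
  rw [e]
  linarith

theorem numU_a {n m q μ k L t : ℕ} {r : ℤ} (h : NumU n m q μ k L t r) :
    ((t : ℤ) + 2) * (q * (μ + 2 ^ q)) + 2 * ((r - k) + k * n) + 2 * (t + 1) * (t + 2) * μ ≤
      (t + 2) * (r - k) := by
  obtain ⟨a0, a1, a2⟩ := h1u_P h
  have b1 := h1u_small h
  obtain ⟨c1, c2, c3, c4, c5, c6, c7, c8, c9, c10, c11, c12⟩ := h1u_nn n k L t μ
  obtain ⟨d1, d2⟩ := h1u_key h
  have hqn : q ≤ n := by rw [h.nmq]; omega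
  have h1 : (q : ℤ) * 2 ^ q ≤ ((n : ℤ) + 1) * 2 ^ n := by
    have h2 : q * 2 ^ q ≤ (n + 1) * 2 ^ n :=
      Nat.mul_le_mul (by omega) (Nat.pow_le_pow_right (by norm_num) hqn)
    exact_mod_cast h2
  have ht0 : (0 : ℤ) ≤ t := Int.natCast_nonneg t
  have h3 : ((t : ℤ) + 2) * (q * 2 ^ q) ≤ 2 * (((t : ℤ) + 1) * ((n : ℤ) + 1) * 2 ^ n) := by
    have h4 : ((t : ℤ) + 2) * (q * 2 ^ q) ≤ ((t : ℤ) + 2) * (((n : ℤ) + 1) * 2 ^ n) :=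
      mul_le_mul_of_nonneg_left h1 (by linarith)
    have h5 : 0 ≤ ((n : ℤ) + 1) * 2 ^ n := by positivity
    have h6 : 0 ≤ (t : ℤ) * (((n : ℤ) + 1) * 2 ^ n) := by positivity
    linarith
  have e : ((t : ℤ) + 2) * (q * (μ + 2 ^ q)) =
      (t : ℤ) * ((q : ℤ) * μ) + 2 * (q * μ) + ((t : ℤ) + 2) * (q * 2 ^ q) := by ring
  rw [e]
  linarith

theorem numU_b {n m q μ k L t : ℕ} {r : ℤ} (h : NumU n m q μ k L t r) :
    6 * ((3 * (t : ℤ) + 1) * μ + k * n) ≤ r - k := by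
  obtain ⟨a0, a1, a2⟩ := h1u_P h
  have b1 := h1u_small h
  obtain ⟨c1, c2, c3, c4, c5, c6, c7, c8, c9, c10, c11, c12⟩ := h1u_nn n k L t μ
  linarith

end Pool.Agent.H44U
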