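import Pool.Agent.Lib.H44T.H8
import Pool.Agent.Lib.H44U.G4

/-!
# Chunk H8 (M): a full set with decomposed inner side

As `tight_cov` in `H44T/H8` with `outsideU` (`s = t`) instead of `outside`: `hdeg` of `outsideU`: `∑ u : {u // u ∉ W}, h v u + |C v| = ∑ c ∈ Wᶜ, x v c + din x W v = dg x v ≤ r` (`hout`). `glue_col` with `S'` directly.
(`tight_cov_empty` of `H44T/H8` can be used without change.)
-/

namespace Pool.Agent.H44U

open Finset Pool.Agent.H44O Pool.Agent.H44T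
open scoped Classical

variable {V : Type} [Fintype V]

theorem tight_covU {x : V → V → ℤ} (hx : IsW x) {r : ℤ} {W : Finset V}
    (hdeg : ∀ w ∈ W, dg x w ≤ r) (hins : inW x W = r * ((W.card : ℤ) - 1))
    (hdec : Dec (inn x r W)) {μ κ t : ℕ} (hμ : ∀ u v, x u v ≤ μ) {o : V} (ho : o ∉ W)
    (hmax : ∀ c, c ∉ W → din x W c ≤ din x W o + κ) (hout : ∀ v, v ∉ W → dg x v ≤ r)
    (h1 : ∀ c, c ∉ W → c ≠ o → din x W c + x o c + din x W o ≤ r)
    (ha : ((t : ℤ) + 2) * ((Wᶜ.card : ℕ) * (μ + 2 ^ Wᶜ.card)) + 2 * (r + κ) +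
      2 * (t + 1) * (t + 2) * μ ≤ (t + 2) * r)
    (hb : 6 * ((3 * (t : ℤ) + 1) * μ + κ) ≤ r) : Cov x r := by
  obtain ⟨ι, _, c, w, hcP, hcw, hin, hwc, hcard⟩ := ends_fam hins hdec
  obtain ⟨e, he1, he2⟩ := ends_out hx hdeg hwc
  subst hcard
  obtain ⟨h, hh⟩ : ∃ h : {v : V // v ∉ W} → {v : V // v ∉ W} → ℕ, ∀ u v, (h u v : ℤ) = x u v :=
    ⟨fun u v => (x u v).toNat, fun u v => Int.toNat_of_nonneg (hx.nonneg _ _)⟩
  obtain ⟨C, hCd⟩ : ∃ C : {v : V // v ∉ W} → Finset ι, ∀ v i, i ∈ C v ↔ e i = some v :=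
    ⟨fun v => univ.filter (fun i => e i = some v), fun v i => by
      rw [mem_filter]; exact ⟨fun t => t.2, fun t => ⟨mem_univ _, t⟩⟩⟩
  have hCc : ∀ v : {v : V // v ∉ W}, ((C v).card : ℤ) = din x W v := by
    intro v
    rw [← he2 v]
    have t : C v = univ.filter (fun i => e i = some v) := by
      ext i
      rw [hCd, mem_filter]
      exact ⟨fun t => ⟨mem_univ _, t⟩, fun t => t.2⟩
    rw [t]
  have hq : Fintype.card {v : V // v ∉ W} = Wᶜ.card := by
    rw [Fintype.card_subtype]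
    refine congrArg Finset.card ?_
    ext v
    rw [mem_filter, mem_compl]
    exact ⟨fun t => t.2, fun t => ⟨mem_univ _, t⟩⟩
  have hsym : ∀ u v, h u v = h v u := by
    intro u v
    have t : (h u v : ℤ) = h v u := by rw [hh, hh, hx.symm]
    exact_mod_cast t
  have hdiag : ∀ v, h v v = 0 := by
    intro v
    have t : (h v v : ℤ) = 0 := by rw [hh, hx.diag]
    exact_mod_cast t
  have hC : ∀ u v, u ≠ v → Disjoint (C u) (C v) := by
    intro u v huv
    rw [Finset.disjoint_left]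
    intro i hi hi'
    rw [hCd] at hi hi'
    exact huv (Option.some.inj (hi.symm.trans hi'))
  have hμ' : ∀ u v, h u v ≤ μ := by
    intro u v
    have t : (h u v : ℤ) ≤ μ := by rw [hh]; exact hμ _ _
    exact_mod_cast t
  have hmax' : ∀ v, (C v).card ≤ (C ⟨o, ho⟩).card + κ := by
    intro v
    have t : ((C v).card : ℤ) ≤ (C ⟨o, ho⟩).card + κ := by
      rw [hCc, hCc]
      exact hmax v v.2
    exact_mod_cast t
  have h1' : ∀ v, v ≠ ⟨o, ho⟩ → h ⟨o, ho⟩ v + (C ⟨o, ho⟩).card + (C v).card ≤ Fintype.card ι := by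
    intro v hv
    have t : (h ⟨o, ho⟩ v : ℤ) + (C ⟨o, ho⟩).card + (C v).card ≤ Fintype.card ι := by
      rw [hCc, hCc, hh]
      have t2 := h1 v v.2 (fun t3 => hv (Subtype.ext t3))
      have t4 : x (⟨o, ho⟩ : {v : V // v ∉ W}) v + din x W (⟨o, ho⟩ : {v : V // v ∉ W}) + din x W v
        = din x W v + x o v + din x W o := by
        show x o v + din x W o + din x W v = _
        ring
      rw [t4]
      exact t2
    exact_mod_cast t
  have hdeg' : ∀ v, ∑ u, h v u + (C v).card ≤ Fintype.card ι := by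
    intro v
    have t : ((∑ u, h v u : ℕ) : ℤ) + (C v).card ≤ Fintype.card ι := by
      rw [hCc, Nat.cast_sum, Finset.sum_congr rfl fun u _ => hh v u]
      have t5 : ∑ c ∈ Wᶜ, x v c = ∑ c : {v : V // v ∉ W}, x v c :=
        Finset.sum_subtype Wᶜ (fun v => mem_compl) (fun c => x v c)
      have t6 : ∑ c ∈ W, x v c + ∑ c ∈ Wᶜ, x v c = dg x v := Finset.sum_add_sum_compl W _
      have t7 := hout v v.2
      have t8 : din x W v = ∑ c ∈ W, x v c := rfl
      rw [← t5]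
      omega
    exact_mod_cast t
  have ha' : (t + 2) * (Wᶜ.card * (μ + 2 ^ Wᶜ.card)) + 2 * (Fintype.card ι + κ) +
      2 * (t + 1) * (t + 2) * μ ≤ (t + 2) * Fintype.card ι := by
    exact_mod_cast ha
  have hb' : 6 * ((3 * t + 1) * μ + κ) ≤ Fintype.card ι := by exact_mod_cast hb
  obtain ⟨S, hS1, hS2, hS3, hS4, hS5⟩ := outsideU (h := h) (s := t) hsym hdiag hC hμ' hmax' h1'
    hdeg' hb' (by rw [hq]; exact ha')
  refine glue_col hx hcP (fun u v => (hin u v).le) hcw (fun a o => (he1 a o).ge) hS1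
    (fun u v => ?_) (fun u v i hi t => ?_) hS4 hS5
  · rw [← hh]
    exact_mod_cast hS2 u v
  · exact Finset.disjoint_left.1 (hS3 u v) hi ((hCd u i).2 t)

end Pool.Agent.H44U
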