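import Pool.Agent.Lib.H44U.H2
import Pool.Agent.Lib.H44U.F7
import Pool.Agent.Lib.H44U.F9

/-!
# Chunk H4 (M): no dominant outer vertex

`2 din x W c < r - 2 μ` for all `c ∉ W`. As `regime_ac` in `H44T/H4`. `Inv x r W k t μ ∅`: `out`: `2 ∑ c ∈ Wᶜ, x v c = 2 dg x v - 2 din x W v ≥ 2 (r - k) - r + 2 μ = r + 2 μ - 2 k ≥ 2 ((2 t + 4) μ + k)` by `n2`; `full`: `nfu_full`.
* Some `w0 ∈ W` has `r + μ < 2 ends x r W w0`: `peel_rowU`. A weak vertex is `w0`: otherwise `nfu_weak`, `nfu_pair`: `2 (r - (3 t + 3) μ - k n) + r + μ < 2 (r - k)`. `h_big`: `2 ends > r + μ ≥ 4 μ + 2 k`. `h_row`: `nfu_pair`. `h_col`: `row_col`.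
* Otherwise `peel_noneU` with `q = r - k` as in `H44T/H4`.
-/

namespace Pool.Agent.H44U

open Finset Pool.Agent.H44O Pool.Agent.H44T
open scoped Classical

variable {V : Type*} [Fintype V]

theorem regime_acU {x : V → V → ℤ} {r : ℤ} {μ k Λ t : ℕ} {W : Finset V}
    (h : NFU x r μ k Λ t W) (hb : ∀ c, c ∉ W → 2 * din x W c < r - 2 * μ) :
    ∃ x', St x' (r - k) W 0 (heavy x k) ∧ PeeledU x x' r W k ∧
      ∀ v, v ∉ W → dg x' v ≤ r - k := by
  have hμ0 : (0 : ℤ) ≤ μ := Int.natCast_nonneg _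
  have hk0 : (0 : ℤ) ≤ k := Int.natCast_nonneg _
  have hN0 : (0 : ℤ) ≤ Fintype.card V := Int.natCast_nonneg _
  have hkN : (0 : ℤ) ≤ k * Fintype.card V := mul_nonneg hk0 hN0
  have ht0 : (3 : ℤ) ≤ t := by exact_mod_cast h.tpos
  have htμ : (0 : ℤ) ≤ t * μ := mul_nonneg (by omega) hμ0
  have htk : (0 : ℤ) ≤ t * k := mul_nonneg (by omega) hk0
  have hmu : (2 * (k : ℤ) + 1) ≤ μ := by exact_mod_cast h.mu
  have hn2 : 6 * (t * μ : ℤ) + 10 * μ + 2 * (k * Fintype.card V) + 2 * (t * k) + 16 * k < r := by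
    have h2 := h.n2
    have e : (6 * (t : ℤ) + 10) * μ + 2 * k * (Fintype.card V + t + 8) =
        6 * (t * μ : ℤ) + 10 * μ + 2 * (k * Fintype.card V) + 2 * (t * k) + 16 * k := by
      ring
    rw [e] at h2
    exact h2
  have hne : W.Nonempty := card_pos.mp (by
    have := h.card
    omega)
  have hinv : Inv x r W k t μ ∅ := by
    refine ⟨h.le, fun v _ => h.ok.1 v, nfu_full h, ?_⟩
    intro v hv _ hfull
    have h1 := hb v hv
    have h2 : dg x v = din x W v + ∑ c ∈ Wᶜ, x v c := by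
      unfold dg din
      exact (sum_add_sum_compl W _).symm
    have e : (2 * (t : ℤ) + 4) * μ + k = 2 * (t * μ : ℤ) + 4 * μ + k := by ring
    rw [e]
    linarith
  have hweak : ∀ w, nbi (heavy x k) W w < 3 * t + 3 →
      r ≤ ends x r W w + 3 * (t * μ : ℤ) + 3 * μ + k * Fintype.card V := by
    intro w hw
    have h1 := nfu_weak h hw
    have e : ends x r W w + (3 * (t : ℤ) + 3) * μ + k * Fintype.card V =
      ends x r W w + 3 * (t * μ : ℤ) + 3 * μ + k * Fintype.card V := by ring
    rw [e] at h1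
    exact h1
  by_cases hw : ∃ w0 ∈ W, r + μ < 2 * ends x r W w0
  · obtain ⟨w0, hw0, hbig⟩ := hw
    refine peel_rowU hw0 ?_ k (nfu_st h) hinv ?_ ?_ ?_
    · intro F hF hF3 hw0F
      apply nfu_match h hF hF3
      intro v hv hvF
      by_contra hlt
      push Not at hlt
      have h1 := hweak v hlt
      have hne' : v ≠ w0 := by
        intro h2
        exact hvF (h2 ▸ hw0F)
      have h2 := nfu_pair h hv hw0 hne'
      linarith
    · linarith
    · intro w hwW hwne
      have h1 := nfu_pair h hwW hw0 hwne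
      linarith
    · intro c hc
      have h1 := row_col h.isW h.ok h.odd h.ins hw0 hc
      linarith
  · push Not at hw
    refine peel_noneU (q := r - k) ?_ hne k (nfu_st h) hinv (by linarith) ?_ ?_ ?_ ?_
    · intro F hF hF3
      apply nfu_match h hF hF3
      intro v hv _
      by_contra hlt
      push Not at hlt
      have h1 := hweak v hlt
      have h2 := hw v hv
      linarith
    · intro w hwW w' hw'W hne'
      exact nfu_pair h hwW hw'W hne'
    · intro w hwW
      have h1 := hw w hwW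
      linarith
    · intro c hc c' hc'
      have h1 := hb c hc
      have h2 := hb c' hc'
      linarith
    · intro w hwW c hc
      have h1 := hw w hwW
      have h2 := hb c hc
      omega

end Pool.Agent.H44U
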