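import Pool.Agent.Lib.H44T.H5
import Pool.Agent.Lib.H44U.F1

/-!
# Chunk H5 (S): facts about peelings

Ports of `H44T/H5` (same proofs: only `mats` and `tab` are used there).
-/

namespace Pool.Agent.H44U

open Finset Pool.Agent.H44O Pool.Agent.H44T
open scoped Classical

variable {V : Type*} [Fintype V]

theorem cov_of_peeledU {x x' : V → V → ℤ} {r : ℤ} {W : Finset V} {l : ℕ} (h : PeeledU x x' r W l)
    (hc : Cov x' (r - l)) : Cov x r := by
  obtain ⟨M, hl, hinv, hM⟩ := h.mats
  obtain ⟨a, ha, hainv, hax⟩ := hc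
  refine ⟨fun τ => a τ + M.count τ, ?_, ?_, ?_⟩
  · have h1 := h5_count M (fun _ => (1 : ℤ))
    simp only [mul_one, List.map_const', List.sum_replicate, nsmul_eq_mul] at h1
    rw [hl] at h1
    rw [sum_add_distrib]
    push_cast at ha ⊢
    rw [ha, ← h1]
    ring
  · intro τ hτ
    by_cases h0 : a τ = 0
    · apply hinv
      rw [← List.count_pos_iff]
      simp only [h0, zero_add] at hτ
      exact Nat.pos_of_ne_zero hτ
    · exact hainv τ h0
  · intro u v huv
    rw [hM u v, h5_count M (fun τ => chi τ u v)]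
    have h1 := hax u v huv
    have h2 : ∑ τ, (((a τ + M.count τ : ℕ)) : ℤ) * chi τ u v =
        ∑ τ, (a τ : ℤ) * chi τ u v + ∑ τ, ((M.count τ : ℕ) : ℤ) * chi τ u v := by
      rw [← sum_add_distrib]
      apply sum_congr rfl
      intro τ _
      push_cast
      ring
    rw [h2]
    linarith

theorem slk_peeledU {x x' : V → V → ℤ} {r : ℤ} {W : Finset V} {l : ℕ} (h : PeeledU x x' r W l)
    (Z : Finset V) : slk x r Z ≤ slk x' (r - l) Z + l * Fintype.card V := by
  have h1 : inW x' Z ≤ inW x Z := sum_le_sum (fun u _ => sum_le_sum (fun v _ => peeledU_le h u v))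
  have h2 : (Z.card : ℤ) - 1 ≤ Fintype.card V := by
    have : (Z.card : ℤ) ≤ Fintype.card V := by exact_mod_cast card_le_univ Z
    linarith
  have h3 : (l : ℤ) * ((Z.card : ℤ) - 1) ≤ l * Fintype.card V :=
    mul_le_mul_of_nonneg_left h2 (Int.natCast_nonneg _)
  unfold slk
  linarith

theorem peeled_dinU {x x' : V → V → ℤ} (hx : IsW x) (hx' : IsW x') {r : ℤ} {W : Finset V} {l : ℕ}
    (h : PeeledU x x' r W l) {c : V} (hc : c ∉ W) :
    din x' W c ≤ din x W c ∧ din x W c ≤ din x' W c + l * Fintype.card V := by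
  rw [← Bm_col hx r hc, ← Bm_col hx' (r - l) hc]
  refine ⟨sum_le_sum (fun w _ => (h.tab w c).1), ?_⟩
  have h1 := sum_le_sum (fun w (_ : w ∈ (univ : Finset V)) => (h.tab w c).2)
  rw [sum_add_distrib, sum_const, card_univ, nsmul_eq_mul] at h1
  linarith

end Pool.Agent.H44U
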