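import Pool.Agent.Lib.H44U.H3
import Pool.Agent.Lib.H44U.H4
import Pool.Agent.Lib.H44U.H5

/-!
# Chunk H9 (M): peeling a nearly full set

As `regime` in `H44T/H9`. `Wᶜ = ∅`: `regime_acU`. Otherwise `o ∉ W` with the largest `din x W o`. If `r - 2 μ ≤ 2 din x W o`: `regime_betaU`. Otherwise `regime_acU`, and `2 (din x' W c + x' o c + din x' W o) ≤ 2 (r - 2 μ) + 2 μ ≤ 2 (r - k)` (`peeledU_le`, `peeled_dinU`, `mu`).
-/

namespace Pool.Agent.H44U

open Finset Pool.Agent.H44O Pool.Agent.H44T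
open scoped Classical

variable {V : Type*} [Fintype V]

theorem regimeU {x : V → V → ℤ} {r : ℤ} {μ k Λ t : ℕ} {W : Finset V} (h : NFU x r μ k Λ t W) :
    ∃ x', St x' (r - k) W 0 (heavy x k) ∧ PeeledU x x' r W k ∧
      (∀ v, v ∉ W → dg x' v ≤ r - k) ∧ (Wᶜ = ∅ ∨
      ∃ o, o ∉ W ∧ (∀ c, c ∉ W → din x W c ≤ din x W o) ∧
        ∀ c, c ∉ W → c ≠ o → din x' W c + x' o c + din x' W o ≤ r - k) := by
  by_cases hW : Wᶜ = ∅
  · have hall : ∀ c, c ∉ W → 2 * din x W c < r - 2 * μ := by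
      intro c hc
      exfalso
      have h1 : c ∈ Wᶜ := Finset.mem_compl.2 hc
      rw [hW] at h1
      simp at h1
    obtain ⟨x', h1, h2, h3⟩ := regime_acU h hall
    exact ⟨x', h1, h2, h3, Or.inl hW⟩
  · have hne : (Wᶜ).Nonempty := Finset.nonempty_iff_ne_empty.2 hW
    obtain ⟨o, ho, hmax⟩ := Finset.exists_max_image Wᶜ (fun c => din x W c) hne
    have ho' : o ∉ W := Finset.mem_compl.1 ho
    have hmax' : ∀ c, c ∉ W → din x W c ≤ din x W o := fun c hc =>
      hmax c (Finset.mem_compl.2 hc)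
    by_cases hb : r - 2 * μ ≤ 2 * din x W o
    · obtain ⟨x', h1, h2, h3, h4⟩ := regime_betaU h ho' hb
      exact ⟨x', h1, h2, h3, Or.inr ⟨o, ho', hmax', h4⟩⟩
    · push Not at hb
      have hall : ∀ c, c ∉ W → 2 * din x W c < r - 2 * μ := by
        intro c hc
        have := hmax' c hc
        linarith
      obtain ⟨x', h1, h2, h3⟩ := regime_acU h hall
      refine ⟨x', h1, h2, h3, Or.inr ⟨o, ho', hmax', ?_⟩⟩
      intro c hc _
      have e1 := (peeled_dinU h.isW h1.isW h2 hc).1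
      have e2 := (peeled_dinU h.isW h1.isW h2 ho').1
      have e3 := peeledU_le h2 o c
      have e4 := h.le o c
      have e5 := hall c hc
      have e6 := h.mu
      have e7 : (2 * (k : ℤ) + 1) ≤ μ := by exact_mod_cast e6
      have e8 : (0 : ℤ) ≤ k := Int.natCast_nonneg k
      linarith

end Pool.Agent.H44U
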