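import Pool.Agent.Lib.H44U.H1
import Pool.Agent.Lib.H44U.H6
import Pool.Agent.Lib.H44U.H8
import Pool.Agent.Lib.H44U.H9

/-!
# Chunk H10 (M): nearly full sets

As `near_full` in `H44T/H10`: `C := 2 (L + 1) (n + 1) + n + 4`, `μ1 := (t + 1) (n + 1) (100 (K + L + 1) + 2 ^ n)`; `NumU n m q μ k L t r` with `m = |W|`, `q = |Wᶜ|` (`size_ge`); `NFU x r μ k Λ t W` with `Λ = C (k + 1)`; `regimeU`; `inner_decU` for `x'`, `r - k`;
`tight_cov_empty` or `tight_covU` with `κ = k n`; `cov_of_peeledU`.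
-/

namespace Pool.Agent.H44U

open Finset Pool.Agent.H44O Pool.Agent.H44T
open scoped Classical

theorem near_fullU (V : Type) [Fintype V] {t : ℕ} (ht : 3 ≤ t)
    (hn : 100 * (t + 1) ^ 2 ≤ Fintype.card V) :
    ∃ C : ℕ, 1 ≤ C ∧ ∀ K : ℕ, ∃ μ1 : ℕ, ∀ (x : V → V → ℤ) (r : ℤ) (μ k : ℕ) (W : Finset V),
      μ1 ≤ μ → IsW x → Ok x r → (∀ u v, x u v ≤ μ) →
      (t : ℤ) * (μ * Fintype.card V) + 4 * r ≤ 2 * t * r → Odd W.card → 3 ≤ W.card → k ≤ K →
      inW x W = r * ((W.card : ℤ) - 1) - 2 * k →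
      (∀ Z : Finset V, Odd Z.card → 3 ≤ Z.card → Z.card < W.card →
        (C : ℤ) * (k + 1) ≤ slk x r Z) → Cov x r := by
  obtain ⟨L, hL, hdec⟩ := inner_decU V
  obtain ⟨C, hC⟩ : ∃ C, C = 2 * (L + 1) * (Fintype.card V + 1) + Fintype.card V + 4 := ⟨_, rfl⟩
  refine ⟨C, by omega, fun K => ⟨(t + 1) * (Fintype.card V + 1) *
    (100 * (K + L + 1) + 2 ^ Fintype.card V), ?_⟩⟩
  intro x r μ k W hμ1 hx hok hμ hbig hodd h3 hkK hins hsmall
  have hnum : NumU (Fintype.card V) W.card Wᶜ.card μ k L t r := by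
    refine ⟨hn, ht, (card_add_card_compl W).symm, le_trans ?_ hμ1, hbig, ?_⟩
    · gcongr
    · exact size_ge hx hμ h3 (Int.natCast_nonneg k) hins
  have hnf : NFU x r μ k (C * (k + 1)) t W := by
    refine ⟨hx, hok, hμ, hodd, numU_m hnum, hins, ?_, ?_, (numU_mu hnum).1, ht, (numU_1 hnum).1,
      (numU_2 hnum).1, numU_3 hnum⟩
    · intro Z hZ1 hZ2 hZ3
      have := hsmall Z hZ1 hZ2 hZ3
      push_cast
      exact this
    · have h1 : 4 * (k + 1) ≤ C * (k + 1) := Nat.mul_le_mul_right _ (by omega)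
      omega
  obtain ⟨x', hst, hpe, hout, hcase⟩ := regimeU hnf
  have hins' : inW x' W = (r - k) * ((W.card : ℤ) - 1) := by
    have h1 := hst.ins
    push_cast at h1
    linarith
  have hμ' : ∀ u v, x' u v ≤ μ := fun u v => (peeledU_le hpe u v).trans (hμ u v)
  have hmu := numU_mu hnum
  have hdec' : Dec (inn x' (r - k) W) := by
    refine hdec t x' (r - k) μ W (by omega) hst.isW hμ' hodd (numU_m hnum) hins' hst.degW ?_
      (by omega) hmu.2 (numU_1 hnum).2 (numU_2 hnum).2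
    intro Z hZ1 hZ2 hZ3
    have h1 := hsmall Z hZ1 hZ2 hZ3
    have h2 := slk_peeledU hpe Z
    have h4 : (Fintype.card V : ℤ) * k ≤ (C : ℤ) * k := by
      refine mul_le_mul_of_nonneg_right ?_ (Int.natCast_nonneg k)
      exact_mod_cast (by omega : Fintype.card V ≤ C)
    have h5 : 2 * ((L : ℤ) + 1) * ((Fintype.card V : ℤ) + 1) ≤ (C : ℤ) := by
      rw [hC]
      push_cast
      linarith [Int.natCast_nonneg (Fintype.card V)]
    linarith
  refine cov_of_peeledU hpe ?_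
  rcases hcase with hW | ⟨o, ho, hmax, h1⟩
  · exact tight_cov_empty hst.isW hW hins' hdec'
  · refine tight_covU (μ := μ) (κ := k * Fintype.card V) (t := t) hst.isW hst.degW hins' hdec' hμ'
      ho ?_ hout h1 ?_ ?_
    · intro c hc
      have e1 := (peeled_dinU hx hst.isW hpe hc).1
      have e2 := (peeled_dinU hx hst.isW hpe ho).2
      have e3 := hmax c hc
      push_cast
      linarith
    · have := numU_a hnum
      push_cast
      exact this
    · have := numU_b hnum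
      push_cast
      exact this

end Pool.Agent.H44U
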