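import Pool.Agent.Lib.H44U.E3
import Pool.Agent.Lib.H44U.E6
import Pool.Agent.Lib.H44U.F3

/-!
# Chunk H2 (M): a nearly full set, with a parameter

The first lemmas as in `H44T/H2` (same proofs).
* `nfu_match`: `three_outU` with `H = heavy x k`, `G = {w ∈ W | t * ends ≤ r}`: `good_nbU` (`n1`), `bad_cardU` (`2 k t ≤ r` from `n2`).
* `nfu_full`: let `P` be the set of the `v ∉ W` with `r ≤ dg x v + k`. `dg x v = din x W v + ∑ c ∈ Wᶜ, x v c ≤ din x W v + |Wᶜ| μ`, so `din x W v ≥ r - k - |Wᶜ| μ`. `∑ v ∉ W, din x W v = ∑ w ∈ W, ∑ v ∉ W, x w v ≤ ∑ w ∈ W, ends ≤ r + 2 k` (`ends = r - din x W w`, `∑ v ∉ W, x w v = dg x w - din x W w`).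
  If `|P| ≥ t + 1`: `(t + 1) (r - k - |Wᶜ| μ) ≤ r + 2 k` (take `t + 1` elements; the number `r - k - |Wᶜ| μ` is positive by `n3`): contradiction to `n3`.
-/

namespace Pool.Agent.H44U

open Finset Pool.Agent.H44O Pool.Agent.H44T
open scoped Classical

variable {V : Type*} [Fintype V]

/-- A nearly full set `W` with slack `2 k`; all smaller odd sets have slack at least `Λ`. -/
structure NFU (x : V → V → ℤ) (r : ℤ) (μ k Λ t : ℕ) (W : Finset V) : Prop where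
  /-- weight -/
  isW : IsW x
  /-- Edmonds -/
  ok : Ok x r
  /-- multiplicity -/
  le : ∀ u v, x u v ≤ μ
  /-- odd -/
  odd : Odd W.card
  /-- large -/
  card : 4 * t + 40 ≤ W.card
  /-- slack -/
  ins : inW x W = r * ((W.card : ℤ) - 1) - 2 * k
  /-- smaller sets -/
  small : ∀ Z : Finset V, Odd Z.card → 3 ≤ Z.card → Z.card < W.card → (Λ : ℤ) ≤ slk x r Z
  /-- much larger slack -/
  lam : 4 * k ≤ Λ
  /-- large multiplicity -/
  mu : 2 * k + 1 ≤ μ
  /-- parameter -/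
  tpos : 3 ≤ t
  /-- first numerical condition -/
  n1 : (t : ℤ) * μ * (Fintype.card V + 4 * t + 10) + 2 * t * k * Fintype.card V ≤ 2 * (t - 1) * r
  /-- second numerical condition -/
  n2 : (6 * (t : ℤ) + 10) * μ + 2 * k * (Fintype.card V + t + 8) < r
  /-- third numerical condition -/
  n3 : r + 2 * k < ((t : ℤ) + 1) * (r - k - (Wᶜ.card : ℕ) * μ)

theorem nfu_ends {x : V → V → ℤ} {r : ℤ} {μ k Λ t : ℕ} {W : Finset V} (h : NFU x r μ k Λ t W)
    {w : V} (hw : w ∈ W) : 0 ≤ ends x r W w := by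
  have h1 : din x W w ≤ dg x w :=
    Finset.sum_le_sum_of_subset_of_nonneg (Finset.subset_univ W) fun v _ _ => h.isW.nonneg w v
  have h2 := h.ok.1 w
  unfold ends
  linarith

theorem nfu_sum {x : V → V → ℤ} {r : ℤ} {μ k Λ t : ℕ} {W : Finset V} (h : NFU x r μ k Λ t W) :
    ∑ w ∈ W, ends x r W w = r + 2 * k := by
  rw [sum_ends, h.ins]
  ring

theorem nfu_st {x : V → V → ℤ} {r : ℤ} {μ k Λ t : ℕ} {W : Finset V} (h : NFU x r μ k Λ t W) :
    St x r W k (heavy x k) := by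
  exact ⟨h.isW, fun w _ => h.ok.1 w, h.ins, fun u v huv => huv.2.1⟩

theorem nfu_pair {x : V → V → ℤ} {r : ℤ} {μ k Λ t : ℕ} {W : Finset V} (h : NFU x r μ k Λ t W)
    {w w' : V} (hw : w ∈ W) (hw' : w' ∈ W) (hne : w ≠ w') :
    ends x r W w + ends x r W w' ≤ r - k := by
  have hw2 : w' ∈ W.erase w := Finset.mem_erase.2 ⟨hne.symm, hw'⟩
  have hc1 : (W.erase w).card = W.card - 1 := Finset.card_erase_of_mem hw
  have hc2 : ((W.erase w).erase w').card = (W.erase w).card - 1 := Finset.card_erase_of_mem hw2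
  have hc := h.card
  have hodd : Odd ((W.erase w).erase w').card := by
    obtain ⟨j, hj⟩ := h.odd
    exact ⟨j - 1, by omega⟩
  have hs := h.small _ hodd (by omega) (by omega)
  have h1 := pair_in h.isW h.ins hw hw' hne hs
  have h2 := h.isW.nonneg w w'
  have h3 : (4 : ℤ) * k ≤ Λ := by exact_mod_cast h.lam
  linarith

theorem nfu_weak {x : V → V → ℤ} {r : ℤ} {μ k Λ t : ℕ} {W : Finset V} (h : NFU x r μ k Λ t W)
    {w : V} (hw : nbi (heavy x k) W w < 3 * t + 3) :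
    r ≤ ends x r W w + (3 * t + 3) * μ + k * Fintype.card V := by
  exact weak_endsU h.isW h.le hw

theorem h2u_r {x : V → V → ℤ} {r : ℤ} {μ k Λ t : ℕ} {W : Finset V} (h : NFU x r μ k Λ t W) :
    2 * (k : ℤ) * t ≤ r ∧ 0 ≤ r := by
  have hn : (0 : ℤ) ≤ Fintype.card V := Int.natCast_nonneg _
  have hk0 : (0 : ℤ) ≤ k := Int.natCast_nonneg _
  have ht0 : (0 : ℤ) ≤ t := Int.natCast_nonneg _
  have h2 := h.n2
  have h3 : (0 : ℤ) ≤ (k : ℤ) * Fintype.card V := mul_nonneg hk0 hn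
  have h4 : (0 : ℤ) ≤ (μ : ℤ) := Int.natCast_nonneg _
  have h6 : (0 : ℤ) ≤ (t : ℤ) * μ := mul_nonneg ht0 h4
  have h7 : (0 : ℤ) ≤ (k : ℤ) * t := mul_nonneg hk0 ht0
  constructor <;> linarith

theorem nfu_match {x : V → V → ℤ} {r : ℤ} {μ k Λ t : ℕ} {W : Finset V} (h : NFU x r μ k Λ t W)
    {F : Finset V} (hF : F ⊆ W) (hF3 : F.card = 3)
    (hdeg : ∀ v ∈ W, v ∉ F → 3 * t + 3 ≤ nbi (heavy x k) W v) :
    ∃ ρ : Equiv.Perm V, (∀ v, ρ (ρ v) = v) ∧ (∀ v, ρ v ≠ v ↔ v ∈ W \ F) ∧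
      ∀ v ∈ W \ F, (heavy x k).Adj v (ρ v) := by
  have hμ : 0 < μ := by
    have := h.mu
    omega
  have hk16 : 2 * (k : ℤ) * t ≤ r := (h2u_r h).1
  have ht1 : 1 ≤ t := by
    have := h.tpos
    omega
  refine three_outU (G := W.filter (fun w => t * ends x r W w ≤ r)) h.odd
    (Finset.filter_subset _ _) ?_ ?_ hF hF3 hdeg
  · intro v hv
    exact good_nbU h.isW hμ ht1 h.le h.n1 (Finset.mem_filter.1 hv).2
  · refine le_trans (Finset.card_le_card ?_)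
      (bad_cardU (nfu_sum h) (fun w hw => nfu_ends h hw) hk16)
    intro v hv
    rw [Finset.mem_sdiff, Finset.mem_filter] at hv
    rw [Finset.mem_filter]
    refine ⟨hv.1, ?_⟩
    by_contra hcon
    exact hv.2 ⟨hv.1, not_lt.1 hcon⟩

theorem nfu_full {x : V → V → ℤ} {r : ℤ} {μ k Λ t : ℕ} {W : Finset V} (h : NFU x r μ k Λ t W) :
    (univ.filter (fun v => v ∉ W ∧ r ≤ dg x v + k)).card ≤ t := by
  by_contra hcon
  push Not at hcon
  obtain ⟨P, hP⟩ : ∃ P, P = univ.filter (fun v => v ∉ W ∧ r ≤ dg x v + k) := ⟨_, rfl⟩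
  rw [← hP] at hcon
  have hk0 : (0 : ℤ) ≤ k := Int.natCast_nonneg _
  have ht0 : (0 : ℤ) ≤ t := Int.natCast_nonneg _
  obtain ⟨-, hr0⟩ := h2u_r h
  have hn3 := h.n3
  obtain ⟨δ, hδ⟩ : ∃ δ : ℤ, δ = r - k - (Wᶜ.card : ℕ) * μ := ⟨_, rfl⟩
  rw [← hδ] at hn3
  have hδ0 : 0 ≤ δ := by
    by_contra hneg
    push Not at hneg
    have h1 : ((t : ℤ) + 1) * δ < 0 := mul_neg_of_pos_of_neg (by linarith) hneg
    linarith
  have hsplit : ∀ v, dg x v = din x W v + ∑ c ∈ Wᶜ, x v c := by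
    intro v
    unfold dg din
    exact (Finset.sum_add_sum_compl W (fun c => x v c)).symm
  have h1 : ∀ v ∈ P, δ ≤ din x W v := by
    intro v hv
    rw [hP, mem_filter] at hv
    have h2 := hsplit v
    have h3 : ∑ c ∈ Wᶜ, x v c ≤ (Wᶜ.card : ℕ) * μ := by
      have h4 := Finset.sum_le_card_nsmul Wᶜ (fun c => x v c) (μ : ℤ) (fun c _ => h.le v c)
      rwa [nsmul_eq_mul] at h4
    rw [hδ]
    linarith [hv.2.2]
  have h2 : ∑ v ∈ P, din x W v ≤ ∑ v ∈ Wᶜ, din x W v := by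
    refine Finset.sum_le_sum_of_subset_of_nonneg ?_ fun v _ _ =>
      Finset.sum_nonneg fun w _ => h.isW.nonneg v w
    intro v hv
    rw [hP, mem_filter] at hv
    exact mem_compl.mpr hv.2.1
  have h3 : ∑ v ∈ Wᶜ, din x W v ≤ ∑ w ∈ W, ends x r W w := by
    unfold din
    rw [Finset.sum_comm]
    refine Finset.sum_le_sum fun w _ => ?_
    have h4 := hsplit w
    have h5 : ∑ v ∈ Wᶜ, x v w = ∑ v ∈ Wᶜ, x w v :=
      Finset.sum_congr rfl fun v _ => h.isW.symm v w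
    have h6 := h.ok.1 w
    rw [h5]
    unfold ends
    linarith
  have h4 : (P.card : ℤ) * δ ≤ ∑ v ∈ P, din x W v := by
    rw [← nsmul_eq_mul, ← Finset.sum_const]
    exact Finset.sum_le_sum h1
  have h5 : ((t : ℤ) + 1) * δ ≤ (P.card : ℤ) * δ := by
    refine mul_le_mul_of_nonneg_right ?_ hδ0
    exact_mod_cast hcon
  rw [nfu_sum h] at h3
  linarith

end Pool.Agent.H44U
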