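import Pool.Agent.Lib.H44U.H2
import Pool.Agent.Lib.H44U.F8

/-!
# Chunk H3 (M): a dominant outer vertex

`r - 2 μ ≤ 2 din x W o`. As `regime_beta` in `H44T/H3` with `peel_colU` (`f = t`): no vertex of `W` is weak: `nfu_weak` and `row_col`: `2 (r - (3 t + 3) μ - k n) + (r - 2 μ) ≤ 2 r + 2 k + 2 μ`: contradiction to `n2`. `hM` from `nfu_match`. `h_big`: `2 din ≥ r - 2 μ ≥ 4 μ + 2 k`. `h_row`: `row_col`; `h_col`: `pair_out`.
`Inv x r W k t μ {o}`: `le`, `deg` (`ok`), `full` (`nfu_full`), `out`: for `v ∉ W`, `v ≠ o`, `r ≤ dg x v + k`: `pair_out`: `din x W v + din x W o ≤ r + k`, so `2 din x W v ≤ 2 r + 2 k - r + 2 μ = r + 2 μ + 2 k`, and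
`2 ∑ c ∈ Wᶜ, x v c = 2 dg x v - 2 din x W v ≥ 2 (r - k) - r - 2 μ - 2 k = r - 2 μ - 4 k ≥ 2 ((2 t + 4) μ + k)` by `n2`.
-/

namespace Pool.Agent.H44U

open Finset Pool.Agent.H44O Pool.Agent.H44T
open scoped Classical

variable {V : Type*} [Fintype V]

theorem regime_betaU {x : V → V → ℤ} {r : ℤ} {μ k Λ t : ℕ} {W : Finset V}
    (h : NFU x r μ k Λ t W) {o : V} (ho : o ∉ W) (hb : r - 2 * μ ≤ 2 * din x W o) :
    ∃ x', St x' (r - k) W 0 (heavy x k) ∧ PeeledU x x' r W k ∧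
      (∀ v, v ∉ W → dg x' v ≤ r - k) ∧
      ∀ c, c ∉ W → c ≠ o → din x' W c + x' o c + din x' W o ≤ r - k := by
  have hμ0 : (0 : ℤ) ≤ μ := Int.natCast_nonneg _
  have hk0 : (0 : ℤ) ≤ k := Int.natCast_nonneg _
  have ht0 : (0 : ℤ) ≤ t := Int.natCast_nonneg _
  have hn : (0 : ℤ) ≤ Fintype.card V := Int.natCast_nonneg _
  have hkn : (0 : ℤ) ≤ (k : ℤ) * Fintype.card V := mul_nonneg hk0 hn
  have htμ : (0 : ℤ) ≤ (t : ℤ) * μ := mul_nonneg ht0 hμ0
  have hkt : (0 : ℤ) ≤ (k : ℤ) * t := mul_nonneg hk0 ht0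
  have h2 := h.n2
  have h2' : 6 * ((t : ℤ) * μ) + 10 * μ + 2 * ((k : ℤ) * Fintype.card V) + 2 * (k * t) +
      16 * k < r := by
    have e : (6 * (t : ℤ) + 10) * μ + 2 * k * (Fintype.card V + t + 8) =
      6 * ((t : ℤ) * μ) + 10 * μ + 2 * ((k : ℤ) * Fintype.card V) + 2 * (k * t) + 16 * k := by
      ring
    rw [e] at h2
    exact h2
  have hrow : ∀ w ∈ W, ends x r W w + din x W o - x w o ≤ r + k := fun w hw =>
    row_col h.isW h.ok h.odd h.ins hw ho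
  have hdeg : ∀ v ∈ W, 3 * t + 3 ≤ nbi (heavy x k) W v := by
    intro v hv
    by_contra hcon
    have h3 := nfu_weak h (not_le.1 hcon)
    have h4 := hrow v hv
    have h5 := h.le v o
    linarith
  have hinv : Inv x r W k t μ {o} := by
    refine ⟨h.le, fun v _ => h.ok.1 v, nfu_full h, ?_⟩
    intro v hv hvo hfull
    have hvo' : v ≠ o := fun he => hvo (mem_singleton.mpr he)
    have h3 := pair_out h.isW h.ok h.odd h.ins hv ho hvo'
    have h4 := h.isW.nonneg v o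
    have h5 : din x W v + ∑ c ∈ Wᶜ, x v c = dg x v := by
      unfold din dg
      exact Finset.sum_add_sum_compl W _
    have e : (2 * (t : ℤ) + 4) * μ + k = 2 * ((t : ℤ) * μ) + 4 * μ + k := by ring
    rw [e]
    linarith
  refine peel_colU (f := t) (μ := μ) (fun F hF hF3 => nfu_match h hF hF3 fun v hv _ => hdeg v hv)
    ho k (nfu_st h) hinv ?_ hrow ?_
  · linarith
  · intro c hc hne
    have h8 := pair_out h.isW h.ok h.odd h.ins hc ho hne
    rw [h.isW.symm o c]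
    linarith

end Pool.Agent.H44U
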