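import Pool.Agent.Lib.H44T.I1
import Pool.Agent.Lib.H44U.H10

/-!
# Chunk I2 (S/M): the weight theorem

Copy the proof of `main_weight` in `H44T/I2` with `near_fullU`. The condition `(n + 2) μ ≤ 2 r` of `case_one_cov`: `t μ n ≤ (2 t - 4) r`, and `t μ (n + 2) ≤ 2 t r` follows from `2 t μ ≤ 4 r` (`μ n ≤ 2 r` and `n ≥ t`).
-/

namespace Pool.Agent.H44U

open Finset Pool.Agent.H44O Pool.Agent.H44T
open scoped Classical

theorem main_weightU (V : Type) [Fintype V] {t : ℕ} (ht : 3 ≤ t)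
    (hn : 100 * (t + 1) ^ 2 ≤ Fintype.card V) :
    ∃ μ0 : ℕ, ∀ (x : V → V → ℤ) (r : ℤ) (μ : ℕ), μ0 ≤ μ → IsW x → Ok x r →
      (∀ u v, x u v ≤ μ) → (t : ℤ) * (μ * Fintype.card V) + 4 * r ≤ 2 * t * r → Cov x r := by
  have hn6 : 1600 ≤ Fintype.card V := by
    have h1 : 100 * (3 + 1) ^ 2 ≤ 100 * (t + 1) ^ 2 :=
      Nat.mul_le_mul_left _ (Nat.pow_le_pow_left (by omega) 2)
    omega
  have hnt : t ≤ Fintype.card V := by nlinarith
  obtain ⟨LI, m0, hI⟩ := case_one_cov (V := V) (by omega)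
  obtain ⟨C, hC1, hC⟩ := near_fullU V ht hn
  set n := Fintype.card V with hndef
  let lam : ℕ → ℕ := fun j => (LI + 2) * C ^ (n - j)
  have hpow : ∀ j, 1 ≤ C ^ j := fun j => Nat.one_le_pow _ _ hC1
  have hlam : ∀ j, LI + 2 ≤ lam j := fun j => Nat.le_mul_of_pos_right _ (hpow _)
  obtain ⟨m1, hm1⟩ := hC ((LI + 2) * C ^ n)
  refine ⟨max m0 m1, fun x r μ hμ0 hx hok hμ hr => ?_⟩
  rcases select x r (fun j => (lam j : ℤ)) with h | ⟨W, hW, hW3, hWs, hWm⟩
  · refine hI x r μ ((le_max_left _ _).trans hμ0) hx hok hμ ?_ fun U hU h3 => ?_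
    · have ht0 : (0 : ℤ) < t := by exact_mod_cast (by omega : 0 < t)
      have hμnn : (0 : ℤ) ≤ μ := Nat.cast_nonneg _
      have hP : (t : ℤ) * μ ≤ n * μ := mul_le_mul_of_nonneg_right (by exact_mod_cast hnt) hμnn
      have h1 : (t : ℤ) * (μ * n) ≤ t * (2 * r) := by
        have hr0 : 0 ≤ r := by
          have h2 : (0 : ℤ) ≤ (t : ℤ) * (μ * n) := by positivity
          have h3 : (3 : ℤ) ≤ t := by exact_mod_cast ht
          nlinarith
        nlinarith
      have h2 : (μ : ℤ) * n ≤ 2 * r := le_of_mul_le_mul_left h1 ht0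
      have h4 : (t : ℤ) * (((n : ℤ) + 2) * μ) ≤ t * (2 * r) := by
        nlinarith
      have h5 : ((n : ℤ) + 2) * μ ≤ 2 * r := le_of_mul_le_mul_left h4 ht0
      exact h5
    · refine le_trans ?_ (h U hU h3)
      exact_mod_cast (by have := hlam U.card; omega : LI ≤ lam U.card)
  · obtain ⟨k', hk'⟩ := slk_parity hx r hW
    have h0 := slk_nonneg hok hW
    obtain ⟨k, rfl⟩ : ∃ k : ℕ, k' = k := ⟨k'.toNat, by omega⟩
    have hWn : W.card ≤ n := Finset.card_le_univ W
    have hkl : 2 * k < lam W.card := by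
      have : ((2 * k : ℕ) : ℤ) < (lam W.card : ℤ) := by push_cast; linarith
      exact_mod_cast this
    have hlamW := hlam W.card
    have hlK : lam W.card ≤ (LI + 2) * C ^ n :=
      Nat.mul_le_mul_left _ (Nat.pow_le_pow_right hC1 (Nat.sub_le _ _))
    refine hm1 x r μ k W ((le_max_right _ _).trans hμ0) hx hok hμ hr hW hW3 (by omega) ?_ ?_
    · unfold slk at hk'
      linarith
    · intro Z hZ hZ3 hZW
      refine le_trans ?_ (hWm Z hZ hZ3 hZW)
      have h5 : C * (k + 1) ≤ lam Z.card := by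
        calc C * (k + 1) ≤ C * lam W.card := Nat.mul_le_mul_left _ (by omega)
          _ = (LI + 2) * C ^ (n - W.card + 1) := by
            show C * ((LI + 2) * C ^ (n - W.card)) = _
            ring
          _ ≤ (LI + 2) * C ^ (n - Z.card) :=
            Nat.mul_le_mul_left _ (Nat.pow_le_pow_right hC1 (by omega))
      exact_mod_cast h5

end Pool.Agent.H44U
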