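import Pool.Agent.Lib.H44U.I2
import Pool.Agent.Lib.H44O.H2
import Pool.Agent.Lib.H44O.H3
import Pool.Agent.Lib.H44O.H4
import Pool.Agent.Lib.H44O.H5

/-!
# Chunk I3 (S/M): the final theorem

Copy the proof of `large_max_degree` in `H44T/I3`: `j` with `1 / (j + 1) < ε`, `t = j + 3`, `n0 = 100 (t + 1) ^ 2`. With `δ = Δ`, `r ≥ δ ≥ (1 / 2 + 1 / (t - 2)) μ n`: `(2 t - 4) r ≥ (t - 2 + 2) μ n = t μ n`.
-/

namespace Pool.Agent.H44U

open Finset Pool.Agent.H44O Pool.Agent.H44T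
open scoped Classical

theorem large_max_degree_half (ε : ℝ) (hε : 0 < ε) : ∃ n0 : ℕ, ∀ n : ℕ, n0 ≤ n →
    ∃ μ0 : ℕ, ∀ (V E : Type) [Fintype V] [Fintype E] (G : MGraph V E), Fintype.card V = n →
      μ0 ≤ G.maxMult → (1 / 2 + ε) * (G.maxMult * n) ≤ (G.maxDeg : ℝ) →
      G.chromaticIndex = max G.maxDeg G.dens := by
  obtain ⟨j, hj⟩ := exists_nat_one_div_lt hε
  refine ⟨100 * (j + 3 + 1) ^ 2, fun n hn => ?_⟩
  obtain ⟨m, hm⟩ := main_weightU (Fin n) (t := j + 3) (by omega)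
    (by rw [Fintype.card_fin]; exact hn)
  refine ⟨m, fun V E _ _ G hV hμ hdeg => ?_⟩
  refine le_antisymm ?_ G.le_chromaticIndex
  let f : V ≃ Fin n := Fintype.equivFinOfCardEq hV
  have hkey : ((j + 3 : ℕ) : ℤ) * (G.maxMult * Fintype.card (Fin n)) +
      4 * ((max G.maxDeg G.dens : ℕ) : ℤ) ≤
      2 * ((j + 3 : ℕ) : ℤ) * ((max G.maxDeg G.dens : ℕ) : ℤ) := by
    rw [Fintype.card_fin]
    have h1 : (G.maxDeg : ℝ) ≤ ((max G.maxDeg G.dens : ℕ) : ℝ) := by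
      exact_mod_cast le_max_left _ _
    have hj0 : (0 : ℝ) < (j : ℝ) + 1 := by positivity
    have hP : (0 : ℝ) ≤ (G.maxMult : ℝ) * n := by positivity
    have h2 : (1 / 2 + 1 / ((j : ℝ) + 1)) * ((G.maxMult : ℝ) * n) ≤
        ((max G.maxDeg G.dens : ℕ) : ℝ) :=
      (mul_le_mul_of_nonneg_right (by linarith) hP).trans (hdeg.trans h1)
    have h3 : ((j : ℝ) + 3) * ((G.maxMult : ℝ) * n) + 4 * ((max G.maxDeg G.dens : ℕ) : ℝ) ≤
        2 * ((j : ℝ) + 3) * ((max G.maxDeg G.dens : ℕ) : ℝ) := by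
      have h4 := mul_le_mul_of_nonneg_left h2 (show (0 : ℝ) ≤ 2 * ((j : ℝ) + 1) by positivity)
      have h5 : 2 * ((j : ℝ) + 1) * ((1 / 2 + 1 / ((j : ℝ) + 1)) * ((G.maxMult : ℝ) * n)) =
          ((j : ℝ) + 3) * ((G.maxMult : ℝ) * n) := by
        field_simp
        ring
      rw [h5] at h4
      linarith
    have h6 : (((((j + 3 : ℕ) : ℤ) * (G.maxMult * n) +
        4 * ((max G.maxDeg G.dens : ℕ) : ℤ) : ℤ)) : ℝ) ≤
        ((2 * ((j + 3 : ℕ) : ℤ) * ((max G.maxDeg G.dens : ℕ) : ℤ) : ℤ) : ℝ) := by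
      push_cast at h3 ⊢
      exact h3
    exact_mod_cast h6
  have hx : Cov (fun i j => G.wgt (f.symm i) (f.symm j)) (max G.maxDeg G.dens : ℕ) :=
    hm _ _ G.maxMult hμ (isW_comap f.symm G.isW_wgt) (ok_comap f.symm G.ok_max)
      (fun u v => G.wgt_le _ _) hkey
  have h2 := cov_comap f hx
  simp only [Equiv.symm_apply_apply] at h2
  exact G.chromaticIndex_le_of_cov h2

end Pool.Agent.H44U
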